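import Mathlib

/-!
# The real inequalities behind the exceptional windows
-/

set_option autoImplicit false

namespace Pool.Agent.D1X

open Real

lemma cos_le_q {x : ℝ} (h0 : 0 ≤ x) (h1 : x ≤ 1) : cos x ≤ 1 - x ^ 2 / 2 + x ^ 4 * (5 / 96) := by
  have h := Real.cos_bound (x := x) (by rw [abs_of_nonneg h0]; exact h1)
  rw [abs_of_nonneg h0] at h
  have := (abs_le.mp h).2
  linarith

lemma sin_le_q {x : ℝ} (h0 : 0 ≤ x) (h1 : x ≤ 1) : sin x ≤ x - x ^ 3 / 6 + x ^ 5 / 100 := by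
  have h := Real.sin_bound (x := x) (by rw [abs_of_nonneg h0]; exact h1)
  rw [abs_of_nonneg h0] at h
  have := (abs_le.mp h).2
  linarith

lemma sin_ge_q {x : ℝ} (h0 : 0 ≤ x) (h1 : x ≤ 1) : x - x ^ 3 / 6 - x ^ 5 / 100 ≤ sin x := by
  have h := Real.sin_bound (x := x) (by rw [abs_of_nonneg h0]; exact h1)
  rw [abs_of_nonneg h0] at h
  have := (abs_le.mp h).1
  linarith

/-! ### exponent 5 -/

lemma sqrt5 : (√5 : ℝ) ≤ 2.2364 ∧ 2.236 ≤ (√5 : ℝ) := by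
  constructor
  · rw [Real.sqrt_le_left (by norm_num)]; norm_num
  · apply Real.le_sqrt_of_sq_le; norm_num

lemma c51 : (0.309 : ℝ) ≤ cos (2 * π * 1 / 5) := by
  have e : 2 * π * 1 / 5 = 2 * (π / 5) := by ring
  rw [e, Real.cos_two_mul, Real.cos_pi_div_five]
  have h2 : (√5 : ℝ) ^ 2 = 5 := Real.sq_sqrt (by norm_num)
  have := sqrt5.2
  nlinarith

lemma c52 : -(0.8091 : ℝ) ≤ cos (2 * π * 2 / 5) := by
  have e : 2 * π * 2 / 5 = π - π / 5 := by ring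
  rw [e, Real.cos_pi_sub, Real.cos_pi_div_five]
  have := sqrt5.1
  linarith

theorem core5 {h s X0 X1 X2 T1 T2 F R : ℝ} (hh : 0 < h) (hs0 : 0 ≤ s) (hs1 : s ≤ h)
    (hX0 : 0 ≤ X0) (hX1 : 0 ≤ X1) (hX2 : 0 ≤ X2)
    (hsum : X0 + X1 + X2 = 2 * h + s) (hT : T1 + T2 ≤ 3 / 2 * h + s)
    (h1 : X1 - 4 / 5 * h ≤ T1) (h2 : 3 * (X2 - h) ≤ T2)
    (hR : R = -(X0 + X1 * cos (2 * π * 1 / 5) + X2 * cos (2 * π * 2 / 5)))
    (hfou : (5 * h) * (F + 3 * (3 * h - s) ^ 2) ≤ 4 * (3 * h - s) ^ 3 +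
      4 * R * ((5 * h) * (3 * h - s) - (3 * h - s) ^ 2))
    (hF : (h - s) * (h - 5 * s) < F) : False := by
  have g1 := mul_le_mul_of_nonneg_left c51 hX1
  have g2 := mul_le_mul_of_nonneg_left c52 hX2
  have hR1 : R ≤ 1.2269 * h - 0.309 * s := by
    rw [hR]
    nlinarith
  have hb : 0 < 3 * h - s := by linarith
  have e1 : (5 * h) * (3 * h - s) - (3 * h - s) ^ 2 = (3 * h - s) * (2 * h + s) := by ring
  rw [e1] at hfou
  have hp : 0 ≤ (3 * h - s) * (2 * h + s) := mul_nonneg hb.le (by linarith)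
  have h3 : R * ((3 * h - s) * (2 * h + s)) ≤
      (1.2269 * h - 0.309 * s) * ((3 * h - s) * (2 * h + s)) :=
    mul_le_mul_of_nonneg_right hR1 hp
  have h4 : (5 * h) * ((h - s) * (h - 5 * s)) < (5 * h) * F :=
    mul_lt_mul_of_pos_left hF (by linarith)
  have key : 0 ≤ (5 * h) * ((h - s) * (h - 5 * s) + 3 * (3 * h - s) ^ 2) - 4 * (3 * h - s) ^ 3 -
      4 * ((1.2269 * h - 0.309 * s) * ((3 * h - s) * (2 * h + s))) := by
    have e2 : (5 * h) * ((h - s) * (h - 5 * s) + 3 * (3 * h - s) ^ 2) - 4 * (3 * h - s) ^ 3 -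
      4 * ((1.2269 * h - 0.309 * s) * ((3 * h - s) * (2 * h + s))) =
      h * (2.5544 * h ^ 2 - 9.4916 * (h * s) + 10.1436 * s ^ 2) + 2.764 * s ^ 3 := by ring
    rw [e2]
    have e3 : 0 ≤ 2.5544 * h ^ 2 - 9.4916 * (h * s) + 10.1436 * s ^ 2 := by
      nlinarith [sq_nonneg (s - 0.468 * h), sq_nonneg h]
    have e4 : 0 ≤ s ^ 3 := pow_nonneg hs0 3
    nlinarith [mul_nonneg hh.le e3]
  nlinarith

/-! ### exponent 7 -/

lemma c73 : -(0.902 : ℝ) ≤ cos (2 * π * 3 / 7) := by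
  have e : 2 * π * 3 / 7 = π - π / 7 := by ring
  rw [e, Real.cos_pi_sub]
  have hp := Real.pi_gt_d4
  have hp2 := Real.pi_lt_d4
  have h := cos_le_q (x := π / 7) (by linarith) (by linarith)
  have h1 : (0.4487 : ℝ) ≤ π / 7 := by linarith
  have h2 : π / 7 ≤ (0.449 : ℝ) := by linarith
  have h3 : (0.4487 : ℝ) ^ 2 ≤ (π / 7) ^ 2 := pow_le_pow_left₀ (by norm_num) h1 2
  have h4 : (π / 7) ^ 4 ≤ (0.449 : ℝ) ^ 4 := pow_le_pow_left₀ (by linarith) h2 4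
  norm_num at h3 h4
  linarith

lemma c72 : -(0.2245 : ℝ) ≤ cos (2 * π * 2 / 7) := by
  have e : 2 * π * 2 / 7 = π / 14 + π / 2 := by ring
  rw [e, Real.cos_add_pi_div_two]
  have hp := Real.pi_pos
  have hp2 := Real.pi_lt_d4
  have h := Real.sin_le (x := π / 14) (by linarith)
  linarith

lemma c71 : (0.62 : ℝ) ≤ cos (2 * π * 1 / 7) := by
  have e : 2 * π * 1 / 7 = 2 * (π / 7) := by ring
  rw [e, Real.cos_two_mul]
  have hp := Real.pi_gt_d4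
  have hp2 := Real.pi_lt_d4
  have h := sin_le_q (x := π / 7) (by linarith) (by linarith)
  have h1 : (0.4487 : ℝ) ≤ π / 7 := by linarith
  have h2 : π / 7 ≤ (0.449 : ℝ) := by linarith
  have h3 : (0.4487 : ℝ) ^ 3 ≤ (π / 7) ^ 3 := pow_le_pow_left₀ (by norm_num) h1 3
  have h4 : (π / 7) ^ 5 ≤ (0.449 : ℝ) ^ 5 := pow_le_pow_left₀ (by linarith) h2 5
  norm_num at h3 h4
  have h5 : sin (π / 7) ≤ 0.4345 := by linarith
  have h6 : 0 ≤ sin (π / 7) := Real.sin_nonneg_of_nonneg_of_le_pi (by linarith) (by linarith)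
  have h7 := Real.sin_sq_add_cos_sq (π / 7)
  nlinarith

theorem core7 {h s X0 X1 X2 X3 T1 T2 T3 F R : ℝ} (hh : 0 < h) (hs0 : 0 ≤ s) (hs1 : s ≤ h)
    (hX0 : 0 ≤ X0) (hX1 : 0 ≤ X1) (hX2 : 0 ≤ X2) (hX3 : 0 ≤ X3) (hT1 : 0 ≤ T1) (hT2 : 0 ≤ T2)
    (hT3 : 0 ≤ T3)
    (hsum : X0 + X1 + X2 + X3 = 2 * h + s) (hT : T1 + T2 + T3 ≤ s)
    (h2 : X2 - 6 / 7 * h ≤ T2) (h3 : X3 - 6 / 7 * h ≤ T3) (h3' : 2 * X3 - 13 / 7 * h ≤ T3)
    (hR : R = -(X0 + X1 * cos (2 * π * 1 / 7) + X2 * cos (2 * π * 2 / 7) +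
      X3 * cos (2 * π * 3 / 7)))
    (hfou : (7 * h) * (F + 3 * (5 * h - s) ^ 2) ≤ 4 * (5 * h - s) ^ 3 +
      4 * R * ((7 * h) * (5 * h - s) - (5 * h - s) ^ 2))
    (hF : (h - s) * (h - 5 * s) < F) : False := by
  have g1 := mul_le_mul_of_nonneg_left c71 hX1
  have g2 := mul_le_mul_of_nonneg_left c72 hX2
  have g3 := mul_le_mul_of_nonneg_left c73 hX3
  have hR0 : R ≤ 0.902 * X3 + 0.2245 * X2 - 0.62 * X1 - X0 := by
    rw [hR]; linarith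
  have hR1 : R ≤ 0.7885 * h + 0.902 * s := by nlinarith
  have hR2 : R ≤ 0.8853 * h + 0.2245 * s := by nlinarith
  have hb : 0 < 5 * h - s := by linarith
  have e1 : (7 * h) * (5 * h - s) - (5 * h - s) ^ 2 = (5 * h - s) * (2 * h + s) := by ring
  rw [e1] at hfou
  have hp : 0 ≤ (5 * h - s) * (2 * h + s) := mul_nonneg hb.le (by linarith)
  have h4 : (7 * h) * ((h - s) * (h - 5 * s)) < (7 * h) * F :=
    mul_lt_mul_of_pos_left hF (by linarith)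
  rcases le_or_gt (7 * s) h with hc | hc
  · have h5 : R * ((5 * h - s) * (2 * h + s)) ≤
        (0.7885 * h + 0.902 * s) * ((5 * h - s) * (2 * h + s)) :=
      mul_le_mul_of_nonneg_right hR1 hp
    have e2 : (7 * h) * ((h - s) * (h - 5 * s) + 3 * (5 * h - s) ^ 2) - 4 * (5 * h - s) ^ 3 -
      4 * ((0.7885 * h + 0.902 * s) * ((5 * h - s) * (2 * h + s))) =
      0.46 * h ^ 3 + h * s * (2.458 * h - 11.67 * s) + 7.608 * s ^ 3 := by ring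
    have e3 : 0 ≤ h * s * (2.458 * h - 11.67 * s) :=
      mul_nonneg (mul_nonneg hh.le hs0) (by linarith)
    have e4 : 0 ≤ s ^ 3 := pow_nonneg hs0 3
    have e5 : 0 ≤ h ^ 3 := pow_nonneg hh.le 3
    nlinarith
  · have h5 : R * ((5 * h - s) * (2 * h + s)) ≤
        (0.8853 * h + 0.2245 * s) * ((5 * h - s) * (2 * h + s)) :=
      mul_le_mul_of_nonneg_right hR2 hp
    have e2 : (7 * h) * ((h - s) * (h - 5 * s) + 3 * (5 * h - s) ^ 2) - 4 * (5 * h - s) ^ 3 -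
      4 * ((0.8853 * h + 0.2245 * s) * ((5 * h - s) * (2 * h + s))) =
      h * (-3.412 * h ^ 2 + 28.3964 * (h * s) - 3.1528 * s ^ 2) + 4.898 * s ^ 3 := by ring
    have e3 : 0 ≤ -3.412 * h ^ 2 + 28.3964 * (h * s) - 3.1528 * s ^ 2 := by
      nlinarith [mul_nonneg hs0 (sub_nonneg.mpr hs1), mul_pos hh (sub_pos.mpr hc)]
    have e4 : 0 ≤ s ^ 3 := pow_nonneg hs0 3
    have e5 := mul_nonneg hh.le e3
    nlinarith

/-! ### exponent 13 -/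

lemma c135 : -(0.7524 : ℝ) ≤ cos (2 * π * 5 / 13) := by
  have e : 2 * π * 5 / 13 = π - 3 * π / 13 := by ring
  rw [e, Real.cos_pi_sub]
  have hp := Real.pi_gt_d4
  have hp2 := Real.pi_lt_d4
  have h := cos_le_q (x := 3 * π / 13) (by linarith) (by linarith)
  have h1 : (0.7249 : ℝ) ≤ 3 * π / 13 := by linarith
  have h2 : 3 * π / 13 ≤ (0.725 : ℝ) := by linarith
  have h3 : (0.7249 : ℝ) ^ 2 ≤ (3 * π / 13) ^ 2 := pow_le_pow_left₀ (by norm_num) h1 2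
  have h4 : (3 * π / 13) ^ 4 ≤ (0.725 : ℝ) ^ 4 := pow_le_pow_left₀ (by linarith) h2 4
  norm_num at h3 h4
  linarith

lemma c134 : -(0.3626 : ℝ) ≤ cos (2 * π * 4 / 13) := by
  have e : 2 * π * 4 / 13 = 3 * π / 26 + π / 2 := by ring
  rw [e, Real.cos_add_pi_div_two]
  have hp := Real.pi_pos
  have hp2 := Real.pi_lt_d4
  have h := Real.sin_le (x := 3 * π / 26) (by linarith)
  linarith

lemma c133 : (0.0769 : ℝ) ≤ cos (2 * π * 3 / 13) := by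
  have e : 2 * π * 3 / 13 = π / 2 - π / 26 := by ring
  rw [e, Real.cos_pi_div_two_sub]
  have hp := Real.pi_pos
  have h := Real.mul_le_sin (x := π / 26) (by linarith) (by linarith)
  have e2 : 2 / π * (π / 26) = 1 / 13 := by field_simp; norm_num
  rw [e2] at h
  norm_num at h ⊢
  linarith

lemma c132 : (0.5327 : ℝ) ≤ cos (2 * π * 2 / 13) := by
  have h := Real.one_sub_sq_div_two_le_cos (x := 2 * π * 2 / 13)
  have hp := Real.pi_pos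
  have hp2 := Real.pi_lt_d4
  have h2 : 2 * π * 2 / 13 ≤ (0.9667 : ℝ) := by linarith
  have h4 : (2 * π * 2 / 13) ^ 2 ≤ (0.9667 : ℝ) ^ 2 := pow_le_pow_left₀ (by positivity) h2 2
  norm_num at h4
  linarith

lemma c131 : (0.5327 : ℝ) ≤ cos (2 * π * 1 / 13) := by
  have h := c132
  have hp := Real.pi_pos
  have := Real.cos_le_cos_of_nonneg_of_le_pi (x := 2 * π * 1 / 13) (y := 2 * π * 2 / 13)
    (by positivity) (by linarith) (by linarith)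
  linarith

theorem core13 {h s X0 X1 X2 X3 X4 X5 X6 T1 T2 T3 T4 T5 T6 F R : ℝ} (hh : 0 < h) (hs0 : 0 ≤ s)
    (hs1 : s ≤ h)
    (hX0 : 0 ≤ X0) (hX1 : 0 ≤ X1) (hX2 : 0 ≤ X2) (hX3 : 0 ≤ X3) (hX4 : 0 ≤ X4) (hX5 : 0 ≤ X5)
    (hX6 : 0 ≤ X6) (hT1 : 0 ≤ T1) (hT2 : 0 ≤ T2) (hT3 : 0 ≤ T3) (hT4 : 0 ≤ T4) (hT5 : 0 ≤ T5)
    (hT6 : 0 ≤ T6)
    (hsum : X0 + X1 + X2 + X3 + X4 + X5 + X6 = 4 * h + s)
    (hT : T1 + T2 + T3 + T4 + T5 + T6 ≤ s)
    (h3 : X3 - 12 / 13 * h ≤ T3) (h4 : X4 - 12 / 13 * h ≤ T4) (h5 : X5 - 12 / 13 * h ≤ T5)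
    (h6 : X6 - 12 / 13 * h ≤ T6)
    (hR : R = -(X0 + X1 * cos (2 * π * 1 / 13) + X2 * cos (2 * π * 2 / 13) +
      X3 * cos (2 * π * 3 / 13) + X4 * cos (2 * π * 4 / 13) + X5 * cos (2 * π * 5 / 13) +
      X6 * cos (2 * π * 6 / 13)))
    (hfou : (13 * h) * (F + 3 * (9 * h - s) ^ 2) ≤ 4 * (9 * h - s) ^ 3 +
      4 * R * ((13 * h) * (9 * h - s) - (9 * h - s) ^ 2))
    (hF : (h - s) * (h - 5 * s) < F) : False := by
  have g1 := mul_le_mul_of_nonneg_left c131 hX1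
  have g2 := mul_le_mul_of_nonneg_left c132 hX2
  have g3 := mul_le_mul_of_nonneg_left c133 hX3
  have g4 := mul_le_mul_of_nonneg_left c134 hX4
  have g5 := mul_le_mul_of_nonneg_left c135 hX5
  have g6 := mul_le_mul_of_nonneg_left (Real.neg_one_le_cos (2 * π * 6 / 13)) hX6
  have hR0 : R ≤ X6 + 0.7524 * X5 + 0.3626 * X4 - 0.0769 * X3 - 0.5327 * X2 - 0.5327 * X1 - X0 := by
    rw [hR]; linarith
  have hR1 : R ≤ 1.7178 * h + s := by nlinarith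
  have hb : 0 < 9 * h - s := by linarith
  have e1 : (13 * h) * (9 * h - s) - (9 * h - s) ^ 2 = (9 * h - s) * (4 * h + s) := by ring
  rw [e1] at hfou
  have hp : 0 ≤ (9 * h - s) * (4 * h + s) := mul_nonneg hb.le (by linarith)
  have hF4 : (13 * h) * ((h - s) * (h - 5 * s)) < (13 * h) * F :=
    mul_lt_mul_of_pos_left hF (by linarith)
  have hF5 : R * ((9 * h - s) * (4 * h + s)) ≤
      (1.7178 * h + s) * ((9 * h - s) * (4 * h + s)) :=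
    mul_le_mul_of_nonneg_right hR1 hp
  have e2 : (13 * h) * ((h - s) * (h - 5 * s) + 3 * (9 * h - s) ^ 2) - 4 * (9 * h - s) ^ 3 -
      4 * ((1.7178 * h + s) * ((9 * h - s) * (4 * h + s))) =
      h * (8.6368 * h ^ 2 + 13.644 * (h * s) - 17.1288 * s ^ 2) + 8 * s ^ 3 := by ring
  have e3 : 0 ≤ 8.6368 * h ^ 2 + 13.644 * (h * s) - 17.1288 * s ^ 2 := by
    nlinarith [mul_nonneg hs0 (sub_nonneg.mpr hs1), mul_nonneg hh.le (sub_nonneg.mpr hs1)]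
  have e4 : 0 ≤ s ^ 3 := pow_nonneg hs0 3
  have e5 := mul_nonneg hh.le e3
  nlinarith

/-! ### exponent 19 -/

lemma c198 : -(0.8803 : ℝ) ≤ cos (2 * π * 8 / 19) := by
  have e : 2 * π * 8 / 19 = π - 3 * π / 19 := by ring
  rw [e, Real.cos_pi_sub]
  have hp := Real.pi_gt_d4
  have hp2 := Real.pi_lt_d4
  have h := cos_le_q (x := 3 * π / 19) (by linarith) (by linarith)
  have h1 : (0.496 : ℝ) ≤ 3 * π / 19 := by linarith
  have h2 : 3 * π / 19 ≤ (0.4961 : ℝ) := by linarith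
  have h3 : (0.496 : ℝ) ^ 2 ≤ (3 * π / 19) ^ 2 := pow_le_pow_left₀ (by norm_num) h1 2
  have h4 : (3 * π / 19) ^ 4 ≤ (0.4961 : ℝ) ^ 4 := pow_le_pow_left₀ (by linarith) h2 4
  norm_num at h3 h4
  linarith

lemma c197 : -(0.683 : ℝ) ≤ cos (2 * π * 7 / 19) := by
  have e : 2 * π * 7 / 19 = π - 5 * π / 19 := by ring
  rw [e, Real.cos_pi_sub]
  have hp := Real.pi_gt_d4
  have hp2 := Real.pi_lt_d4
  have h := cos_le_q (x := 5 * π / 19) (by linarith) (by linarith)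
  have h1 : (0.8266 : ℝ) ≤ 5 * π / 19 := by linarith
  have h2 : 5 * π / 19 ≤ (0.8268 : ℝ) := by linarith
  have h3 : (0.8266 : ℝ) ^ 2 ≤ (5 * π / 19) ^ 2 := pow_le_pow_left₀ (by norm_num) h1 2
  have h4 : (5 * π / 19) ^ 4 ≤ (0.8268 : ℝ) ^ 4 := pow_le_pow_left₀ (by linarith) h2 4
  norm_num at h3 h4
  linarith

lemma c196 : -(0.4135 : ℝ) ≤ cos (2 * π * 6 / 19) := by
  have e : 2 * π * 6 / 19 = 5 * π / 38 + π / 2 := by ring
  rw [e, Real.cos_add_pi_div_two]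
  have hp := Real.pi_pos
  have hp2 := Real.pi_lt_d4
  have h := Real.sin_le (x := 5 * π / 38) (by linarith)
  linarith

lemma c195 : -(0.0828 : ℝ) ≤ cos (2 * π * 5 / 19) := by
  have e : 2 * π * 5 / 19 = π / 38 + π / 2 := by ring
  rw [e, Real.cos_add_pi_div_two]
  have hp := Real.pi_pos
  have hp2 := Real.pi_lt_d4
  have h := Real.sin_le (x := π / 38) (by linarith)
  linarith

lemma c194 : (0.1578 : ℝ) ≤ cos (2 * π * 4 / 19) := by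
  have e : 2 * π * 4 / 19 = π / 2 - 3 * π / 38 := by ring
  rw [e, Real.cos_pi_div_two_sub]
  have hp := Real.pi_pos
  have h := Real.mul_le_sin (x := 3 * π / 38) (by linarith) (by linarith)
  have e2 : 2 / π * (3 * π / 38) = 3 / 19 := by field_simp; norm_num
  rw [e2] at h
  norm_num at h ⊢
  linarith

lemma c193 : (0.5077 : ℝ) ≤ cos (2 * π * 3 / 19) := by
  have h := Real.one_sub_sq_div_two_le_cos (x := 2 * π * 3 / 19)
  have hp := Real.pi_pos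
  have hp2 := Real.pi_lt_d4
  have h2 : 2 * π * 3 / 19 ≤ (0.9922 : ℝ) := by linarith
  have h4 : (2 * π * 3 / 19) ^ 2 ≤ (0.9922 : ℝ) ^ 2 := pow_le_pow_left₀ (by positivity) h2 2
  norm_num at h4
  linarith

lemma c192 : (0.5077 : ℝ) ≤ cos (2 * π * 2 / 19) := by
  have h := c193
  have hp := Real.pi_pos
  have := Real.cos_le_cos_of_nonneg_of_le_pi (x := 2 * π * 2 / 19) (y := 2 * π * 3 / 19)
    (by positivity) (by linarith) (by linarith)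
  linarith

lemma c191 : (0.5077 : ℝ) ≤ cos (2 * π * 1 / 19) := by
  have h := c193
  have hp := Real.pi_pos
  have := Real.cos_le_cos_of_nonneg_of_le_pi (x := 2 * π * 1 / 19) (y := 2 * π * 3 / 19)
    (by positivity) (by linarith) (by linarith)
  linarith

theorem core19 {h s X0 X1 X2 X3 X4 X5 X6 X7 X8 X9 T1 T2 T3 T4 T5 T6 T7 T8 T9 F R : ℝ}
    (hh : 0 < h) (hs0 : 0 ≤ s) (hs1 : s ≤ h)
    (hX0 : 0 ≤ X0) (hX1 : 0 ≤ X1) (hX2 : 0 ≤ X2) (hX3 : 0 ≤ X3) (hX4 : 0 ≤ X4) (hX5 : 0 ≤ X5)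
    (hX6 : 0 ≤ X6) (hX7 : 0 ≤ X7) (hX8 : 0 ≤ X8) (hX9 : 0 ≤ X9)
    (hT1 : 0 ≤ T1) (hT2 : 0 ≤ T2) (hT3 : 0 ≤ T3) (hT4 : 0 ≤ T4) (hT5 : 0 ≤ T5)
    (hT6 : 0 ≤ T6) (hT7 : 0 ≤ T7) (hT8 : 0 ≤ T8) (hT9 : 0 ≤ T9)
    (hsum : X0 + X1 + X2 + X3 + X4 + X5 + X6 + X7 + X8 + X9 = 6 * h + s)
    (hT : T1 + T2 + T3 + T4 + T5 + T6 + T7 + T8 + T9 ≤ s)
    (h4 : X4 - 18 / 19 * h ≤ T4) (h5 : X5 - 18 / 19 * h ≤ T5)
    (h6 : X6 - 18 / 19 * h ≤ T6) (h7 : X7 - 18 / 19 * h ≤ T7) (h8 : X8 - 18 / 19 * h ≤ T8)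
    (h9 : X9 - 18 / 19 * h ≤ T9)
    (hR : R = -(X0 + X1 * cos (2 * π * 1 / 19) + X2 * cos (2 * π * 2 / 19) +
      X3 * cos (2 * π * 3 / 19) + X4 * cos (2 * π * 4 / 19) + X5 * cos (2 * π * 5 / 19) +
      X6 * cos (2 * π * 6 / 19) + X7 * cos (2 * π * 7 / 19) + X8 * cos (2 * π * 8 / 19) +
      X9 * cos (2 * π * 9 / 19)))
    (hfou : (19 * h) * (F + 3 * (13 * h - s) ^ 2) ≤ 4 * (13 * h - s) ^ 3 +
      4 * R * ((19 * h) * (13 * h - s) - (13 * h - s) ^ 2))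
    (hF : (h - s) * (h - 5 * s) < F) : False := by
  have g1 := mul_le_mul_of_nonneg_left c191 hX1
  have g2 := mul_le_mul_of_nonneg_left c192 hX2
  have g3 := mul_le_mul_of_nonneg_left c193 hX3
  have g4 := mul_le_mul_of_nonneg_left c194 hX4
  have g5 := mul_le_mul_of_nonneg_left c195 hX5
  have g6 := mul_le_mul_of_nonneg_left c196 hX6
  have g7 := mul_le_mul_of_nonneg_left c197 hX7
  have g8 := mul_le_mul_of_nonneg_left c198 hX8
  have g9 := mul_le_mul_of_nonneg_left (Real.neg_one_le_cos (2 * π * 9 / 19)) hX9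
  have hR0 : R ≤ X9 + 0.8803 * X8 + 0.683 * X7 + 0.4135 * X6 + 0.0828 * X5 - 0.1578 * X4
      - 0.5077 * X3 - 0.5077 * X2 - 0.5077 * X1 - X0 := by
    rw [hR]; linarith
  have hR1 : R ≤ 2.59 * h + s := by nlinarith
  have hb : 0 < 13 * h - s := by linarith
  have e1 : (19 * h) * (13 * h - s) - (13 * h - s) ^ 2 = (13 * h - s) * (6 * h + s) := by ring
  rw [e1] at hfou
  have hp : 0 ≤ (13 * h - s) * (6 * h + s) := mul_nonneg hb.le (by linarith)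
  have hF4 : (19 * h) * ((h - s) * (h - 5 * s)) < (19 * h) * F :=
    mul_lt_mul_of_pos_left hF (by linarith)
  have hF5 : R * ((13 * h - s) * (6 * h + s)) ≤
      (2.59 * h + s) * ((13 * h - s) * (6 * h + s)) :=
    mul_le_mul_of_nonneg_right hR1 hp
  have e2 : (19 * h) * ((h - s) * (h - 5 * s) + 3 * (13 * h - s) ^ 2) - 4 * (13 * h - s) ^ 3 -
      4 * ((2.59 * h + s) * ((13 * h - s) * (6 * h + s))) =
      h * (55.92 * h ^ 2 + 47.48 * (h * s) - 21.64 * s ^ 2) + 8 * s ^ 3 := by ring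
  have e3 : 0 ≤ 55.92 * h ^ 2 + 47.48 * (h * s) - 21.64 * s ^ 2 := by
    nlinarith [mul_nonneg hs0 (sub_nonneg.mpr hs1), mul_nonneg hh.le (sub_nonneg.mpr hs1),
      mul_nonneg hh.le hs0]
  have e4 : 0 ≤ s ^ 3 := pow_nonneg hs0 3
  have e5 := mul_nonneg hh.le e3
  nlinarith

end Pool.Agent.D1X
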