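import Mathlib
import Pool.Agent.Lib_helper26.SCH.Step
import Pool.Agent.Lib_helper26.SCH.Slice3

/-!
# Independent sets on cycles, level by level
-/

set_option autoImplicit false
set_option linter.unusedSectionVars false

namespace Pool.Agent.D1X

open Finset Pool.Agent.GL Pool.Agent.Lib_helper42.RS Pool.Agent.Lib_helper13.PL Pool.Agent.SCH

section
variable {G : Type*} [AddCommGroup G] [Fintype G] [DecidableEq G]

/-- at most `(e-1)/2` points of an independent set on an `e`-cycle -/
lemma cyc_pt {e : ℕ} (he : e % 2 = 1) {v : G} (hv : e • v = 0) {S : Finset G}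
    (hS : ∀ x ∈ S, x + v ∉ S) (x : G) :
    2 * ((range e).filter (fun i => x + i • v ∈ S)).card ≤ e - 1 := by
  set I := (range e).filter (fun i => x + i • v ∈ S) with hI
  have he0 : 0 < e := by omega
  have hinj : Set.InjOn (fun i => (i + 1) % e) (I : Set ℕ) := by
    intro i hi j hj hij
    have hi' : i < e := Finset.mem_range.mp (Finset.mem_filter.mp hi).1
    have hj' : j < e := Finset.mem_range.mp (Finset.mem_filter.mp hj).1
    have h1 : i + 1 ≡ j + 1 [MOD e] := hij
    have h2 : i ≡ j [MOD e] := Nat.ModEq.add_right_cancel' 1 h1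
    exact Nat.ModEq.eq_of_lt_of_lt h2 hi' hj'
  set J := I.image (fun i => (i + 1) % e) with hJ
  have hcJ : J.card = I.card := Finset.card_image_of_injOn hinj
  have hdis : Disjoint I J := by
    rw [Finset.disjoint_left]
    intro j hj hj2
    obtain ⟨i, hi, rfl⟩ := Finset.mem_image.mp hj2
    have h1 := (Finset.mem_filter.mp hi).2
    have h2 := (Finset.mem_filter.mp hj).2
    rw [← nsmul_eq_mod_nsmul _ hv, add_nsmul, one_nsmul, ← add_assoc] at h2
    exact hS _ h1 h2
  have hsub : I ∪ J ⊆ range e := by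
    intro j hj
    rcases Finset.mem_union.mp hj with h | h
    · exact (Finset.mem_filter.mp h).1
    · obtain ⟨i, _, rfl⟩ := Finset.mem_image.mp h
      exact Finset.mem_range.mpr (Nat.mod_lt _ he0)
  have h1 := Finset.card_le_card hsub
  rw [Finset.card_union_of_disjoint hdis, hcJ, Finset.card_range] at h1
  omega

lemma cyc_count {e : ℕ} (he : e % 2 = 1) {v : G} (hv : e • v = 0) {S C : Finset G}
    (hS : ∀ x ∈ S, x + v ∉ S) (hC : ∀ x, x + v ∈ C ↔ x ∈ C) (hSC : S ⊆ C) :
    2 * (e * S.card) ≤ (e - 1) * C.card := by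
  have hCi : ∀ (i : ℕ) (x : G), x + i • v ∈ C ↔ x ∈ C := by
    intro i
    induction i with
    | zero => intro x; simp
    | succ i ih =>
      intro x
      rw [add_nsmul, one_nsmul, ← add_assoc, hC, ih]
  have h1 : ∑ x ∈ C, ((range e).filter (fun i => x + i • v ∈ S)).card =
      ∑ i ∈ range e, (C.filter (fun x => x + i • v ∈ S)).card := by
    simp only [Finset.card_filter]
    exact Finset.sum_comm
  have h2 : ∀ i ∈ range e, (C.filter (fun x => x + i • v ∈ S)).card = S.card := by
    intro i _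
    refine Finset.card_bij (fun x _ => x + i • v) ?_ ?_ ?_
    · intro x hx; exact (Finset.mem_filter.mp hx).2
    · intro x _ y _ hxy; exact add_left_injective _ hxy
    · intro y hy
      refine ⟨y - i • v, Finset.mem_filter.mpr ⟨?_, by rw [sub_add_cancel]; exact hy⟩,
        by rw [sub_add_cancel]⟩
      rw [← hCi i, sub_add_cancel]
      exact hSC hy
  rw [Finset.sum_congr rfl h2, Finset.sum_const, Finset.card_range, smul_eq_mul] at h1
  rw [← h1, Finset.mul_sum]
  have h3 := Finset.sum_le_card_nsmul C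
    (fun x => 2 * ((range e).filter (fun i => x + i • v ∈ S)).card) (e - 1)
    (fun x _ => cyc_pt he hv hS x)
  rw [smul_eq_mul] at h3
  rw [mul_comm (e - 1)]
  exact h3

/-- the number of `x ∈ A ∩ C` with `x + v ∈ A` -/
def Pc (A C : Finset G) (v : G) : ℕ := ((A.filter (fun x => x ∈ C)).filter (fun x => x + v ∈ A)).card

/-- the number of `x ∈ A ∩ C` with `v - x ∈ A` -/
def Qc (A C : Finset G) (v : G) : ℕ := ((A.filter (fun x => x ∈ C)).filter (fun x => v - x ∈ A)).card

/-- `|A ∩ C|` -/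
def Xc (A C : Finset G) : ℕ := (A.filter (fun x => x ∈ C)).card

lemma P_cyc {e : ℕ} (he : e % 2 = 1) {v : G} (hv : e • v = 0) {A C : Finset G}
    (hC : ∀ x, x + v ∈ C ↔ x ∈ C) :
    2 * (e * Xc A C) ≤ 2 * (e * Pc A C v) + (e - 1) * C.card := by
  set S := (A.filter (fun x => x ∈ C)).filter (fun x => ¬ (x + v ∈ A)) with hSdef
  have h0 : Pc A C v + S.card = Xc A C :=
    Finset.card_filter_add_card_filter_not (s := A.filter (fun x => x ∈ C)) (fun x => x + v ∈ A)
  have h1 := cyc_count (S := S) he hv (C := C) (by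
    intro x hx hx2
    exact (Finset.mem_filter.mp hx).2 (Finset.mem_filter.mp (Finset.mem_filter.mp hx2).1).1) hC (by
    intro x hx
    exact (Finset.mem_filter.mp (Finset.mem_filter.mp hx).1).2)
  rw [← h0]
  nlinarith

lemma card_AC_compl (A C : Finset G) : (C.filter (fun x => x ∉ A)).card + Xc A C = C.card := by
  have h := Finset.card_filter_add_card_filter_not (s := C) (fun x => x ∈ A)
  have h2 : (C.filter (fun x => x ∈ A)) = A.filter (fun x => x ∈ C) := by
    ext x; simp only [Finset.mem_filter]; exact and_comm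
  rw [h2] at h
  unfold Xc
  omega

lemma P_two {v : G} {A C : Finset G} (hC : ∀ x, x + v ∈ C ↔ x ∈ C) :
    2 * Xc A C ≤ Pc A C v + C.card := by
  set S := (A.filter (fun x => x ∈ C)).filter (fun x => ¬ (x + v ∈ A)) with hSdef
  have h0 : Pc A C v + S.card = Xc A C :=
    Finset.card_filter_add_card_filter_not (s := A.filter (fun x => x ∈ C)) (fun x => x + v ∈ A)
  have h1 : S.card ≤ (C.filter (fun x => x ∉ A)).card := by
    refine Finset.card_le_card_of_injOn (fun x => x + v) ?_ ?_
    · intro x hx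
      have hx' := Finset.mem_filter.mp hx
      exact Finset.mem_coe.mpr (Finset.mem_filter.mpr
        ⟨(hC x).mpr (Finset.mem_filter.mp hx'.1).2, hx'.2⟩)
    · intro x _ y _ hxy
      exact add_left_injective v hxy
  have h2 := card_AC_compl A C
  omega

lemma Q_two {v : G} {A C : Finset G} (hC : ∀ x ∈ C, v - x ∈ C) :
    2 * Xc A C ≤ Qc A C v + C.card := by
  set S := (A.filter (fun x => x ∈ C)).filter (fun x => ¬ (v - x ∈ A)) with hSdef
  have h0 : Qc A C v + S.card = Xc A C :=
    Finset.card_filter_add_card_filter_not (s := A.filter (fun x => x ∈ C)) (fun x => v - x ∈ A)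
  have h1 : S.card ≤ (C.filter (fun x => x ∉ A)).card := by
    refine Finset.card_le_card_of_injOn (fun x => v - x) ?_ ?_
    · intro x hx
      have hx' := Finset.mem_filter.mp hx
      exact Finset.mem_coe.mpr (Finset.mem_filter.mpr
        ⟨hC x (Finset.mem_filter.mp hx'.1).2, hx'.2⟩)
    · intro x _ y _ hxy
      exact sub_right_injective hxy
  have h2 := card_AC_compl A C
  omega

/-! ### classes of `φ` -/

/-- the absolute value of the level -/
def ht {m : ℕ} (φ : G →+ ZMod m) (x : G) : ℕ := (φ x).valMinAbs.natAbs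

/-- the class with `|φ| = t` -/
def Cl {m : ℕ} (φ : G →+ ZMod m) (t : ℕ) : Finset G := univ.filter (fun x => ht φ x = t)

lemma mem_Cl {m : ℕ} {φ : G →+ ZMod m} {t : ℕ} {x : G} : x ∈ Cl φ t ↔ ht φ x = t := by
  simp [Cl]

lemma Cl_add {m : ℕ} {φ : G →+ ZMod m} {v : G} (hv : φ v = 0) (t : ℕ) (x : G) :
    x + v ∈ Cl φ t ↔ x ∈ Cl φ t := by
  rw [mem_Cl, mem_Cl]
  unfold ht
  rw [map_add, hv, add_zero]

lemma Cl_sub {m : ℕ} {φ : G →+ ZMod m} {v : G} (hv : φ v = 0) (t : ℕ) :
    ∀ x ∈ Cl φ t, v - x ∈ Cl φ t := by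
  intro x hx
  rw [mem_Cl] at hx ⊢
  unfold ht at hx ⊢
  rw [map_sub, hv, zero_sub, ZMod.natAbs_valMinAbs_neg]
  exact hx

lemma ht_lt {m : ℕ} [NeZero m] (φ : G →+ ZMod m) (x : G) : ht φ x < m / 2 + 1 := by
  unfold ht
  have := ZMod.natAbs_valMinAbs_le (φ x)
  omega

lemma Cl_card {m : ℕ} [NeZero m] (φ : G →+ ZMod m) (hφ : Function.Surjective φ) (t : ℕ) :
    (Cl φ t).card = ((univ : Finset (ZMod m)).filter (fun j => j.valMinAbs.natAbs = t)).card *
      Nat.card φ.ker := by
  rw [← card_level φ hφ]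
  congr 1
  ext x
  simp [Cl, ht]

lemma sum_P {m : ℕ} [NeZero m] (φ : G →+ ZMod m) (A : Finset G) (v : G) :
    (A.filter (fun x => x + v ∈ A)).card = ∑ t ∈ range (m / 2 + 1), Pc A (Cl φ t) v := by
  rw [Finset.card_eq_sum_card_fiberwise (f := ht φ) (t := range (m / 2 + 1))
    (fun x _ => Finset.mem_coe.mpr (Finset.mem_range.mpr (ht_lt φ x)))]
  refine Finset.sum_congr rfl fun t _ => ?_
  unfold Pc
  congr 1
  ext x
  simp only [Finset.mem_filter, mem_Cl]
  tauto

lemma sum_Q {m : ℕ} [NeZero m] (φ : G →+ ZMod m) (A : Finset G) (v : G) :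
    (A.filter (fun x => v - x ∈ A)).card = ∑ t ∈ range (m / 2 + 1), Qc A (Cl φ t) v := by
  rw [Finset.card_eq_sum_card_fiberwise (f := ht φ) (t := range (m / 2 + 1))
    (fun x _ => Finset.mem_coe.mpr (Finset.mem_range.mpr (ht_lt φ x)))]
  refine Finset.sum_congr rfl fun t _ => ?_
  unfold Qc
  congr 1
  ext x
  simp only [Finset.mem_filter, mem_Cl]
  tauto

lemma sum_X {m : ℕ} [NeZero m] (φ : G →+ ZMod m) (A : Finset G) :
    A.card = ∑ t ∈ range (m / 2 + 1), Xc A (Cl φ t) := by
  rw [Finset.card_eq_sum_card_fiberwise (f := ht φ) (t := range (m / 2 + 1))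
    (fun x _ => Finset.mem_coe.mpr (Finset.mem_range.mpr (ht_lt φ x)))]
  refine Finset.sum_congr rfl fun t _ => ?_
  unfold Xc
  congr 1
  ext x
  simp only [Finset.mem_filter, mem_Cl]

end

end Pool.Agent.D1X
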