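import Mathlib
import Pool.Agent.Lib_helper22.SCHD.Cyc

/-!
# The value of `f_G` for groups of prime exponent near `2/3`
-/

set_option autoImplicit false
set_option linter.unusedSectionVars false

namespace Pool.Agent.D1X

open Finset Pool.Agent.GL Pool.Agent.Lib_helper42.RS Pool.Agent.Lib_helper13.PL Pool.Agent.SCH

section
variable {G : Type*} [AddCommGroup G] [Fintype G] [DecidableEq G]

lemma alive_le {e : ℕ} (he : 0 < e) (hG : ∀ g : G, e • g = 0) {H : AddSubgroup G} {t : ℕ}
    (h : Alive H t) : t ≤ e := by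
  obtain ⟨g, hg⟩ := h
  by_contra hc
  push Not at hc
  exact hg e he hc (by rw [hG]; exact H.zero_mem)

/-- orders of subgroups -/
lemma sub_card {e : ℕ} (hp : e.Prime) (hG : ∀ g : G, e • g = 0) (φ : G →+ ZMod e)
    (hφ : Function.Surjective φ) (H : AddSubgroup G) (hH : H ≠ ⊤)
    (hne : Nat.card H ≠ Nat.card φ.ker) : 2 * Nat.card H ≤ Nat.card φ.ker := by
  have : Fact e.Prime := ⟨hp⟩
  have : NeZero e := ⟨hp.ne_zero⟩
  let _ : Module (ZMod e) G := AddCommGroup.zmodModule hG
  have h1 : Fintype.card G = e ^ Module.finrank (ZMod e) G := by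
    have := Module.card_eq_pow_finrank (K := ZMod e) (V := G)
    rwa [ZMod.card] at this
  set r := Module.finrank (ZMod e) G with hr
  have h2 : Nat.card H ∣ e ^ r := by
    rw [← h1, ← Nat.card_eq_fintype_card]; exact AddSubgroup.card_addSubgroup_dvd_card H
  have h3 : Nat.card φ.ker ∣ e ^ r := by
    rw [← h1, ← Nat.card_eq_fintype_card]; exact AddSubgroup.card_addSubgroup_dvd_card _
  obtain ⟨i, hi, hi2⟩ := (Nat.dvd_prime_pow hp).mp h2
  obtain ⟨j, hj, hj2⟩ := (Nat.dvd_prime_pow hp).mp h3
  have h4 := card_ker_mul φ hφ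
  rw [h1, hj2] at h4
  have h5 : r = j + 1 := by
    have : e ^ r = e ^ (j + 1) := by rw [h4, pow_succ]; ring
    exact Nat.pow_right_injective hp.two_le this
  have h6 : i ≠ r := by
    intro h
    apply hH
    apply AddSubgroup.eq_top_of_card_eq
    rw [hi2, h, Nat.card_eq_fintype_card, h1]
  have h7 : i ≠ j := by
    intro h
    apply hne
    rw [hi2, hj2, h]
  have h8 : i + 1 ≤ j := by omega
  rw [hi2, hj2]
  calc 2 * e ^ i ≤ e * e ^ i := Nat.mul_le_mul_right _ hp.two_le
    _ = e ^ (i + 1) := by rw [pow_succ]; ring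
    _ ≤ e ^ j := Nat.pow_le_pow_right hp.pos h8

/-- all witnesses of size `b`, `b + s = (2 k + 1) h` -/
theorem W_le {e k : ℕ} (hp : e.Prime) (hk : 1 ≤ k) (he1 : 3 * k + 1 ≤ e) (he2 : e ≤ 3 * k + 2)
    (hG : ∀ g : G, e • g = 0) (φ : G →+ ZMod e) (hφ : Function.Surjective φ)
    (hSF : ∀ S : Finset G, SF S → S.card ≤ (e - 2 * k - 1) * Nat.card φ.ker) {b s : ℕ}
    (hb : b + s = (2 * k + 1) * Nat.card φ.ker) (hs : s < Nat.card φ.ker) {v : ℤ}
    (hv : W G b v) :
    v ≤ ((Nat.card φ.ker : ℤ) - s) * ((Nat.card φ.ker : ℤ) - 5 * s) := by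
  have : NeZero e := ⟨hp.ne_zero⟩
  have hn := card_ker_mul φ hφ
  set h := Nat.card φ.ker with hh
  have hhpos : 0 < h := Nat.card_pos
  have hek : ((e - 2 * k - 1 : ℕ) : ℤ) = (e:ℤ) - 2 * k - 1 := by omega
  have hbz : (b:ℤ) + s = (2 * k + 1) * h := by exact_mod_cast hb
  have hnz : ((Fintype.card G : ℕ) : ℤ) = e * h := by exact_mod_cast hn
  have hsz : (s:ℤ) < h := by exact_mod_cast hs
  have hs0 : (0:ℤ) ≤ s := by positivity
  have hh0 : (0:ℤ) < h := by exact_mod_cast hhpos
  have hk1 : (1:ℤ) ≤ k := by exact_mod_cast hk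
  have he1z : 3 * (k:ℤ) + 1 ≤ e := by exact_mod_cast he1
  have he2z : (e:ℤ) ≤ 3 * k + 2 := by exact_mod_cast he2
  -- lower bound of the right side
  have hlow : -(4 * (h:ℤ) ^ 2) ≤ 5 * (((h:ℤ) - s) * ((h:ℤ) - 5 * s)) := by
    nlinarith [sq_nonneg ((5:ℤ) * s - 3 * (h:ℤ))]
  rcases hv with ⟨K, S, hSK, hS, hc, rfl⟩ | ⟨H, j, t, ht, rfl, hcase⟩
  · -- type I
    by_cases hK : K = ⊤
    · subst hK
      rw [AddSubgroup.card_top, Nat.card_eq_fintype_card] at hc ⊢
      have h1 := hSF S hS
      have h1z : (S.card : ℤ) ≤ ((e:ℤ) - 2 * k - 1) * h := by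
        rw [← hek]; exact_mod_cast h1
      have hcz : (S.card : ℤ) + b = e * h := by rw [← hnz]; exact_mod_cast hc
      have hs00 : (s:ℤ) = 0 := by nlinarith
      have hs' : s = 0 := by exact_mod_cast hs00
      subst hs'
      rw [hnz]
      have hb' : (b:ℤ) = (2 * k + 1) * h := by simpa using hbz
      rw [hb']
      have e1 : 3 * ((2 * (k:ℤ) + 1) * h) - 2 * (e * h) = (6 * k + 3 - 2 * e) * h := by ring
      rw [e1, mul_pow]
      have e2 : (6 * (k:ℤ) + 3 - 2 * e) ^ 2 ≤ 1 := by
        have ha : 6 * (k:ℤ) + 3 - 2 * e ≤ 1 := by linarith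
        have hb2 : -1 ≤ 6 * (k:ℤ) + 3 - 2 * e := by linarith
        nlinarith
      push_cast
      nlinarith [sq_nonneg (h:ℤ)]
    · exfalso
      have h1 : Nat.card K ≤ h := by
        by_cases hne : Nat.card K = Nat.card φ.ker
        · rw [hne]
        · have := sub_card hp hG φ hφ K hK hne
          omega
      have h2 : b ≤ h := by omega
      nlinarith
  · -- type II
    have htz : (t:ℤ) ≤ Nat.card H := by exact_mod_cast ht
    have ht0 : (0:ℤ) ≤ t := by positivity
    have hbn : (b:ℤ) < e * h := by nlinarith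
    by_cases hH : H = ⊤
    · subst hH
      rw [AddSubgroup.card_top, Nat.card_eq_fintype_card] at ht hcase ⊢
      rw [hnz]
      have htn : (t:ℤ) ≤ e * h := by rw [← hnz]; exact_mod_cast ht
      rcases hcase with ⟨h1, h2⟩ | ⟨h1, h2⟩
      · have h1z : (b:ℤ) + t = (2 * j + 1) * (e * h) := by rw [← hnz]; exact_mod_cast h1
        have hj : j = 0 := by
          by_contra hj
          have hj1 : (1:ℤ) ≤ j := by exact_mod_cast Nat.one_le_iff_ne_zero.mpr hj
          nlinarith
        subst hj
        have ht1 : (t:ℤ) = e * h - b := by push_cast at h1z; linarith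
        rw [ht1]
        have e1 : ((e:ℤ) * h - (e * h - b)) * (e * h - 5 * (e * h - b)) = b * (5 * b - 4 * (e * h)) := by
          ring
        rw [e1]
        have hb0 : 2 * (h:ℤ) ≤ b := by nlinarith
        have hb1 : 5 * (b:ℤ) - 4 * (e * h) ≤ -h := by nlinarith
        nlinarith
      · exfalso
        have h1z : (b:ℤ) = (2 * j + 1) * (e * h) + t := by rw [← hnz]; exact_mod_cast h1
        have hj0 : (0:ℤ) ≤ j := by positivity
        have : 0 < (e:ℤ) * h := mul_pos (by linarith) hh0
        nlinarith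
    · by_cases hne : Nat.card H = Nat.card φ.ker
      · rw [hne] at htz hcase ⊢
        rw [← hh] at htz hcase ⊢
        rcases hcase with ⟨h1, h2⟩ | ⟨h1, h2⟩
        · have h1z : (b:ℤ) + t = (2 * j + 1) * h := by exact_mod_cast h1
          have h3 : (2 * ((j:ℤ) - k)) * h = t - s := by linarith
          have hjk : (j:ℤ) = k := by
            by_contra hc
            rcases lt_or_gt_of_ne hc with h4 | h4
            · have : (j:ℤ) - k ≤ -1 := by omega
              nlinarith
            · have : 1 ≤ (j:ℤ) - k := by omega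
              nlinarith
          have : (t:ℤ) = s := by rw [hjk] at h3; linarith
          rw [this]
        · have h1z : (b:ℤ) = (2 * j + 1) * h + t := by exact_mod_cast h1
          have h3 : (2 * ((k:ℤ) - j)) * h = t + s := by linarith
          have hjk : (j:ℤ) = k := by
            by_contra hc
            rcases lt_or_gt_of_ne hc with h4 | h4
            · have : 1 ≤ (k:ℤ) - j := by omega
              nlinarith
            · have : (k:ℤ) - j ≤ -1 := by omega
              nlinarith
          have h5 : (t:ℤ) + s = 0 := by rw [hjk] at h3; linarith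
          have h6 : (t:ℤ) = 0 := by linarith
          have h7 : (s:ℤ) = 0 := by linarith
          rw [h6, h7]
      · exfalso
        have hsmall := sub_card hp hG φ hφ H hH hne
        rw [← hh] at hsmall
        have hsz2 : 2 * (Nat.card H : ℤ) ≤ h := by exact_mod_cast hsmall
        have hH0 : (0:ℤ) ≤ Nat.card H := by positivity
        rcases hcase with ⟨h1, h2⟩ | ⟨h1, h2⟩
        · have h3 := alive_le hp.pos hG h2
          have hj : (j:ℤ) ≤ k := by
            have : j ≤ k := by omega
            exact_mod_cast this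
          have h1z : (b:ℤ) + t = (2 * j + 1) * Nat.card H := by exact_mod_cast h1
          nlinarith
        · have h3 := alive_le hp.pos hG h2
          have hj : (j:ℤ) ≤ k := by
            have : j ≤ k := by omega
            exact_mod_cast this
          have h1z : (b:ℤ) = (2 * j + 1) * Nat.card H + t := by exact_mod_cast h1
          nlinarith

theorem fG_le {e k : ℕ} (hp : e.Prime) (hk : 1 ≤ k) (he1 : 3 * k + 1 ≤ e) (he2 : e ≤ 3 * k + 2)
    (hG : ∀ g : G, e • g = 0) (φ : G →+ ZMod e) (hφ : Function.Surjective φ)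
    (hSF : ∀ S : Finset G, SF S → S.card ≤ (e - 2 * k - 1) * Nat.card φ.ker) {b s : ℕ}
    (hb : b + s = (2 * k + 1) * Nat.card φ.ker) (hs : s < Nat.card φ.ker) :
    fG G b ≤ ((Nat.card φ.ker : ℤ) - s) * ((Nat.card φ.ker : ℤ) - 5 * s) := by
  have : NeZero e := ⟨hp.ne_zero⟩
  have hn := card_ker_mul φ hφ
  have hbn : b ≤ Fintype.card G := by
    rw [hn]
    calc b ≤ (2 * k + 1) * Nat.card φ.ker := by omega
      _ ≤ e * Nat.card φ.ker := Nat.mul_le_mul_right _ (by omega)
  exact W_le hp hk he1 he2 hG φ hφ hSF hb hs (W_fG hbn)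

end

end Pool.Agent.D1X
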