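import Mathlib
import Pool.Agent.Lib_helper22.SCHD.UpG
import Pool.Agent.Lib_helper22.SCHD.Core

/-!
# The budget: `2 r_{A-A}(v) + r_{A+A}(v)` for an element `v` of the kernel outside `B`
-/

set_option autoImplicit false
set_option linter.unusedSectionVars false

namespace Pool.Agent.D1X

open Finset Pool.Agent.GL Pool.Agent.Lib_helper42.RS Pool.Agent.Lib_helper13.PL Pool.Agent.SCH

section
variable {G : Type*} [AddCommGroup G] [Fintype G] [DecidableEq G]

lemma rm_eq (B : Finset G) (v : G) :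
    ((Bᶜ.filter (fun x => x + v ∈ Bᶜ)).card : ℤ) + dlt B v = (Bᶜ).card := by
  have h1 : (univ.filter (fun y => y + v ∈ Bᶜ)).card = (Bᶜ).card := by
    refine Finset.card_bij (fun x _ => x + v) ?_ ?_ ?_
    · intro x hx; exact (Finset.mem_filter.mp hx).2
    · intro x _ y _ hxy; exact add_left_injective v hxy
    · intro y hy
      exact ⟨y - v, by simpa using hy, by simp⟩
  have h2 := Finset.card_filter_add_card_filter_not
    (s := univ.filter (fun y => y + v ∈ Bᶜ)) (fun y => y ∈ B)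
  have h3 : (univ.filter (fun y => y + v ∈ Bᶜ)).filter (fun y => y ∈ B) =
      B.filter (fun y => y + v ∉ B) := by
    ext x; simp only [Finset.mem_filter, Finset.mem_univ, true_and, Finset.mem_compl]; tauto
  have h4 : (univ.filter (fun y => y + v ∈ Bᶜ)).filter (fun y => ¬ y ∈ B) =
      Bᶜ.filter (fun y => y + v ∈ Bᶜ) := by
    ext x; simp only [Finset.mem_filter, Finset.mem_univ, true_and, Finset.mem_compl]; tauto
  rw [h3, h4, h1] at h2
  unfold dlt
  omega

lemma rp_eq (B : Finset G) (v : G) :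
    ((Bᶜ.filter (fun x => v - x ∈ Bᶜ)).card : ℤ) + dlt' B v = (Bᶜ).card := by
  have h1 : (univ.filter (fun y => v - y ∈ Bᶜ)).card = (Bᶜ).card := by
    refine Finset.card_bij (fun x _ => v - x) ?_ ?_ ?_
    · intro x hx; exact (Finset.mem_filter.mp hx).2
    · intro x _ y _ hxy; exact sub_right_injective hxy
    · intro y hy
      exact ⟨v - y, by simpa using hy, by simp⟩
  have h2 := Finset.card_filter_add_card_filter_not
    (s := univ.filter (fun y => v - y ∈ Bᶜ)) (fun y => y ∈ B)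
  have h3 : (univ.filter (fun y => v - y ∈ Bᶜ)).filter (fun y => y ∈ B) =
      B.filter (fun y => v - y ∉ B) := by
    ext x; simp only [Finset.mem_filter, Finset.mem_univ, true_and, Finset.mem_compl]; tauto
  have h4 : (univ.filter (fun y => v - y ∈ Bᶜ)).filter (fun y => ¬ y ∈ B) =
      Bᶜ.filter (fun y => v - y ∈ Bᶜ) := by
    ext x; simp only [Finset.mem_filter, Finset.mem_univ, true_and, Finset.mem_compl]; tauto
  rw [h3, h4, h1] at h2
  unfold dlt'
  omega

/-- the budget -/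
theorem budget {e k : ℕ} (hp : e.Prime) (hk : 1 ≤ k) (he1 : 3 * k + 1 ≤ e) (he2 : e ≤ 3 * k + 2)
    (hG : ∀ g : G, e • g = 0) (φ : G →+ ZMod e) (hφ : Function.Surjective φ)
    (hSF : ∀ S : Finset G, SF S → S.card ≤ (e - 2 * k - 1) * Nat.card φ.ker)
    {B : Finset G} (hmax : IsMaxi B) {s : ℕ} (hb : B.card + s = (2 * k + 1) * Nat.card φ.ker)
    (hs1 : 1 ≤ s) (hs : s ≤ Nat.card φ.ker) :
    (0 : G) ∈ B ∧ ∀ v : G, v ∉ B →
      2 * ((Bᶜ.filter (fun x => x + v ∈ Bᶜ)).card : ℤ) +
        ((Bᶜ.filter (fun x => v - x ∈ Bᶜ)).card : ℤ) ≤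
      3 * ((e:ℤ) - 3 * k - 1) * Nat.card φ.ker + 2 * s := by
  have : NeZero e := ⟨hp.ne_zero⟩
  have hn := card_ker_mul φ hφ
  set h := Nat.card φ.ker with hh
  have hhpos : 0 < h := Nat.card_pos
  have hbz : (B.card:ℤ) + s = (2 * k + 1) * h := by exact_mod_cast hb
  have hnz : ((Fintype.card G : ℕ) : ℤ) = e * h := by exact_mod_cast hn
  have hsz : (s:ℤ) ≤ h := by exact_mod_cast hs
  have hs1z : (1:ℤ) ≤ s := by exact_mod_cast hs1
  have hk1 : (1:ℤ) ≤ k := by exact_mod_cast hk
  have hA : ((Bᶜ).card : ℤ) = e * h - B.card := by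
    rw [← hnz]; exact card_compl_int B
  -- slope
  have hup : fG G (B.card + 1) ≤ ((h:ℤ) - s + 1) * (h - 5 * s + 5) := by
    have h1 := fG_le hp hk he1 he2 hG φ hφ hSF (b := B.card + 1) (s := s - 1)
      (by rw [← hh, ← hb]; omega) (by omega)
    rw [← hh] at h1
    have e1 : ((s - 1 : ℕ) : ℤ) = s - 1 := by omega
    rw [e1] at h1
    have e2 : ((h:ℤ) - (s - 1)) * (h - 5 * (s - 1)) = ((h:ℤ) - s + 1) * (h - 5 * s + 5) := by ring
    linarith
  have hlo : ((h:ℤ) - s) * (h - 5 * s) ≤ fG G B.card := by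
    exact wit_below φ hφ (b := B.card) (j := k) (s := s) hb hs (by omega)
  have hslope : fG G (B.card + 1) - fG G B.card ≤ 6 * h - 10 * s + 5 := by nlinarith
  have h0 : (0 : G) ∈ B := by
    by_contra h0
    have h1 := kkt_zero (fG G) B hmax h0
    rw [DB_eq] at h1
    have e1 : dlt B 0 = 0 := by
      unfold dlt
      rw [Finset.filter_false_of_mem]
      · simp
      · intro z hz; simp [hz]
    have e2 : dlt' B 0 ≤ B.card := by
      unfold dlt'
      exact_mod_cast Finset.card_filter_le _ _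
    rw [e1] at h1
    nlinarith
  refine ⟨h0, fun v hv => ?_⟩
  have hv0 : v ≠ 0 := fun h => hv (h ▸ h0)
  have h1 := kkt_notMem (fG G) B hmax v hv hv0
  rw [DB_eq] at h1
  have e1 : iv B 0 = 1 := by unfold iv; rw [if_pos h0]
  have e2 := iv_nonneg B (v + v)
  rw [e1] at h1
  have h2 := rm_eq B v
  have h3 := rp_eq B v
  rw [hA] at h2 h3
  nlinarith

/-! ### the real part -/

lemma cos_zero_sum {m : ℕ} (hm : 2 ≤ m) {χ : AddChar G ℂ} {φ : G →+ ZMod m}
    (h : Std χ φ) (hφ : Function.Surjective φ) :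
    ∑ x : G, Real.cos (2 * Real.pi * (φ x).valMinAbs / m) = 0 := by
  have : NeZero m := ⟨by omega⟩
  have hχ : χ ≠ 0 := by
    intro h0
    have : Fact (1 < m) := ⟨by omega⟩
    obtain ⟨x, hx⟩ := hφ 1
    have h1 : χ x = 1 := by rw [h0]; rfl
    have h2 : Real.cos (2 * Real.pi * (φ x).valMinAbs / m) = 1 := by
      have h3 := h x
      rw [h1] at h3
      have h4 := congrArg Complex.re h3
      rw [Complex.exp_ofReal_mul_I_re] at h4
      simpa using h4.symm
    have h5 : (φ x).valMinAbs ≠ 0 := by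
      rw [hx]
      intro hc
      rw [ZMod.valMinAbs_eq_zero] at hc
      exact one_ne_zero hc
    have h6 := ZMod.natAbs_valMinAbs_le (φ x)
    have hm0 : (0:ℝ) < m := by positivity
    have h7 : Real.cos (2 * Real.pi * (φ x).valMinAbs / m) =
        Real.cos (2 * Real.pi * ((φ x).valMinAbs.natAbs : ℝ) / m) := by
      rw [← Real.cos_abs (2 * Real.pi * (φ x).valMinAbs / m)]
      congr 1
      rw [abs_div, abs_mul, abs_of_pos (by positivity : (0:ℝ) < 2 * Real.pi), abs_of_pos hm0,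
        Nat.cast_natAbs]
      push_cast
      rfl
    rw [h7] at h2
    have h8 : (0:ℝ) < ((φ x).valMinAbs.natAbs : ℝ) := by
      have : 0 < (φ x).valMinAbs.natAbs := Int.natAbs_pos.mpr h5
      exact_mod_cast this
    have h9 : 2 * ((φ x).valMinAbs.natAbs : ℝ) ≤ m := by
      have : 2 * (φ x).valMinAbs.natAbs ≤ m := by omega
      exact_mod_cast this
    have h10 : Real.cos (2 * Real.pi * ((φ x).valMinAbs.natAbs : ℝ) / m) < Real.cos 0 := by
      apply Real.cos_lt_cos_of_nonneg_of_le_pi le_rfl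
      · rw [div_le_iff₀ hm0]
        nlinarith [Real.pi_pos]
      · positivity
    rw [Real.cos_zero] at h10
    linarith
  have h1 : ∑ x : G, χ x = 0 := AddChar.sum_eq_zero_iff_ne_zero.mpr hχ
  have h2 := congrArg Complex.re h1
  rw [Complex.re_sum, Complex.zero_re] at h2
  rw [← h2]
  refine Finset.sum_congr rfl fun x _ => ?_
  rw [h x, Complex.exp_ofReal_mul_I_re]

lemma re_class {m : ℕ} (hm : 2 ≤ m) {χ : AddChar G ℂ} {φ : G →+ ZMod m}
    (h : Std χ φ) (hφ : Function.Surjective φ) (B : Finset G) :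
    (hat B χ).re = -∑ t ∈ range (m / 2 + 1), (Xc Bᶜ (Cl φ t) : ℝ) * Real.cos (2 * Real.pi * t / m) := by
  have : NeZero m := ⟨by omega⟩
  have hm0 : (0:ℝ) < m := by positivity
  have h0 := cos_zero_sum hm h hφ
  rw [hat_re_eq B h]
  have h1 := Finset.sum_add_sum_compl B (fun x => Real.cos (2 * Real.pi * (φ x).valMinAbs / m))
  rw [h0] at h1
  have h2 : ∑ x ∈ Bᶜ, Real.cos (2 * Real.pi * (φ x).valMinAbs / m) =
      ∑ t ∈ range (m / 2 + 1), (Xc Bᶜ (Cl φ t) : ℝ) * Real.cos (2 * Real.pi * t / m) := by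
    rw [← Finset.sum_fiberwise_of_maps_to (s := Bᶜ) (t := range (m / 2 + 1)) (g := ht φ)
      (fun x _ => Finset.mem_range.mpr (ht_lt φ x))]
    refine Finset.sum_congr rfl fun t _ => ?_
    have h3 : ∀ x ∈ Bᶜ.filter (fun x => ht φ x = t),
        Real.cos (2 * Real.pi * (φ x).valMinAbs / m) = Real.cos (2 * Real.pi * t / m) := by
      intro x hx
      have hx2 := (Finset.mem_filter.mp hx).2
      rw [← hx2, ← Real.cos_abs (2 * Real.pi * (φ x).valMinAbs / m)]
      congr 1
      unfold ht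
      rw [abs_div, abs_mul, abs_of_pos (by positivity : (0:ℝ) < 2 * Real.pi), abs_of_pos hm0,
        Nat.cast_natAbs]
      push_cast
      rfl
    rw [Finset.sum_congr rfl h3, Finset.sum_const, nsmul_eq_mul]
    congr 2
    unfold Xc
    congr 1
    ext x
    simp only [Finset.mem_filter, mem_Cl]
  linarith

end

end Pool.Agent.D1X
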