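import Mathlib
import Pool.Agent.Lib_helper22.SCHD.Bud

/-!
# `ker φ ⊆ B` for exponent 5, 7, 13, 19
-/

set_option autoImplicit false
set_option linter.unusedSectionVars false

namespace Pool.Agent.D1X

open Finset Pool.Agent.GL Pool.Agent.Lib_helper42.RS Pool.Agent.Lib_helper13.PL Pool.Agent.SCH

section
variable {G : Type*} [AddCommGroup G] [Fintype G] [DecidableEq G]

/-- the local inequalities for a class of two levels -/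
lemma loc {e : ℕ} [NeZero e] (he : e % 2 = 1) (φ : G →+ ZMod e) (hφ : Function.Surjective φ)
    {v : G} (hv : φ v = 0) (hev : e • v = 0) (A : Finset G) (t : ℕ)
    (h2 : ((univ : Finset (ZMod e)).filter (fun j => j.valMinAbs.natAbs = t)).card = 2) :
    (Xc A (Cl φ t) : ℝ) - ((e:ℝ) - 1) / e * Nat.card φ.ker ≤
      (Pc A (Cl φ t) v : ℝ) + (Qc A (Cl φ t) v : ℝ) / 2 ∧
    3 * ((Xc A (Cl φ t) : ℝ) - Nat.card φ.ker) ≤
      (Pc A (Cl φ t) v : ℝ) + (Qc A (Cl φ t) v : ℝ) / 2 ∧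
    2 * (Xc A (Cl φ t) : ℝ) - (2 * (e:ℝ) - 1) / e * Nat.card φ.ker ≤
      (Pc A (Cl φ t) v : ℝ) + (Qc A (Cl φ t) v : ℝ) / 2 := by
  have hc := Cl_card φ hφ t
  rw [h2] at hc
  have h1 := P_cyc he hev (A := A) (Cl_add hv t)
  have h3 := P_two (A := A) (Cl_add hv t)
  have h4 := Q_two (A := A) (Cl_sub hv t)
  rw [hc] at h1 h3 h4
  have he0 : 0 < e := Nat.pos_of_ne_zero (NeZero.ne e)
  have heR : (0:ℝ) < e := by exact_mod_cast he0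
  set X := Xc A (Cl φ t)
  set P := Pc A (Cl φ t) v
  set Q := Qc A (Cl φ t) v
  set h := Nat.card φ.ker
  have h1R : 2 * ((e:ℝ) * X) ≤ 2 * (e * P) + ((e:ℝ) - 1) * (2 * h) := by
    have e1 : ((e - 1 : ℕ) : ℝ) = (e:ℝ) - 1 := by rw [Nat.cast_sub (by omega)]; simp
    rw [← e1]
    exact_mod_cast h1
  have h3R : 2 * (X:ℝ) ≤ P + 2 * h := by exact_mod_cast h3
  have h4R : 2 * (X:ℝ) ≤ Q + 2 * h := by exact_mod_cast h4
  have hQ : (0:ℝ) ≤ Q := by positivity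
  have h5 : (X:ℝ) - ((e:ℝ) - 1) / e * h ≤ P := by
    rw [sub_le_iff_le_add, div_mul_eq_mul_div, ← sub_le_iff_le_add', le_div_iff₀ heR]
    nlinarith
  have h6 : (2 * (e:ℝ) - 1) / e * h = ((e:ℝ) - 1) / e * h + h := by
    field_simp; ring
  refine ⟨by linarith, by linarith, ?_⟩
  rw [h6]
  linarith

lemma card2_5 : ∀ t ∈ ({1, 2} : Finset ℕ),
    ((univ : Finset (ZMod 5)).filter (fun j => j.valMinAbs.natAbs = t)).card = 2 := by decide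

lemma card2_7 : ∀ t ∈ ({1, 2, 3} : Finset ℕ),
    ((univ : Finset (ZMod 7)).filter (fun j => j.valMinAbs.natAbs = t)).card = 2 := by decide

lemma card2_13 : ∀ t ∈ ({1, 2, 3, 4, 5, 6} : Finset ℕ),
    ((univ : Finset (ZMod 13)).filter (fun j => j.valMinAbs.natAbs = t)).card = 2 := by
  decide +kernel

lemma card2_19 : ∀ t ∈ ({1, 2, 3, 4, 5, 6, 7, 8, 9} : Finset ℕ),
    ((univ : Finset (ZMod 19)).filter (fun j => j.valMinAbs.natAbs = t)).card = 2 := by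
  decide +kernel

/-- exponent 5 -/
theorem fin5 {χ : AddChar G ℂ} {φ : G →+ ZMod 5} (hstd : Std χ φ) (hφ : Function.Surjective φ)
    (hG : ∀ g : G, 5 • g = 0) {B : Finset G} {v : G} (hv : φ v = 0) {s : ℕ}
    (hb : B.card + s = 3 * Nat.card φ.ker) (hs : s ≤ Nat.card φ.ker)
    (hbud : 2 * ((Bᶜ.filter (fun x => x + v ∈ Bᶜ)).card : ℤ) +
        ((Bᶜ.filter (fun x => v - x ∈ Bᶜ)).card : ℤ) ≤ 3 * Nat.card φ.ker + 2 * s)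
    (hfou : (Fintype.card G : ℝ) * (((GL.FF B : ℤ) : ℝ) + 3 * (B.card : ℝ) ^ 2) ≤
      4 * (B.card : ℝ) ^ 3 +
        4 * (hat B χ).re * ((Fintype.card G : ℝ) * B.card - (B.card : ℝ) ^ 2))
    (hF : ((Nat.card φ.ker : ℤ) - s) * ((Nat.card φ.ker : ℤ) - 5 * s) < GL.FF B) : False := by
  have hn := card_ker_mul φ hφ
  have hX := sum_X φ Bᶜ
  have hR := re_class (by norm_num) hstd hφ B
  rw [sum_P φ, sum_Q φ] at hbud
  have hcompl : ((Bᶜ).card : ℤ) = Fintype.card G - B.card := card_compl_int B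
  have l1 := loc (by norm_num) φ hφ hv (hG v) Bᶜ 1 (card2_5 1 (by decide))
  have l2 := loc (by norm_num) φ hφ hv (hG v) Bᶜ 2 (card2_5 2 (by decide))
  simp only [Nat.reduceDiv, Nat.reduceAdd, Finset.sum_range_succ, Finset.sum_range_zero,
    zero_add] at hX hR hbud
  set h := Nat.card φ.ker
  have hh : (0:ℝ) < h := by
    have : 0 < Nat.card φ.ker := Nat.card_pos
    exact_mod_cast this
  have hnR : (Fintype.card G : ℝ) = 5 * h := by rw [hn]; push_cast; ring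
  have hbR : (B.card : ℝ) = 3 * h - s := by
    have : (B.card : ℝ) + s = 3 * h := by exact_mod_cast hb
    linarith
  have hXR : (Xc Bᶜ (Cl φ 0) : ℝ) + Xc Bᶜ (Cl φ 1) + Xc Bᶜ (Cl φ 2) = 2 * h + s := by
    have h1 : ((Bᶜ).card : ℝ) = Fintype.card G - B.card := by exact_mod_cast hcompl
    rw [hX, hnR, hbR] at h1
    push_cast at h1
    linarith
  have hbR2 : 2 * ((Pc Bᶜ (Cl φ 0) v : ℝ) + Pc Bᶜ (Cl φ 1) v + Pc Bᶜ (Cl φ 2) v) +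
      ((Qc Bᶜ (Cl φ 0) v : ℝ) + Qc Bᶜ (Cl φ 1) v + Qc Bᶜ (Cl φ 2) v) ≤ 3 * h + 2 * s := by
    exact_mod_cast hbud
  have p0 : (0:ℝ) ≤ Pc Bᶜ (Cl φ 0) v := by positivity
  have q0 : (0:ℝ) ≤ Qc Bᶜ (Cl φ 0) v := by positivity
  refine core5 (h := h) (s := s) (X0 := Xc Bᶜ (Cl φ 0)) (X1 := Xc Bᶜ (Cl φ 1))
    (X2 := Xc Bᶜ (Cl φ 2)) (T1 := (Pc Bᶜ (Cl φ 1) v : ℝ) + (Qc Bᶜ (Cl φ 1) v : ℝ) / 2)
    (T2 := (Pc Bᶜ (Cl φ 2) v : ℝ) + (Qc Bᶜ (Cl φ 2) v : ℝ) / 2) (F := ((GL.FF B : ℤ) : ℝ))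
    (R := (hat B χ).re) hh (by positivity) (by exact_mod_cast hs) (by positivity) (by positivity)
    (by positivity) hXR (by linarith) ?_ l2.2.1 ?_ ?_ ?_
  · have := l1.1
    norm_num at this ⊢
    linarith
  · rw [hR]
    norm_num
  · rw [hnR, hbR] at hfou
    exact hfou
  · have : (((h:ℤ) - s) * ((h:ℤ) - 5 * s) : ℤ) < GL.FF B := hF
    exact_mod_cast this

/-- exponent 7 -/
theorem fin7 {χ : AddChar G ℂ} {φ : G →+ ZMod 7} (hstd : Std χ φ) (hφ : Function.Surjective φ)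
    (hG : ∀ g : G, 7 • g = 0) {B : Finset G} {v : G} (hv : φ v = 0) {s : ℕ}
    (hb : B.card + s = 5 * Nat.card φ.ker) (hs : s ≤ Nat.card φ.ker)
    (hbud : 2 * ((Bᶜ.filter (fun x => x + v ∈ Bᶜ)).card : ℤ) +
        ((Bᶜ.filter (fun x => v - x ∈ Bᶜ)).card : ℤ) ≤ 2 * s)
    (hfou : (Fintype.card G : ℝ) * (((GL.FF B : ℤ) : ℝ) + 3 * (B.card : ℝ) ^ 2) ≤
      4 * (B.card : ℝ) ^ 3 +
        4 * (hat B χ).re * ((Fintype.card G : ℝ) * B.card - (B.card : ℝ) ^ 2))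
    (hF : ((Nat.card φ.ker : ℤ) - s) * ((Nat.card φ.ker : ℤ) - 5 * s) < GL.FF B) : False := by
  have hn := card_ker_mul φ hφ
  have hX := sum_X φ Bᶜ
  have hR := re_class (by norm_num) hstd hφ B
  rw [sum_P φ, sum_Q φ] at hbud
  have hcompl : ((Bᶜ).card : ℤ) = Fintype.card G - B.card := card_compl_int B
  have l1 := loc (by norm_num) φ hφ hv (hG v) Bᶜ 1 (card2_7 1 (by decide))
  have l2 := loc (by norm_num) φ hφ hv (hG v) Bᶜ 2 (card2_7 2 (by decide))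
  have l3 := loc (by norm_num) φ hφ hv (hG v) Bᶜ 3 (card2_7 3 (by decide))
  simp only [Nat.reduceDiv, Nat.reduceAdd, Finset.sum_range_succ, Finset.sum_range_zero,
    zero_add] at hX hR hbud
  set h := Nat.card φ.ker
  have hh : (0:ℝ) < h := by
    have : 0 < Nat.card φ.ker := Nat.card_pos
    exact_mod_cast this
  have hnR : (Fintype.card G : ℝ) = 7 * h := by rw [hn]; push_cast; ring
  have hbR : (B.card : ℝ) = 5 * h - s := by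
    have : (B.card : ℝ) + s = 5 * h := by exact_mod_cast hb
    linarith
  have hXR : (Xc Bᶜ (Cl φ 0) : ℝ) + Xc Bᶜ (Cl φ 1) + Xc Bᶜ (Cl φ 2) + Xc Bᶜ (Cl φ 3) =
      2 * h + s := by
    have h1 : ((Bᶜ).card : ℝ) = Fintype.card G - B.card := by exact_mod_cast hcompl
    rw [hX, hnR, hbR] at h1
    push_cast at h1
    linarith
  have hbR2 : 2 * ((Pc Bᶜ (Cl φ 0) v : ℝ) + Pc Bᶜ (Cl φ 1) v + Pc Bᶜ (Cl φ 2) v +
      Pc Bᶜ (Cl φ 3) v) +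
      ((Qc Bᶜ (Cl φ 0) v : ℝ) + Qc Bᶜ (Cl φ 1) v + Qc Bᶜ (Cl φ 2) v + Qc Bᶜ (Cl φ 3) v) ≤
      2 * s := by
    exact_mod_cast hbud
  have p0 : (0:ℝ) ≤ Pc Bᶜ (Cl φ 0) v := by positivity
  have q0 : (0:ℝ) ≤ Qc Bᶜ (Cl φ 0) v := by positivity
  refine core7 (h := h) (s := s) (X0 := Xc Bᶜ (Cl φ 0)) (X1 := Xc Bᶜ (Cl φ 1))
    (X2 := Xc Bᶜ (Cl φ 2)) (X3 := Xc Bᶜ (Cl φ 3))
    (T1 := (Pc Bᶜ (Cl φ 1) v : ℝ) + (Qc Bᶜ (Cl φ 1) v : ℝ) / 2)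
    (T2 := (Pc Bᶜ (Cl φ 2) v : ℝ) + (Qc Bᶜ (Cl φ 2) v : ℝ) / 2)
    (T3 := (Pc Bᶜ (Cl φ 3) v : ℝ) + (Qc Bᶜ (Cl φ 3) v : ℝ) / 2) (F := ((GL.FF B : ℤ) : ℝ))
    (R := (hat B χ).re) hh (by positivity) (by exact_mod_cast hs) (by positivity) (by positivity)
    (by positivity) (by positivity) (by positivity) (by positivity) (by positivity)
    hXR (by linarith) ?_ ?_ ?_ ?_ ?_ ?_
  · have := l2.1
    norm_num at this ⊢
    linarith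
  · have := l3.1
    norm_num at this ⊢
    linarith
  · have := l3.2.2
    norm_num at this ⊢
    linarith
  · rw [hR]
    norm_num
  · rw [hnR, hbR] at hfou
    exact hfou
  · have : (((h:ℤ) - s) * ((h:ℤ) - 5 * s) : ℤ) < GL.FF B := hF
    exact_mod_cast this

/-- exponent 13 -/
theorem fin13 {χ : AddChar G ℂ} {φ : G →+ ZMod 13} (hstd : Std χ φ) (hφ : Function.Surjective φ)
    (hG : ∀ g : G, 13 • g = 0) {B : Finset G} {v : G} (hv : φ v = 0) {s : ℕ}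
    (hb : B.card + s = 9 * Nat.card φ.ker) (hs : s ≤ Nat.card φ.ker)
    (hbud : 2 * ((Bᶜ.filter (fun x => x + v ∈ Bᶜ)).card : ℤ) +
        ((Bᶜ.filter (fun x => v - x ∈ Bᶜ)).card : ℤ) ≤ 2 * s)
    (hfou : (Fintype.card G : ℝ) * (((GL.FF B : ℤ) : ℝ) + 3 * (B.card : ℝ) ^ 2) ≤
      4 * (B.card : ℝ) ^ 3 +
        4 * (hat B χ).re * ((Fintype.card G : ℝ) * B.card - (B.card : ℝ) ^ 2))
    (hF : ((Nat.card φ.ker : ℤ) - s) * ((Nat.card φ.ker : ℤ) - 5 * s) < GL.FF B) : False := by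
  have hn := card_ker_mul φ hφ
  have hX := sum_X φ Bᶜ
  have hR := re_class (by norm_num) hstd hφ B
  rw [sum_P φ, sum_Q φ] at hbud
  have hcompl : ((Bᶜ).card : ℤ) = Fintype.card G - B.card := card_compl_int B
  have l1 := loc (by norm_num) φ hφ hv (hG v) Bᶜ 1 (card2_13 1 (by decide))
  have l2 := loc (by norm_num) φ hφ hv (hG v) Bᶜ 2 (card2_13 2 (by decide))
  have l3 := loc (by norm_num) φ hφ hv (hG v) Bᶜ 3 (card2_13 3 (by decide))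
  have l4 := loc (by norm_num) φ hφ hv (hG v) Bᶜ 4 (card2_13 4 (by decide))
  have l5 := loc (by norm_num) φ hφ hv (hG v) Bᶜ 5 (card2_13 5 (by decide))
  have l6 := loc (by norm_num) φ hφ hv (hG v) Bᶜ 6 (card2_13 6 (by decide))
  simp only [Nat.reduceDiv, Nat.reduceAdd, Finset.sum_range_succ, Finset.sum_range_zero,
    zero_add] at hX hR hbud
  set h := Nat.card φ.ker
  have hh : (0:ℝ) < h := by
    have : 0 < Nat.card φ.ker := Nat.card_pos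
    exact_mod_cast this
  have hnR : (Fintype.card G : ℝ) = 13 * h := by rw [hn]; push_cast; ring
  have hbR : (B.card : ℝ) = 9 * h - s := by
    have : (B.card : ℝ) + s = 9 * h := by exact_mod_cast hb
    linarith
  have hXR : (Xc Bᶜ (Cl φ 0) : ℝ) + (Xc Bᶜ (Cl φ 1) : ℝ) + (Xc Bᶜ (Cl φ 2) : ℝ) + (Xc Bᶜ (Cl φ 3) : ℝ) + (Xc Bᶜ (Cl φ 4) : ℝ) + (Xc Bᶜ (Cl φ 5) : ℝ) + (Xc Bᶜ (Cl φ 6) : ℝ) =
      4 * h + s := by
    have h1 : ((Bᶜ).card : ℝ) = Fintype.card G - B.card := by exact_mod_cast hcompl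
    rw [hX, hnR, hbR] at h1
    push_cast at h1
    linarith
  have hbR2 : 2 * ((Pc Bᶜ (Cl φ 0) v : ℝ) + (Pc Bᶜ (Cl φ 1) v : ℝ) + (Pc Bᶜ (Cl φ 2) v : ℝ) + (Pc Bᶜ (Cl φ 3) v : ℝ) + (Pc Bᶜ (Cl φ 4) v : ℝ) + (Pc Bᶜ (Cl φ 5) v : ℝ) + (Pc Bᶜ (Cl φ 6) v : ℝ)) +
      ((Qc Bᶜ (Cl φ 0) v : ℝ) + (Qc Bᶜ (Cl φ 1) v : ℝ) + (Qc Bᶜ (Cl φ 2) v : ℝ) + (Qc Bᶜ (Cl φ 3) v : ℝ) + (Qc Bᶜ (Cl φ 4) v : ℝ) + (Qc Bᶜ (Cl φ 5) v : ℝ) + (Qc Bᶜ (Cl φ 6) v : ℝ)) ≤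
      2 * s := by
    exact_mod_cast hbud
  have p0 : (0:ℝ) ≤ Pc Bᶜ (Cl φ 0) v := by positivity
  have q0 : (0:ℝ) ≤ Qc Bᶜ (Cl φ 0) v := by positivity
  refine core13 (h := h) (s := s)
    (X0 := Xc Bᶜ (Cl φ 0))
    (X1 := Xc Bᶜ (Cl φ 1))
    (X2 := Xc Bᶜ (Cl φ 2))
    (X3 := Xc Bᶜ (Cl φ 3))
    (X4 := Xc Bᶜ (Cl φ 4))
    (X5 := Xc Bᶜ (Cl φ 5))
    (X6 := Xc Bᶜ (Cl φ 6))
    (T1 := (Pc Bᶜ (Cl φ 1) v : ℝ) + (Qc Bᶜ (Cl φ 1) v : ℝ) / 2)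
    (T2 := (Pc Bᶜ (Cl φ 2) v : ℝ) + (Qc Bᶜ (Cl φ 2) v : ℝ) / 2)
    (T3 := (Pc Bᶜ (Cl φ 3) v : ℝ) + (Qc Bᶜ (Cl φ 3) v : ℝ) / 2)
    (T4 := (Pc Bᶜ (Cl φ 4) v : ℝ) + (Qc Bᶜ (Cl φ 4) v : ℝ) / 2)
    (T5 := (Pc Bᶜ (Cl φ 5) v : ℝ) + (Qc Bᶜ (Cl φ 5) v : ℝ) / 2)
    (T6 := (Pc Bᶜ (Cl φ 6) v : ℝ) + (Qc Bᶜ (Cl φ 6) v : ℝ) / 2)
    (F := ((GL.FF B : ℤ) : ℝ)) (R := (hat B χ).re) hh (by positivity) (by exact_mod_cast hs)
    (by positivity) (by positivity) (by positivity) (by positivity) (by positivity) (by positivity) (by positivity) (by positivity) (by positivity) (by positivity) (by positivity) (by positivity) (by positivity)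
    hXR (by linarith) ?_ ?_ ?_ ?_ ?_ ?_ ?_
  · have := l3.1
    norm_num at this ⊢
    linarith
  · have := l4.1
    norm_num at this ⊢
    linarith
  · have := l5.1
    norm_num at this ⊢
    linarith
  · have := l6.1
    norm_num at this ⊢
    linarith
  · rw [hR]
    norm_num
  · rw [hnR, hbR] at hfou
    exact hfou
  · have : (((h:ℤ) - s) * ((h:ℤ) - 5 * s) : ℤ) < GL.FF B := hF
    exact_mod_cast this

/-- exponent 19 -/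
theorem fin19 {χ : AddChar G ℂ} {φ : G →+ ZMod 19} (hstd : Std χ φ) (hφ : Function.Surjective φ)
    (hG : ∀ g : G, 19 • g = 0) {B : Finset G} {v : G} (hv : φ v = 0) {s : ℕ}
    (hb : B.card + s = 13 * Nat.card φ.ker) (hs : s ≤ Nat.card φ.ker)
    (hbud : 2 * ((Bᶜ.filter (fun x => x + v ∈ Bᶜ)).card : ℤ) +
        ((Bᶜ.filter (fun x => v - x ∈ Bᶜ)).card : ℤ) ≤ 2 * s)
    (hfou : (Fintype.card G : ℝ) * (((GL.FF B : ℤ) : ℝ) + 3 * (B.card : ℝ) ^ 2) ≤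
      4 * (B.card : ℝ) ^ 3 +
        4 * (hat B χ).re * ((Fintype.card G : ℝ) * B.card - (B.card : ℝ) ^ 2))
    (hF : ((Nat.card φ.ker : ℤ) - s) * ((Nat.card φ.ker : ℤ) - 5 * s) < GL.FF B) : False := by
  have hn := card_ker_mul φ hφ
  have hX := sum_X φ Bᶜ
  have hR := re_class (by norm_num) hstd hφ B
  rw [sum_P φ, sum_Q φ] at hbud
  have hcompl : ((Bᶜ).card : ℤ) = Fintype.card G - B.card := card_compl_int B
  have l1 := loc (by norm_num) φ hφ hv (hG v) Bᶜ 1 (card2_19 1 (by decide))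
  have l2 := loc (by norm_num) φ hφ hv (hG v) Bᶜ 2 (card2_19 2 (by decide))
  have l3 := loc (by norm_num) φ hφ hv (hG v) Bᶜ 3 (card2_19 3 (by decide))
  have l4 := loc (by norm_num) φ hφ hv (hG v) Bᶜ 4 (card2_19 4 (by decide))
  have l5 := loc (by norm_num) φ hφ hv (hG v) Bᶜ 5 (card2_19 5 (by decide))
  have l6 := loc (by norm_num) φ hφ hv (hG v) Bᶜ 6 (card2_19 6 (by decide))
  have l7 := loc (by norm_num) φ hφ hv (hG v) Bᶜ 7 (card2_19 7 (by decide))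
  have l8 := loc (by norm_num) φ hφ hv (hG v) Bᶜ 8 (card2_19 8 (by decide))
  have l9 := loc (by norm_num) φ hφ hv (hG v) Bᶜ 9 (card2_19 9 (by decide))
  simp only [Nat.reduceDiv, Nat.reduceAdd, Finset.sum_range_succ, Finset.sum_range_zero,
    zero_add] at hX hR hbud
  set h := Nat.card φ.ker
  have hh : (0:ℝ) < h := by
    have : 0 < Nat.card φ.ker := Nat.card_pos
    exact_mod_cast this
  have hnR : (Fintype.card G : ℝ) = 19 * h := by rw [hn]; push_cast; ring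
  have hbR : (B.card : ℝ) = 13 * h - s := by
    have : (B.card : ℝ) + s = 13 * h := by exact_mod_cast hb
    linarith
  have hXR : (Xc Bᶜ (Cl φ 0) : ℝ) + (Xc Bᶜ (Cl φ 1) : ℝ) + (Xc Bᶜ (Cl φ 2) : ℝ) + (Xc Bᶜ (Cl φ 3) : ℝ) + (Xc Bᶜ (Cl φ 4) : ℝ) + (Xc Bᶜ (Cl φ 5) : ℝ) + (Xc Bᶜ (Cl φ 6) : ℝ) + (Xc Bᶜ (Cl φ 7) : ℝ) + (Xc Bᶜ (Cl φ 8) : ℝ) + (Xc Bᶜ (Cl φ 9) : ℝ) =
      6 * h + s := by
    have h1 : ((Bᶜ).card : ℝ) = Fintype.card G - B.card := by exact_mod_cast hcompl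
    rw [hX, hnR, hbR] at h1
    push_cast at h1
    linarith
  have hbR2 : 2 * ((Pc Bᶜ (Cl φ 0) v : ℝ) + (Pc Bᶜ (Cl φ 1) v : ℝ) + (Pc Bᶜ (Cl φ 2) v : ℝ) + (Pc Bᶜ (Cl φ 3) v : ℝ) + (Pc Bᶜ (Cl φ 4) v : ℝ) + (Pc Bᶜ (Cl φ 5) v : ℝ) + (Pc Bᶜ (Cl φ 6) v : ℝ) + (Pc Bᶜ (Cl φ 7) v : ℝ) + (Pc Bᶜ (Cl φ 8) v : ℝ) + (Pc Bᶜ (Cl φ 9) v : ℝ)) +
      ((Qc Bᶜ (Cl φ 0) v : ℝ) + (Qc Bᶜ (Cl φ 1) v : ℝ) + (Qc Bᶜ (Cl φ 2) v : ℝ) + (Qc Bᶜ (Cl φ 3) v : ℝ) + (Qc Bᶜ (Cl φ 4) v : ℝ) + (Qc Bᶜ (Cl φ 5) v : ℝ) + (Qc Bᶜ (Cl φ 6) v : ℝ) + (Qc Bᶜ (Cl φ 7) v : ℝ) + (Qc Bᶜ (Cl φ 8) v : ℝ) + (Qc Bᶜ (Cl φ 9) v : ℝ)) ≤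
      2 * s := by
    exact_mod_cast hbud
  have p0 : (0:ℝ) ≤ Pc Bᶜ (Cl φ 0) v := by positivity
  have q0 : (0:ℝ) ≤ Qc Bᶜ (Cl φ 0) v := by positivity
  refine core19 (h := h) (s := s)
    (X0 := Xc Bᶜ (Cl φ 0))
    (X1 := Xc Bᶜ (Cl φ 1))
    (X2 := Xc Bᶜ (Cl φ 2))
    (X3 := Xc Bᶜ (Cl φ 3))
    (X4 := Xc Bᶜ (Cl φ 4))
    (X5 := Xc Bᶜ (Cl φ 5))
    (X6 := Xc Bᶜ (Cl φ 6))
    (X7 := Xc Bᶜ (Cl φ 7))
    (X8 := Xc Bᶜ (Cl φ 8))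
    (X9 := Xc Bᶜ (Cl φ 9))
    (T1 := (Pc Bᶜ (Cl φ 1) v : ℝ) + (Qc Bᶜ (Cl φ 1) v : ℝ) / 2)
    (T2 := (Pc Bᶜ (Cl φ 2) v : ℝ) + (Qc Bᶜ (Cl φ 2) v : ℝ) / 2)
    (T3 := (Pc Bᶜ (Cl φ 3) v : ℝ) + (Qc Bᶜ (Cl φ 3) v : ℝ) / 2)
    (T4 := (Pc Bᶜ (Cl φ 4) v : ℝ) + (Qc Bᶜ (Cl φ 4) v : ℝ) / 2)
    (T5 := (Pc Bᶜ (Cl φ 5) v : ℝ) + (Qc Bᶜ (Cl φ 5) v : ℝ) / 2)
    (T6 := (Pc Bᶜ (Cl φ 6) v : ℝ) + (Qc Bᶜ (Cl φ 6) v : ℝ) / 2)
    (T7 := (Pc Bᶜ (Cl φ 7) v : ℝ) + (Qc Bᶜ (Cl φ 7) v : ℝ) / 2)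
    (T8 := (Pc Bᶜ (Cl φ 8) v : ℝ) + (Qc Bᶜ (Cl φ 8) v : ℝ) / 2)
    (T9 := (Pc Bᶜ (Cl φ 9) v : ℝ) + (Qc Bᶜ (Cl φ 9) v : ℝ) / 2)
    (F := ((GL.FF B : ℤ) : ℝ)) (R := (hat B χ).re) hh (by positivity) (by exact_mod_cast hs)
    (by positivity) (by positivity) (by positivity) (by positivity) (by positivity) (by positivity) (by positivity) (by positivity) (by positivity) (by positivity) (by positivity) (by positivity) (by positivity) (by positivity) (by positivity) (by positivity) (by positivity) (by positivity) (by positivity)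
    hXR (by linarith) ?_ ?_ ?_ ?_ ?_ ?_ ?_ ?_ ?_
  · have := l4.1
    norm_num at this ⊢
    linarith
  · have := l5.1
    norm_num at this ⊢
    linarith
  · have := l6.1
    norm_num at this ⊢
    linarith
  · have := l7.1
    norm_num at this ⊢
    linarith
  · have := l8.1
    norm_num at this ⊢
    linarith
  · have := l9.1
    norm_num at this ⊢
    linarith
  · rw [hR]
    norm_num
  · rw [hnR, hbR] at hfou
    exact hfou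
  · have : (((h:ℤ) - s) * ((h:ℤ) - 5 * s) : ℤ) < GL.FF B := hF
    exact_mod_cast this

end

end Pool.Agent.D1X
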