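import Mathlib
import Pool.Agent.Lib_helper22.SCHD.Win

/-!
# `ker φ ⊆ B` in the exceptional windows: exponent 5 (`2 n < 5 b`), 7, 13, 19 (last period)
-/

set_option autoImplicit false
set_option linter.unusedSectionVars false

namespace Pool.Agent.D1X

open Finset Pool.Agent.GL Pool.Agent.Lib_helper42.RS Pool.Agent.Lib_helper13.PL Pool.Agent.SCH

universe u

section
variable {G : Type u} [AddCommGroup G] [Fintype G] [DecidableEq G]

lemma schur_SF {S : Finset G} (hS : SF S) : schur S = 0 := by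
  unfold schur
  rw [Finset.card_eq_zero, Finset.filter_eq_empty_iff]
  rintro ⟨x, y⟩ hxy
  rw [Finset.mem_product] at hxy
  exact hS x hxy.1 y hxy.2

/-- sum free sets, exponent 5 -/
theorem sf5 (hG : ∀ g : G, 5 • g = 0) (φ : G →+ ZMod 5) (hφ : Function.Surjective φ)
    (S : Finset G) (hS : SF S) : S.card ≤ (5 - 2 * 1 - 1) * Nat.card φ.ker := by
  rcases S.eq_empty_or_nonempty with rfl | ⟨v, hv⟩
  · simp
  · have h1 := cyc_count (e := 5) (by norm_num) (hG v) (S := S) (C := univ)
      (fun x hx => hS x hx v hv) (fun x => by simp) (Finset.subset_univ _)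
    rw [Finset.card_univ, card_ker_mul φ hφ] at h1
    omega

/-- the statement of the windows for `3 k + 1` -/
def FinK (G : Type u) [AddCommGroup G] [Fintype G] [DecidableEq G] (e k : ℕ) : Prop :=
  ∀ (χ : AddChar G ℂ) (φ : G →+ ZMod e), Std χ φ → Function.Surjective φ →
    ∀ (B : Finset G) (v : G), φ v = 0 → ∀ s : ℕ, B.card + s = (2 * k + 1) * Nat.card φ.ker →
    s ≤ Nat.card φ.ker →
    2 * ((Bᶜ.filter (fun x => x + v ∈ Bᶜ)).card : ℤ) +
        ((Bᶜ.filter (fun x => v - x ∈ Bᶜ)).card : ℤ) ≤ 2 * s →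
    (Fintype.card G : ℝ) * (((GL.FF B : ℤ) : ℝ) + 3 * (B.card : ℝ) ^ 2) ≤
      4 * (B.card : ℝ) ^ 3 +
        4 * (hat B χ).re * ((Fintype.card G : ℝ) * B.card - (B.card : ℝ) ^ 2) →
    ((Nat.card φ.ker : ℤ) - s) * ((Nat.card φ.ker : ℤ) - 5 * s) < GL.FF B → False

lemma finK7 (hG : ∀ g : G, 7 • g = 0) : FinK G 7 2 := by
  intro χ φ h1 h2 B v h3 s h4 h5 h6 h7 h8
  exact fin7 h1 h2 hG h3 (by omega) h5 h6 h7 h8

lemma finK13 (hG : ∀ g : G, 13 • g = 0) : FinK G 13 4 := by
  intro χ φ h1 h2 B v h3 s h4 h5 h6 h7 h8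
  exact fin13 h1 h2 hG h3 (by omega) h5 h6 h7 h8

lemma finK19 (hG : ∀ g : G, 19 • g = 0) : FinK G 19 6 := by
  intro χ φ h1 h2 B v h3 s h4 h5 h6 h7 h8
  exact fin19 h1 h2 hG h3 (by omega) h5 h6 h7 h8

/-- sum free sets, exponent `3 k + 1` -/
theorem sfK {e k : ℕ} (hp : e.Prime) (he : e = 3 * k + 1) (hk : 2 ≤ k) (hG : ∀ g : G, e • g = 0)
    (hfin : FinK G e k) (φ : G →+ ZMod e) (hφ : Function.Surjective φ)
    (S : Finset G) (hS : SF S) : S.card ≤ (e - 2 * k - 1) * Nat.card φ.ker := by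
  by_contra hc
  push Not at hc
  have : Fact e.Prime := ⟨hp⟩
  have : NeZero e := ⟨hp.ne_zero⟩
  let _ : Module (ZMod e) G := AddCommGroup.zmodModule hG
  have hek : e - 2 * k - 1 = k := by omega
  rw [hek] at hc
  obtain ⟨S', hS', hcS⟩ := Finset.exists_subset_card_eq (s := S)
    (n := k * Nat.card φ.ker + 1) (by omega)
  have hSF' : SF S' := fun x hx y hy hxy => hS x (hS' hx) y (hS' hy) (hS' hxy)
  have hn := card_ker_mul φ hφ
  set h := Nat.card φ.ker with hh
  have hhpos : 0 < h := Nat.card_pos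
  set B := S'ᶜ with hB
  have hBc : Bᶜ = S' := by rw [hB, compl_compl]
  have hcomp : ((Bᶜ).card : ℤ) = Fintype.card G - B.card := card_compl_int B
  have hnz : ((Fintype.card G : ℕ) : ℤ) = e * h := by exact_mod_cast hn
  have hez : (e:ℤ) = 3 * k + 1 := by exact_mod_cast he
  have hBz : (B.card : ℤ) = (2 * k + 1) * h - 1 := by
    rw [hBc, hcS, hnz, hez] at hcomp
    push_cast at hcomp
    linarith
  have hBn : B.card + 1 = (2 * k + 1) * h := by
    have : ((B.card + 1 : ℕ) : ℤ) = (((2 * k + 1) * h : ℕ) : ℤ) := by push_cast; linarith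
    exact_mod_cast this
  have hFF : GL.FF B = ((h:ℤ) - 3) ^ 2 := by
    have h1 := four_schur_compl B
    rw [hBc, schur_SF hSF', hcS, hnz, hez] at h1
    push_cast at h1
    nlinarith
  have hnt : Nontrivial G := by
    rw [← Fintype.one_lt_card_iff_nontrivial, hn]
    have := hp.two_le
    nlinarith
  obtain ⟨χ, m, ψ, hm2, hsurj, hstd, -, hfou⟩ := fou_FF (G := G) B
  rw [Nat.card_eq_fintype_card] at hfou
  have hme : m = e := by
    obtain ⟨g, hg⟩ := hsurj 1
    have h1 : (e : ZMod m) = 0 := by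
      have : ψ (e • g) = 0 := by rw [hG, map_zero]
      rw [map_nsmul, hg, nsmul_one] at this
      exact this
    rw [ZMod.natCast_eq_zero_iff] at h1
    rcases (Nat.dvd_prime hp).mp h1 with h2 | h2
    · omega
    · exact h2
  subst hme
  have hn' := card_ker_mul ψ hsurj
  have hh' : Nat.card ψ.ker = h := by
    have : m * Nat.card ψ.ker = m * h := by rw [← hn', hn]
    exact Nat.eq_of_mul_eq_mul_left hp.pos this
  by_cases hv : ∃ v ∈ S', ψ v = 0
  · obtain ⟨v, hvS, hv0⟩ := hv
    refine hfin χ ψ hstd hsurj B v hv0 1 (by rw [hh']; exact hBn) (by rw [hh']; omega) ?_ hfou ?_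
    · rw [hBc]
      have h1 : S'.filter (fun x => x + v ∈ S') = ∅ := by
        rw [Finset.filter_eq_empty_iff]
        intro x hx
        exact hSF' x hx v hvS
      have h2 : S'.filter (fun x => v - x ∈ S') = ∅ := by
        rw [Finset.filter_eq_empty_iff]
        intro x hx hx2
        apply hSF' x hx _ hx2
        rw [add_sub_cancel]
        exact hvS
      rw [h1, h2]
      simp
    · rw [hh', hFF]
      push_cast
      nlinarith
  · push Not at hv
    have h1 := slice_low (p := m) ψ.ker (A := S') (h := h) (k := k) (s := 1) (T := -1)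
      (fun x hx hxS => hv x hxS ((AddMonoidHom.mem_ker).mp hx)) (by rw [hh']) hnz
      (by rw [hcS]; push_cast; ring) (by norm_num) (by exact_mod_cast hhpos)
      (by rw [hez]; ring) le_rfl (by rw [hez]; have : (2:ℤ) ≤ k := by exact_mod_cast hk
                                     linarith)
    have h2 := h1.2 ⟨-1, by norm_num⟩
    rw [schur_SF hSF'] at h2
    norm_num at h2

/-- exponent 5: the kernel is inside `B` -/
theorem d1_five {B : Finset G} {χ : AddChar G ℂ} {φ : G →+ ZMod 5} (ctx : Ctx B χ φ)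
    (hG : ∀ g : G, 5 • g = 0) (hb : 2 * Fintype.card G < 5 * B.card) :
    ∀ x, φ x = 0 → x ∈ B := by
  intro v hv
  by_contra hvB
  have hn := card_ker_mul φ ctx.surj
  have ht := ctx.triv 5 φ ctx.surj
  have e6 : (5 + 1) / 3 = 2 := by norm_num
  rw [e6, hn] at ht
  rw [hn] at hb
  set h := Nat.card φ.ker with hh
  obtain ⟨s, hs⟩ : ∃ s, B.card + s = 3 * h := ⟨3 * h - B.card, by omega⟩
  have hbud := (budget (e := 5) (k := 1) (by norm_num) le_rfl (by norm_num) (by norm_num) hG φ
    ctx.surj (sf5 hG φ ctx.surj) ctx.maxi (s := s) (by omega) (by omega) (by omega)).2 v hvB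
  have hlo : ((h:ℤ) - s) * (h - 5 * s) ≤ fG G B.card :=
    wit_below φ ctx.surj (b := B.card) (j := 1) (s := s) (by omega) (by omega) (by norm_num)
  refine fin5 ctx.std ctx.surj hG hv (s := s) (by omega) (by omega) ?_ ctx.fou ?_
  · norm_num at hbud ⊢
    linarith
  · exact lt_of_le_of_lt hlo ctx.big

/-- exponent `3 k + 1` -/
theorem d1_K {e k : ℕ} (hp : e.Prime) (he : e = 3 * k + 1) (hk : 2 ≤ k)
    (hG : ∀ g : G, e • g = 0) (hfin : FinK G e k)
    {B : Finset G} {χ : AddChar G ℂ} {φ : G →+ ZMod e} (ctx : Ctx B χ φ)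
    (hb : 2 * k * Fintype.card G < e * B.card) :
    ∀ x, φ x = 0 → x ∈ B := by
  intro v hv
  by_contra hvB
  have : NeZero e := ⟨hp.ne_zero⟩
  have hn := card_ker_mul φ ctx.surj
  have ht := ctx.triv e φ ctx.surj
  have e3 : (e + 1) / 3 = k := by omega
  rw [e3, hn] at ht
  rw [hn] at hb
  set h := Nat.card φ.ker with hh
  have hepos := hp.pos
  have hb1 : B.card < (2 * k + 1) * h := by
    have h1 : e * (B.card + k * h) < e * (e * h) := by
      calc e * (B.card + k * h) = e * B.card + k * (e * h) := by ring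
        _ < e * (e * h) := ht
    have h2 := Nat.lt_of_mul_lt_mul_left h1
    have h3 : e * h = (2 * k + 1) * h + k * h := by rw [he]; ring
    omega
  have hb2 : 2 * k * h < B.card := by
    have h1 : e * (2 * k * h) < e * B.card := by
      calc e * (2 * k * h) = 2 * k * (e * h) := by ring
        _ < e * B.card := hb
    exact Nat.lt_of_mul_lt_mul_left h1
  have h4 : (2 * k + 1) * h = 2 * k * h + h := by ring
  obtain ⟨s, hs⟩ : ∃ s, B.card + s = (2 * k + 1) * h := ⟨(2 * k + 1) * h - B.card, by omega⟩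
  have hbud := (budget (e := e) (k := k) hp (by omega) (by omega) (by omega) hG φ
    ctx.surj (sfK hp he hk hG hfin φ ctx.surj) ctx.maxi (s := s) hs (by omega) (by omega)).2 v hvB
  have hlo : ((h:ℤ) - s) * (h - 5 * s) ≤ fG G B.card :=
    wit_below φ ctx.surj (b := B.card) (j := k) (s := s) hs (by omega) (by omega)
  refine hfin χ φ ctx.std ctx.surj B v hv s hs (by omega) ?_ ctx.fou ?_
  · have hez : (e:ℤ) - 3 * k - 1 = 0 := by rw [he]; push_cast; ring
    rw [hez] at hbud
    linarith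
  · exact lt_of_le_of_lt hlo ctx.big

/-- exponent 7, last period -/
theorem d1_seven {B : Finset G} {χ : AddChar G ℂ} {φ : G →+ ZMod 7} (ctx : Ctx B χ φ)
    (hG : ∀ g : G, 7 • g = 0) (hb : 4 * Fintype.card G < 7 * B.card) :
    ∀ x, φ x = 0 → x ∈ B :=
  d1_K (k := 2) (by norm_num) (by norm_num) (by norm_num) hG (finK7 hG) ctx (by omega)

/-- exponent 13, last period -/
theorem d1_thirteen {B : Finset G} {χ : AddChar G ℂ} {φ : G →+ ZMod 13} (ctx : Ctx B χ φ)
    (hG : ∀ g : G, 13 • g = 0) (hb : 8 * Fintype.card G < 13 * B.card) :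
    ∀ x, φ x = 0 → x ∈ B :=
  d1_K (k := 4) (by norm_num) (by norm_num) (by norm_num) hG (finK13 hG) ctx (by omega)

/-- exponent 19, last period -/
theorem d1_nineteen {B : Finset G} {χ : AddChar G ℂ} {φ : G →+ ZMod 19} (ctx : Ctx B χ φ)
    (hG : ∀ g : G, 19 • g = 0) (hb : 12 * Fintype.card G < 19 * B.card) :
    ∀ x, φ x = 0 → x ∈ B :=
  d1_K (k := 6) (by norm_num) (by norm_num) (by norm_num) hG (finK19 hG) ctx (by omega)

end

end Pool.Agent.D1X
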