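import Mathlib
import Pool.Agent.Lib_helper22.SCHD.D1

/-!
# Groups all of whose element orders are `1` modulo `3` (type III): `f_G` above `2/3`
-/

set_option autoImplicit false
set_option linter.unusedSectionVars false

namespace Pool.Agent.D1X

open Finset Pool.Agent.GL Pool.Agent.Lib_helper42.RS Pool.Agent.Lib_helper13.PL Pool.Agent.SCH

universe u

section
variable {G : Type u} [AddCommGroup G] [Fintype G] [DecidableEq G]

/-- type III -/
def TIII (G : Type u) [AddCommGroup G] : Prop := ∀ g : G, addOrderOf g % 3 = 1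

lemma tiii_of_ctx {B : Finset G} {m : ℕ} {χ : AddChar G ℂ} {φ : G →+ ZMod m}
    (ctx : Ctx B χ φ) (hb : 2 * Fintype.card G < 3 * B.card) : TIII G := by
  intro g
  have hq0 : 0 < addOrderOf g := addOrderOf_pos g
  obtain ⟨ψ, hψ⟩ := exists_surj_of_order g
  have : NeZero (addOrderOf g) := ⟨hq0.ne'⟩
  have h1 := ctx.triv (addOrderOf g) ψ hψ
  set q := addOrderOf g
  have hn : 0 < Fintype.card G := Fintype.card_pos
  by_contra hc
  have h2 : q ≤ 3 * ((q + 1) / 3) := by omega
  have h3 : q * (2 * Fintype.card G) < q * (3 * B.card) := Nat.mul_lt_mul_of_pos_left hb hq0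
  have h4 : q * Fintype.card G ≤ 3 * ((q + 1) / 3) * Fintype.card G := Nat.mul_le_mul_right _ h2
  nlinarith

/-- the order of an element modulo a subgroup -/
lemma tiii_quot (h3 : TIII G) {e : ℕ} (hG : ∀ g : G, e • g = 0) (he : 0 < e) (H : AddSubgroup G)
    (g : G) : ∃ q : ℕ, 0 < q ∧ q % 3 = 1 ∧ q ≤ e ∧ q ∣ H.index ∧ q • g ∈ H := by
  set g' : G ⧸ H := QuotientAddGroup.mk g with hg'
  set q := addOrderOf g' with hq
  have hfin : Finite (G ⧸ H) := inferInstance
  have hq0 : 0 < q := addOrderOf_pos g'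
  have hdg : q ∣ addOrderOf g := by
    rw [addOrderOf_dvd_iff_nsmul_eq_zero]
    have : (QuotientAddGroup.mk (addOrderOf g • g) : G ⧸ H) = addOrderOf g • g' := by
      rw [hg']; rfl
    rw [← this, addOrderOf_nsmul_eq_zero]
    rfl
  have hge : addOrderOf g ∣ e := addOrderOf_dvd_of_nsmul_eq_zero (hG g)
  refine ⟨q, hq0, ?_, Nat.le_of_dvd he (hdg.trans hge), ?_, ?_⟩
  · obtain ⟨c, hc⟩ := hdg
    have hc0 : c ≠ 0 := by
      rintro rfl
      have := addOrderOf_pos g
      omega
    have h1 : addOrderOf (c • g) = q := by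
      rw [addOrderOf_nsmul_of_dvd hc0 ⟨q, by rw [hc]; ring⟩, hc]
      exact Nat.mul_div_cancel _ (Nat.pos_of_ne_zero hc0)
    rw [← h1]
    exact h3 _
  · have := addOrderOf_dvd_natCard g'
    rwa [← AddSubgroup.index] at this
  · have h1 : q • g' = 0 := addOrderOf_nsmul_eq_zero g'
    have h2 : (QuotientAddGroup.mk (q • g) : G ⧸ H) = 0 := by
      rw [← h1, hg']; rfl
    exact (QuotientAddGroup.eq_zero_iff _).mp h2

/-- all witnesses above `2/3` -/
theorem W_le3 (h3 : TIII G) {e K h : ℕ} (he : e = 3 * K + 1)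
    (hG : ∀ g : G, e • g = 0) (hn : Fintype.card G = e * h)
    (hSF : ∀ S : Finset G, SF S → S.card ≤ K * h) {b s : ℕ}
    (hb : b + s = (2 * K + 1) * h) (hD : 2 * Fintype.card G < 3 * b) {v : ℤ}
    (hv : W G b v) : v ≤ ((h : ℤ) - s) * ((h : ℤ) - 5 * s) := by
  have hhpos : 0 < h := by
    rcases Nat.eq_zero_or_pos h with h0 | h0
    · rw [h0, mul_zero] at hn
      have : 0 < Fintype.card G := Fintype.card_pos
      omega
    · exact h0
  have hez : (e : ℤ) = 3 * K + 1 := by exact_mod_cast he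
  have hbz : (b:ℤ) + s = (2 * K + 1) * h := by exact_mod_cast hb
  have hnz : ((Fintype.card G : ℕ) : ℤ) = e * h := by exact_mod_cast hn
  have hDz : 2 * ((Fintype.card G : ℕ) : ℤ) < 3 * b := by exact_mod_cast hD
  have hs0 : (0:ℤ) ≤ s := by positivity
  have hh0 : (0:ℤ) < h := by exact_mod_cast hhpos
  have hK0 : (0:ℤ) ≤ K := by positivity
  have hDs : 3 * (b:ℤ) - 2 * Fintype.card G = h - 3 * s := by
    rw [hnz, hez]; linarith
  have hbn : Fintype.card G < 2 * b := by omega
  rcases hv with ⟨M, S, hSK, hS, hc, rfl⟩ | ⟨H, j, t, ht, rfl, hcase⟩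
  · by_cases hM : M = ⊤
    · subst hM
      rw [AddSubgroup.card_top, Nat.card_eq_fintype_card] at hc ⊢
      have h1 := hSF S hS
      have h1z : (S.card : ℤ) ≤ K * h := by exact_mod_cast h1
      have hcz : (S.card : ℤ) + b = e * h := by rw [← hnz]; exact_mod_cast hc
      have hs00 : (s:ℤ) = 0 := by rw [hez] at hcz; nlinarith
      rw [hDs, hs00]
      ring_nf
      exact le_rfl
    · exfalso
      have h1 : Nat.card M ≠ Fintype.card G := by
        intro h
        apply hM
        apply AddSubgroup.eq_top_of_card_eq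
        rw [h, Nat.card_eq_fintype_card]
      have h2 : Nat.card M ∣ Fintype.card G := by
        rw [← Nat.card_eq_fintype_card]; exact AddSubgroup.card_addSubgroup_dvd_card M
      obtain ⟨c, hc2⟩ := h2
      have hn0 : 0 < Fintype.card G := Fintype.card_pos
      have hc3 : 2 ≤ c := by
        rcases c with _ | _ | c
        · omega
        · exfalso; apply h1; omega
        · omega
      have h4 : Nat.card M * 2 ≤ Fintype.card G := by
        conv_rhs => rw [hc2]
        exact Nat.mul_le_mul_left _ hc3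
      omega
  · have htz : (t:ℤ) ≤ Nat.card H := by exact_mod_cast ht
    have ht0 : (0:ℤ) ≤ t := by positivity
    have hHpos : 0 < Nat.card H := Nat.card_pos
    have hHz : (0:ℤ) < Nat.card H := by exact_mod_cast hHpos
    have hidx : Nat.card H * H.index = Fintype.card G := by
      rw [AddSubgroup.card_mul_index, Nat.card_eq_fintype_card]
    have hidxz : (Nat.card H : ℤ) * H.index = Fintype.card G := by exact_mod_cast hidx
    have hidx0 : 0 < H.index := by
      rcases Nat.eq_zero_or_pos H.index with h0 | h0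
      · rw [h0, mul_zero] at hidx
        have : 0 < Fintype.card G := Fintype.card_pos
        omega
      · exact h0
    rcases hcase with ⟨h1, g, hg⟩ | ⟨h1, g, hg⟩
    · obtain ⟨q, hq0, hq3, hqe, hqd, hqH⟩ := tiii_quot h3 hG (by omega) H g
      have hqj : 3 * j + 1 ≤ q := by
        by_contra hc
        exact hg q hq0 (by omega) hqH
      have h1z : (b:ℤ) + t = (2 * j + 1) * Nat.card H := by exact_mod_cast h1
      have hQ1 : 2 * (H.index : ℤ) < 6 * j + 3 := by
        by_contra hc
        push Not at hc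
        have : (Nat.card H : ℤ) * (6 * j + 3) ≤ Nat.card H * (2 * H.index) :=
          mul_le_mul_of_nonneg_left hc hHz.le
        nlinarith
      have hQ2 : q ≤ H.index := Nat.le_of_dvd hidx0 hqd
      have hQ3 : H.index = 3 * j + 1 := by omega
      have hQe : H.index ≤ e := by omega
      have hHh : (h:ℤ) ≤ Nat.card H := by
        have h4 : e * h ≤ Nat.card H * e := by
          rw [← hn, ← hidx]; exact Nat.mul_le_mul_left _ hQe
        have h5 : e * h ≤ e * Nat.card H := by rw [mul_comm e (Nat.card H)]; exact h4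
        have h6 : h ≤ Nat.card H := Nat.le_of_mul_le_mul_left h5 (by omega)
        exact_mod_cast h6
      have hQz : (H.index : ℤ) = 3 * j + 1 := by exact_mod_cast hQ3
      have hDt : (Nat.card H : ℤ) - 3 * t = h - 3 * s := by
        rw [← hDs, ← hidxz, hQz]; linarith
      set x : ℤ := (Nat.card H : ℤ)
      have e1 : 3 * (t:ℤ) = x - (h - 3 * s) := by linarith
      have e2 : 9 * ((x - t) * (x - 5 * t)) = (3 * x - 3 * t) * (3 * x - 5 * (3 * t)) := by ring
      have e3 : 9 * ((x - t) * (x - 5 * t)) =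
          (2 * x + (h - 3 * s)) * (5 * (h - 3 * s) - 2 * x) := by
        rw [e2, e1]; ring
      have hD0 : (0:ℤ) < h - 3 * s := by linarith
      have key : 0 ≤ (x - h) * (4 * (x + h) - 8 * (h - 3 * s)) := by
        apply mul_nonneg
        · linarith
        · linarith
      nlinarith
    · exfalso
      obtain ⟨q, hq0, hq3, hqe, hqd, hqH⟩ := tiii_quot h3 hG (by omega) H g
      have hqj : 3 * j + 2 ≤ q := by
        by_contra hc
        exact hg q hq0 (by omega) hqH
      have h1z : (b:ℤ) = (2 * j + 1) * Nat.card H + t := by exact_mod_cast h1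
      have hQ1 : 2 * (H.index : ℤ) < 6 * j + 6 := by
        by_contra hc
        push Not at hc
        have : (Nat.card H : ℤ) * (6 * j + 6) ≤ Nat.card H * (2 * H.index) :=
          mul_le_mul_of_nonneg_left hc hHz.le
        nlinarith
      have hQ2 : q ≤ H.index := Nat.le_of_dvd hidx0 hqd
      have hQ3 : H.index = 3 * j + 2 := by omega
      have hQ4 : q = H.index := by omega
      omega

theorem fG_le3 (h3 : TIII G) {e K h : ℕ} (he : e = 3 * K + 1)
    (hG : ∀ g : G, e • g = 0) (hn : Fintype.card G = e * h)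
    (hSF : ∀ S : Finset G, SF S → S.card ≤ K * h) {b s : ℕ}
    (hb : b + s = (2 * K + 1) * h) (hD : 2 * Fintype.card G < 3 * b) :
    fG G b ≤ ((h : ℤ) - s) * ((h : ℤ) - 5 * s) := by
  have hbn : b ≤ Fintype.card G := by
    rw [hn]
    calc b ≤ (2 * K + 1) * h := by omega
      _ ≤ e * h := Nat.mul_le_mul_right _ (by omega)
  exact W_le3 h3 he hG hn hSF hb hD (W_fG hbn)

/-- the budget above `2/3` -/
theorem budget3 (h3 : TIII G) {e K : ℕ} (he : e = 3 * K + 1) (hK : 1 ≤ K)
    (hG : ∀ g : G, e • g = 0) (ψ : G →+ ZMod e) (hψ : Function.Surjective ψ)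
    (hSF : ∀ S : Finset G, SF S → S.card ≤ K * Nat.card ψ.ker)
    {B : Finset G} (hmax : IsMaxi B) {s : ℕ} (hb : B.card + s = (2 * K + 1) * Nat.card ψ.ker)
    (hs1 : 1 ≤ s) (hD : 2 * Fintype.card G < 3 * B.card) :
    (0 : G) ∈ B ∧ ∀ v : G, v ∉ B →
      2 * ((Bᶜ.filter (fun x => x + v ∈ Bᶜ)).card : ℤ) +
        ((Bᶜ.filter (fun x => v - x ∈ Bᶜ)).card : ℤ) ≤ 2 * s := by
  have : NeZero e := ⟨by omega⟩
  have hn := card_ker_mul ψ hψ
  set h := Nat.card ψ.ker with hh
  have hhpos : 0 < h := Nat.card_pos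
  have hez : (e : ℤ) = 3 * K + 1 := by exact_mod_cast he
  have hbz : (B.card:ℤ) + s = (2 * K + 1) * h := by exact_mod_cast hb
  have hnz : ((Fintype.card G : ℕ) : ℤ) = e * h := by exact_mod_cast hn
  have hs1z : (1:ℤ) ≤ s := by exact_mod_cast hs1
  have hK1 : (1:ℤ) ≤ K := by exact_mod_cast hK
  have hDz : 2 * ((Fintype.card G : ℕ) : ℤ) < 3 * B.card := by exact_mod_cast hD
  have hDs : 3 * (B.card:ℤ) - 2 * Fintype.card G = h - 3 * s := by
    rw [hnz, hez]; linarith
  have hsz : (s:ℤ) ≤ h := by linarith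
  have hs : s ≤ h := by exact_mod_cast hsz
  have hA : ((Bᶜ).card : ℤ) = e * h - B.card := by
    rw [← hnz]; exact card_compl_int B
  -- slope
  have hup : fG G (B.card + 1) ≤ ((h:ℤ) - s + 1) * (h - 5 * s + 5) := by
    have h1 := fG_le3 h3 he hG hn hSF (b := B.card + 1) (s := s - 1)
      (by rw [← hb]; omega) (by omega)
    have e1 : ((s - 1 : ℕ) : ℤ) = s - 1 := by omega
    rw [e1] at h1
    have e2 : ((h:ℤ) - (s - 1)) * (h - 5 * (s - 1)) = ((h:ℤ) - s + 1) * (h - 5 * s + 5) := by ring
    linarith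
  have hlo : ((h:ℤ) - s) * (h - 5 * s) ≤ fG G B.card := by
    exact wit_below ψ hψ (b := B.card) (j := K) (s := s) hb hs (by omega)
  have hslope : fG G (B.card + 1) - fG G B.card ≤ 6 * h - 10 * s + 5 := by nlinarith
  have h0 : (0 : G) ∈ B := by
    by_contra h0
    have h1 := kkt_zero (fG G) B hmax h0
    rw [DB_eq] at h1
    have e1 : dlt B 0 = 0 := by
      unfold dlt
      rw [Finset.filter_false_of_mem]
      · simp
      · intro z hz; simp [hz]
    have e2 : dlt' B 0 ≤ B.card := by
      unfold dlt'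
      exact_mod_cast Finset.card_filter_le _ _
    rw [e1] at h1
    nlinarith
  refine ⟨h0, fun v hv => ?_⟩
  have hv0 : v ≠ 0 := fun h => hv (h ▸ h0)
  have h1 := kkt_notMem (fG G) B hmax v hv hv0
  rw [DB_eq] at h1
  have e1 : iv B 0 = 1 := by unfold iv; rw [if_pos h0]
  have e2 := iv_nonneg B (v + v)
  rw [e1] at h1
  have h2 := rm_eq B v
  have h3 := rp_eq B v
  rw [hA] at h2 h3
  nlinarith

end

end Pool.Agent.D1X
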