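import Mathlib
import Pool.Agent.Lib_helper22.SCHD.T3Ord
import Pool.Agent.Lib_helper26.SCH.Shift

/-!
# The translation half of the shift lemma, near `2/3`
-/

set_option autoImplicit false
set_option linter.unusedSectionVars false

namespace Pool.Agent.D1X

open Finset Pool.Agent.GL Pool.Agent.Lib_helper42.RS Pool.Agent.Lib_helper13.PL Pool.Agent.SCH

universe u

/-- the sine above `π / 3` -/
lemma sin_third_add {z : ℝ} (hz : -1 ≤ z) :
    Real.sin (Real.pi / 3 + z) ≤ √3 / 2 + z / 2 := by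
  rw [Real.sin_add, Real.sin_pi_div_three, Real.cos_pi_div_three]
  have h3 : (1.7 : ℝ) ≤ √3 := by
    apply Real.le_sqrt_of_sq_le; norm_num
  rcases le_or_gt 0 z with h0 | h0
  · have h1 := Real.sin_le h0
    have h2 := Real.cos_le_one z
    nlinarith
  · set w := -z with hw
    have hw0 : 0 < w := by linarith
    have hw1 : w ≤ 1 := by linarith
    have hz' : z = -w := by linarith
    rw [hz', Real.sin_neg, Real.cos_neg]
    have h1 := cos_le_q hw0.le hw1
    have h2 := sin_ge_q hw0.le hw1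
    have h4 : w ^ 4 ≤ w ^ 2 := by
      apply pow_le_pow_of_le_one hw0.le hw1 (by norm_num)
    have h5 : w ^ 3 ≤ w ^ 2 := by
      apply pow_le_pow_of_le_one hw0.le hw1 (by norm_num)
    have h6 : w ^ 5 ≤ w ^ 2 := by
      apply pow_le_pow_of_le_one hw0.le hw1 (by norm_num)
    have h7 : 0 ≤ w ^ 2 := sq_nonneg w
    have h8 : √3 / 2 * Real.cos w ≤ √3 / 2 * (1 - w ^ 2 / 2 + w ^ 4 * (5 / 96)) :=
      mul_le_mul_of_nonneg_left h1 (by linarith)
    have h9 : √3 / 2 * (w ^ 2 / 2 - w ^ 4 * (5 / 96)) ≥ 0.85 * (w ^ 2 / 2 - w ^ 4 * (5 / 96)) := by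
      apply mul_le_mul_of_nonneg_right
      · linarith
      · linarith
    linarith

section
variable {G : Type u} [AddCommGroup G] [Fintype G] [DecidableEq G]

/-- the number of `x` with `x`, `x + v` outside `B` -/
def rM (B : Finset G) (v : G) : ℕ := (Bᶜ.filter (fun x => x + v ∈ Bᶜ)).card

/-- translation half of the shift lemma near `2/3` -/
theorem shift3 {m k : ℕ} (hm : m = 3 * k + 1) (hk : 1 ≤ k) {χ : AddChar G ℂ} {φ : G →+ ZMod m}
    (hφ : Function.Surjective φ) (h : Std χ φ) (B : Finset G) (v : G) {s : ℕ}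
    (hb : B.card + s = (2 * k + 1) * Nat.card φ.ker) {r : ℝ} (hr : (rM B v : ℝ) ≤ r)
    (hz : Real.pi / m * (2 * s - 2 / 3 * Nat.card φ.ker) ≤ Nat.card φ.ker)
    (hs : s ≤ Nat.card φ.ker) :
    2 * Real.sin (Real.pi / m) * Real.cos (ang φ v) * ‖hat B χ‖ ≤
      √3 / 2 * Nat.card φ.ker + Real.pi / m * (Nat.card φ.ker / 3 - s + 3 / 2 * r) := by
  have : NeZero m := ⟨by omega⟩
  have hm0 : (0 : ℝ) < m := by have := NeZero.pos m; exact_mod_cast this
  have hn := card_ker_mul φ hφ
  have h1 := shift1 (by omega) hφ h B v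
  rw [abs_of_nonneg (cos_ang_nonneg φ v)] at h1
  set l : ℕ := Nat.card φ.ker with hl
  have hl0 : 0 < l := Nat.card_pos
  have hlR : (0 : ℝ) < l := by exact_mod_cast hl0
  have hpi := Real.pi_pos
  have hmR : (m : ℝ) = 3 * k + 1 := by rw [hm]; push_cast; ring
  have hnR : (Fintype.card G : ℝ) = m * l := by rw [hn]; push_cast; ring
  have hbR : (B.card : ℝ) = (2 * k + 1) * l - s := by
    have : (B.card : ℝ) + s = (2 * k + 1) * l := by exact_mod_cast hb
    linarith
  -- the number `dlt`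
  have h2 := rm_eq B v
  have h3 : ((Bᶜ).card : ℤ) = Fintype.card G - B.card := card_compl_int B
  have hdR : ((dlt B v : ℤ) : ℝ) = k * l + s - rM B v := by
    have : (rM B v : ℤ) + dlt B v = Fintype.card G - B.card := by rw [← h3]; exact h2
    have h4 : (rM B v : ℝ) + ((dlt B v : ℤ) : ℝ) = Fintype.card G - B.card := by exact_mod_cast this
    rw [hnR, hbR, hmR] at h4
    linarith
  set ρ : ℝ := (rM B v : ℝ) with hρ
  have hρ0 : 0 ≤ ρ := by positivity
  have hsin : 0 < Real.sin (Real.pi / m) := by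
    apply Real.sin_pos_of_pos_of_lt_pi
    · positivity
    · rw [div_lt_iff₀ hm0]
      have : (1:ℝ) ≤ k := by exact_mod_cast hk
      nlinarith
  set y : ℝ := Real.pi / m with hy
  have hy0 : 0 < y := by positivity
  have hyk : y * (3 * k + 1) = Real.pi := by rw [← hmR, hy]; field_simp
  -- angles
  have e1 : Real.pi * B.card / Fintype.card G = Real.pi - (Real.pi / 3 - y / 3 + y * s / l) := by
    rw [hbR, hnR]
    have : Real.pi * ((2 * k + 1) * l - s) / (m * l) = y * (2 * k + 1) - y * s / l := by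
      rw [hy]; field_simp
    rw [this]
    linear_combination (2/3) * hyk
  have e2 : Real.pi * ((dlt B v : ℤ) : ℝ) / Fintype.card G =
      Real.pi / 3 - y / 3 + y * s / l - y * ρ / l := by
    rw [hdR, hnR]
    have : Real.pi * (k * l + s - ρ) / (m * l) = y * k + y * s / l - y * ρ / l := by
      rw [hy]; field_simp
    rw [this]
    linear_combination (1/3) * hyk
  rw [e1, e2, Real.sin_pi_sub] at h1
  set A : ℝ := Real.pi / 3 - y / 3 + y * s / l with hA
  have h5 : 2 * (Real.sin A * Real.cos (A - y * ρ / l)) =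
      Real.sin (Real.pi / 3 + (y * (2 / 3 * l - 2 * s + ρ) / l)) + Real.sin (y * ρ / l) := by
    have e3 : Real.sin (Real.pi / 3 + (y * (2 / 3 * l - 2 * s + ρ) / l)) =
        Real.sin (A + (A - y * ρ / l)) := by
      rw [← Real.sin_pi_sub]
      congr 1
      rw [hA]
      field_simp
      ring
    have e4 : Real.sin (y * ρ / l) = Real.sin (A - (A - y * ρ / l)) := by
      congr 1; ring
    rw [e3, e4, Real.sin_add A (A - y * ρ / l), Real.sin_sub A (A - y * ρ / l)]
    ring
  have h6 : Real.sin (Real.pi / 3 + (y * (2 / 3 * l - 2 * s + ρ) / l)) ≤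
      √3 / 2 + (y * (2 / 3 * l - 2 * s + ρ) / l) / 2 := by
    apply sin_third_add
    rw [le_div_iff₀ hlR]
    nlinarith [mul_nonneg hy0.le hρ0]
  have h7 : Real.sin (y * ρ / l) ≤ y * ρ / l := Real.sin_le (by positivity)
  have h8 : 2 * (Real.sin A * Real.cos (A - y * ρ / l)) ≤
      √3 / 2 + y * (l / 3 - s + 3 / 2 * r) / l := by
    rw [h5]
    have e5 : √3 / 2 + (y * (2 / 3 * l - 2 * s + ρ) / l) / 2 + y * ρ / l =
        √3 / 2 + y * (l / 3 - s + 3 / 2 * ρ) / l := by
      field_simp; ring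
    have h9 : y * (l / 3 - s + 3 / 2 * ρ) / l ≤ y * (l / 3 - s + 3 / 2 * r) / l := by
      apply div_le_div_of_nonneg_right _ hlR.le
      apply mul_le_mul_of_nonneg_left _ hy0.le
      linarith
    linarith
  have h10 : Real.cos (ang φ v) * ‖hat B χ‖ * Real.sin y ≤
      l * (Real.sin A * Real.cos (A - y * ρ / l)) := by
    have := mul_le_mul_of_nonneg_right h1 hsin.le
    calc _ ≤ _ := this
      _ = _ := by field_simp
  have h11 : l * (2 * (Real.sin A * Real.cos (A - y * ρ / l))) ≤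
      l * (√3 / 2 + y * (l / 3 - s + 3 / 2 * r) / l) := mul_le_mul_of_nonneg_left h8 hlR.le
  have e6 : (l:ℝ) * (√3 / 2 + y * (l / 3 - s + 3 / 2 * r) / l) =
      √3 / 2 * l + y * (l / 3 - s + 3 / 2 * r) := by field_simp
  rw [e6] at h11
  nlinarith

end

end Pool.Agent.D1X
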