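import Mathlib
import Pool.Agent.Lib_helper22.SCHD.T3Sh
import Pool.Agent.Lib_helper26.SCH.LayBd

/-!
# Linear programs for the level sizes
-/

set_option autoImplicit false
set_option linter.unusedSectionVars false

namespace Pool.Agent.D1X

open Finset Pool.Agent.GL Pool.Agent.Lib_helper42.RS Pool.Agent.Lib_helper13.PL Pool.Agent.SCH

universe u

section
variable {G : Type u} [AddCommGroup G] [Fintype G] [DecidableEq G]

lemma rM_neg (B : Finset G) (v : G) : rM B (-v) = rM B v := by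
  unfold rM
  refine Finset.card_bij (fun x _ => x + -v) ?_ ?_ ?_
  · intro x hx
    obtain ⟨h1, h2⟩ := Finset.mem_filter.mp hx
    refine Finset.mem_filter.mpr ⟨h2, ?_⟩
    rw [neg_add_cancel_right]; exact h1
  · intro x _ y _ hxy; exact add_left_injective (-v) hxy
  · intro y hy
    obtain ⟨h1, h2⟩ := Finset.mem_filter.mp hy
    refine ⟨y + v, Finset.mem_filter.mpr ⟨h2, ?_⟩, by simp⟩
    rw [add_neg_cancel_right]; exact h1

lemma rr_rM (B : Finset G) (v : G) : rr Bᶜ v = (rM B v : ℤ) := by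
  unfold rr rM ind
  rw [Finset.card_filter]
  push_cast
  rw [← Finset.sum_filter_add_sum_filter_not (univ : Finset G) (fun x => x ∈ Bᶜ)]
  have h1 : ∑ x ∈ univ.filter (fun x => ¬ x ∈ Bᶜ),
      (if x ∈ Bᶜ then (1:ℤ) else 0) * (if x + v ∈ Bᶜ then 1 else 0) = 0 := by
    apply Finset.sum_eq_zero
    intro x hx
    rw [if_neg (Finset.mem_filter.mp hx).2, zero_mul]
  rw [h1, add_zero]
  have h2 : univ.filter (fun x => x ∈ Bᶜ) = Bᶜ := by ext x; simp
  rw [h2]
  refine Finset.sum_congr rfl fun x hx => ?_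
  rw [if_pos hx, one_mul]

variable {m : ℕ} [NeZero m]

lemma re_lv (hm : 2 ≤ m) {χ : AddChar G ℂ} {φ : G →+ ZMod m}
    (h : Std χ φ) (hφ : Function.Surjective φ) (B : Finset G) :
    (hat B χ).re = ∑ j : ZMod m, (lv φ Bᶜ j : ℝ) * (-Real.cos (2 * Real.pi * j.valMinAbs / m)) := by
  have h0 := cos_zero_sum hm h hφ
  rw [hat_re_eq B h]
  have h1 := Finset.sum_add_sum_compl B (fun x => Real.cos (2 * Real.pi * (φ x).valMinAbs / m))
  rw [h0] at h1
  have h2 : ∑ x ∈ Bᶜ, Real.cos (2 * Real.pi * (φ x).valMinAbs / m) =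
      ∑ j : ZMod m, (lv φ Bᶜ j : ℝ) * Real.cos (2 * Real.pi * j.valMinAbs / m) := by
    rw [← Finset.sum_fiberwise_of_maps_to (s := Bᶜ) (t := univ) (g := φ)
      (fun x _ => mem_univ _)]
    refine Finset.sum_congr rfl fun j _ => ?_
    have h3 : ∀ x ∈ Bᶜ.filter (fun x => φ x = j),
        Real.cos (2 * Real.pi * (φ x).valMinAbs / m) = Real.cos (2 * Real.pi * j.valMinAbs / m) := by
      intro x hx
      rw [(Finset.mem_filter.mp hx).2]
    rw [Finset.sum_congr rfl h3, Finset.sum_const, nsmul_eq_mul]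
    rfl
  have h4 : ∑ j : ZMod m, (lv φ Bᶜ j : ℝ) * (-Real.cos (2 * Real.pi * j.valMinAbs / m)) =
      -∑ j : ZMod m, (lv φ Bᶜ j : ℝ) * Real.cos (2 * Real.pi * j.valMinAbs / m) := by
    rw [← Finset.sum_neg_distrib]
    exact Finset.sum_congr rfl fun j _ => by ring
  rw [h4]
  linarith

/-- one constraint -/
lemma lp_one (a lam : ZMod m → ℤ) (p : ZMod m) {h L r : ℤ} (h0 : ∀ j, 0 ≤ lam j)
    (hL : ∀ j, lam j ≤ L) (hr : ∑ j, max 0 (a j + a (j + p) - h) ≤ r) (hL0 : 0 ≤ L) :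
    ∑ j, a j * (lam j + lam (j - p)) ≤ h * ∑ j, lam j + L * r := by
  have h1 : ∑ j, a j * lam (j - p) = ∑ j, a (j + p) * lam j := by
    refine (Fintype.sum_equiv (Equiv.addRight p) _ _ fun j => ?_).symm
    simp
  have h2 : ∑ j, a j * (lam j + lam (j - p)) = ∑ j, lam j * (a j + a (j + p)) := by
    have : ∀ j, a j * (lam j + lam (j - p)) = a j * lam j + a j * lam (j - p) := fun j => by ring
    rw [Finset.sum_congr rfl fun j _ => this j, Finset.sum_add_distrib, h1,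
      ← Finset.sum_add_distrib]
    exact Finset.sum_congr rfl fun j _ => by ring
  rw [h2]
  have h3 : ∀ j, lam j * (a j + a (j + p)) ≤ h * lam j + L * max 0 (a j + a (j + p) - h) := by
    intro j
    have h4 : a j + a (j + p) - h ≤ max 0 (a j + a (j + p) - h) := le_max_right _ _
    have h5 : 0 ≤ max 0 (a j + a (j + p) - h) := le_max_left _ _
    have h6 := mul_le_mul_of_nonneg_left h4 (h0 j)
    have h7 := mul_le_mul_of_nonneg_right (hL j) h5
    linarith
  refine (Finset.sum_le_sum fun j _ => h3 j).trans ?_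
  rw [Finset.sum_add_distrib, ← Finset.mul_sum, ← Finset.mul_sum]
  have := mul_le_mul_of_nonneg_left hr hL0
  linarith

/-- **linear programming bound** for the real part, scaled by 10000 -/
theorem lp_main (hm : 2 ≤ m) {χ : AddChar G ℂ} {φ : G →+ ZMod m}
    (h : Std χ φ) (hφ : Function.Surjective φ) (B : Finset G) (T : ℕ → ℤ)
    (hT : ∀ t : ℕ, 2 * t ≤ m → -Real.cos (2 * Real.pi * t / m) * 10000 ≤ (T t : ℝ))
    (lam lam' : ZMod m → ℤ) (p p' : ZMod m) {τ L L' : ℤ}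
    (h0 : ∀ j, 0 ≤ lam j) (h0' : ∀ j, 0 ≤ lam' j) (hL : ∀ j, lam j ≤ L) (hL' : ∀ j, lam' j ≤ L')
    (hc : ∀ j, lv φ Bᶜ j = 0 ∨ T j.valMinAbs.natAbs ≤
      τ + (lam j + lam (j - p)) + (lam' j + lam' (j - p')))
    {v w : G} (hv : φ v = p) (hw : φ w = p') :
    (hat B χ).re * 10000 ≤ ((τ * (Bᶜ).card + Nat.card φ.ker * (∑ j, lam j + ∑ j, lam' j) +
      L * rM B v + L' * rM B w : ℤ) : ℝ) := by
  have hm0 : (0 : ℝ) < m := by have := NeZero.pos m; exact_mod_cast this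
  have hL0 : 0 ≤ L := (h0 0).trans (hL 0)
  have hL0' : 0 ≤ L' := (h0' 0).trans (hL' 0)
  have h1 := rr_lv φ hφ Bᶜ v
  have h2 := rr_lv φ hφ Bᶜ w
  rw [rr_rM, hv] at h1
  rw [rr_rM, hw] at h2
  have g1 := lp_one (fun j => (lv φ Bᶜ j : ℤ)) lam p h0 hL h1 hL0
  have g2 := lp_one (fun j => (lv φ Bᶜ j : ℤ)) lam' p' h0' hL' h2 hL0'
  have h3 : ∑ j : ZMod m, (lv φ Bᶜ j : ℤ) * T j.valMinAbs.natAbs ≤
      τ * (Bᶜ).card + Nat.card φ.ker * (∑ j, lam j + ∑ j, lam' j) +
      L * rM B v + L' * rM B w := by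
    have h4 : ∀ j : ZMod m, (lv φ Bᶜ j : ℤ) * T j.valMinAbs.natAbs ≤
        (lv φ Bᶜ j : ℤ) * τ + (lv φ Bᶜ j : ℤ) * (lam j + lam (j - p)) +
          (lv φ Bᶜ j : ℤ) * (lam' j + lam' (j - p')) := by
      intro j
      rcases hc j with hj | hj
      · rw [hj]; simp
      · have := mul_le_mul_of_nonneg_left hj (by positivity : (0:ℤ) ≤ (lv φ Bᶜ j : ℤ))
        linarith
    refine (Finset.sum_le_sum fun j _ => h4 j).trans ?_
    rw [Finset.sum_add_distrib, Finset.sum_add_distrib, ← Finset.sum_mul, sum_lv]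
    linarith
  have h5 : (hat B χ).re * 10000 ≤
      ((∑ j : ZMod m, (lv φ Bᶜ j : ℤ) * T j.valMinAbs.natAbs : ℤ) : ℝ) := by
    rw [re_lv hm h hφ B, Finset.sum_mul]
    push_cast
    refine Finset.sum_le_sum fun j _ => ?_
    have h6 := hT j.valMinAbs.natAbs (by have := ZMod.natAbs_valMinAbs_le j; omega)
    have h7 : Real.cos (2 * Real.pi * j.valMinAbs / m) =
        Real.cos (2 * Real.pi * (j.valMinAbs.natAbs : ℝ) / m) := by
      rw [← Real.cos_abs (2 * Real.pi * j.valMinAbs / m)]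
      congr 1
      rw [abs_div, abs_mul, abs_of_pos (by positivity : (0:ℝ) < 2 * Real.pi), abs_of_pos hm0,
        Nat.cast_natAbs]
      push_cast
      rfl
    rw [h7]
    have h8 := mul_le_mul_of_nonneg_left h6 (by positivity : (0:ℝ) ≤ (lv φ Bᶜ j : ℝ))
    linarith
  refine h5.trans ?_
  exact_mod_cast h3

end

end Pool.Agent.D1X
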