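import Mathlib
import Pool.Agent.Lib_helper22.SCHD.Core

/-!
# Real inequalities for the levels inside `B` above `2/3`
-/

set_option autoImplicit false
set_option linter.unusedSectionVars false

namespace Pool.Agent.D1X

/-- the lower bound for the real part -/
lemma need {k h s F R c : ℝ} (hk : 1 ≤ k) (hh : 0 < h) (hs0 : 0 ≤ s) (hs1 : s ≤ h)
    (hfou : ((3 * k + 1) * h) * (F + 3 * ((2 * k + 1) * h - s) ^ 2) ≤
      4 * ((2 * k + 1) * h - s) ^ 3 +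
      4 * R * (((3 * k + 1) * h) * ((2 * k + 1) * h - s) - ((2 * k + 1) * h - s) ^ 2))
    (hF : (h - s) * (h - 5 * s) < F)
    (hc : (h * (k / 2 - 1 / 4) + c * s) * ((k * h + s) * ((2 * k + 1) * h - s)) ≤
      k ^ 3 * h ^ 3 + 3 * k ^ 2 * h ^ 2 * s - h * s ^ 2 + s ^ 3) :
    h * (k / 2 - 1 / 4) + c * s < R := by
  by_contra hcon
  push Not at hcon
  have ha : 0 < k * h + s := by nlinarith
  have hb : 0 < (2 * k + 1) * h - s := by nlinarith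
  have e1 : ((3 * k + 1) * h) * ((2 * k + 1) * h - s) - ((2 * k + 1) * h - s) ^ 2 =
      (k * h + s) * ((2 * k + 1) * h - s) := by ring
  rw [e1] at hfou
  have h1 : R * ((k * h + s) * ((2 * k + 1) * h - s)) ≤
      (h * (k / 2 - 1 / 4) + c * s) * ((k * h + s) * ((2 * k + 1) * h - s)) :=
    mul_le_mul_of_nonneg_right hcon (mul_pos ha hb).le
  have hn : 0 < (3 * k + 1) * h := by nlinarith
  have h2 : ((3 * k + 1) * h) * ((h - s) * (h - 5 * s)) < ((3 * k + 1) * h) * F :=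
    mul_lt_mul_of_pos_left hF hn
  have e2 : ((3 * k + 1) * h) * ((h - s) * (h - 5 * s)) +
      ((3 * k + 1) * h) * (3 * ((2 * k + 1) * h - s) ^ 2) - 4 * ((2 * k + 1) * h - s) ^ 3 =
      4 * (k ^ 3 * h ^ 3 + 3 * k ^ 2 * h ^ 2 * s - h * s ^ 2 + s ^ 3) := by ring
  have e3 : 4 * R * ((k * h + s) * ((2 * k + 1) * h - s)) =
    4 * (R * ((k * h + s) * ((2 * k + 1) * h - s))) := by ring
  rw [e3, mul_add] at hfou
  linarith

lemma need_six {k h s F R : ℝ} (hk : 6 ≤ k) (hh : 0 < h) (hs0 : 0 ≤ s) (hs1 : 3 * s ≤ h)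
    (hfou : ((3 * k + 1) * h) * (F + 3 * ((2 * k + 1) * h - s) ^ 2) ≤
      4 * ((2 * k + 1) * h - s) ^ 3 +
      4 * R * (((3 * k + 1) * h) * ((2 * k + 1) * h - s) - ((2 * k + 1) * h - s) ^ 2))
    (hF : (h - s) * (h - 5 * s) < F) :
    h * (k / 2 - 1 / 4) + 41 / 36 * s < R := by
  refine need (by linarith) hh hs0 (by linarith) hfou hF ?_
  rw [← sub_nonneg]
  have e : k ^ 3 * h ^ 3 + 3 * k ^ 2 * h ^ 2 * s - h * s ^ 2 + s ^ 3 -
      (h * (k / 2 - 1 / 4) + 41 / 36 * s) * ((k * h + s) * ((2 * k + 1) * h - s)) =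
      h * (h ^ 2 * (k / 4) - s ^ 2 * (23 * k / 36 + 86 / 36)) +
      h ^ 2 * s * (2 / 9 * k ^ 2 - 25 / 18 * k + 1 / 4) + 77 / 36 * s ^ 3 := by ring
  rw [e]
  have h1 : 0 ≤ s ^ 3 := pow_nonneg hs0 3
  have h2 : -(1 / 12) ≤ 2 / 9 * k ^ 2 - 25 / 18 * k + 1 / 4 := by nlinarith
  have h3 : h ^ 2 * s * (-(1 / 12)) ≤ h ^ 2 * s * (2 / 9 * k ^ 2 - 25 / 18 * k + 1 / 4) :=
    mul_le_mul_of_nonneg_left h2 (by positivity)
  have h4 : s ^ 2 ≤ h ^ 2 / 9 := by nlinarith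
  have h5 : s ^ 2 * (23 * k / 36 + 86 / 36) ≤ h ^ 2 / 9 * (23 * k / 36 + 86 / 36) :=
    mul_le_mul_of_nonneg_right h4 (by linarith)
  have h6 : h ^ 2 * (1 / 2) ≤ h ^ 2 * (k / 4) - h ^ 2 / 9 * (23 * k / 36 + 86 / 36) := by
    have : 0 ≤ h ^ 2 * (k / 4 - 1 / 9 * (23 * k / 36 + 86 / 36) - 1 / 2) := by
      apply mul_nonneg (sq_nonneg h); linarith
    linarith
  have h7 : h * (h ^ 2 * (1 / 2)) ≤ h * (h ^ 2 * (k / 4) - s ^ 2 * (23 * k / 36 + 86 / 36)) :=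
    mul_le_mul_of_nonneg_left (by linarith) hh.le
  have h8 : h ^ 2 * s ≤ h ^ 2 * h := mul_le_mul_of_nonneg_left (by linarith) (sq_nonneg h)
  have h9 : 0 ≤ h ^ 3 := by positivity
  nlinarith

lemma need_four {k h s F R : ℝ} (hk : 4 ≤ k) (hh : 0 < h) (hs0 : 0 ≤ s) (hs1 : s ≤ h)
    (hfou : ((3 * k + 1) * h) * (F + 3 * ((2 * k + 1) * h - s) ^ 2) ≤
      4 * ((2 * k + 1) * h - s) ^ 3 +
      4 * R * (((3 * k + 1) * h) * ((2 * k + 1) * h - s) - ((2 * k + 1) * h - s) ^ 2))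
    (hF : (h - s) * (h - 5 * s) < F) :
    h * (k / 2 - 1 / 4) + 1 * s < R := by
  refine need (by linarith) hh hs0 (by linarith) hfou hF ?_
  rw [← sub_nonneg]
  have e : k ^ 3 * h ^ 3 + 3 * k ^ 2 * h ^ 2 * s - h * s ^ 2 + s ^ 3 -
      (h * (k / 2 - 1 / 4) + 1 * s) * ((k * h + s) * ((2 * k + 1) * h - s)) =
      h ^ 3 * (k / 4) + h * s * (h * (k ^ 2 / 2 - 5 / 4 * k + 1 / 4) - s * (k / 2 + 9 / 4)) +
      2 * s ^ 3 := by ring
  rw [e]
  have h1 : 0 ≤ s ^ 3 := pow_nonneg hs0 3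
  have h2 : s * (k / 2 + 9 / 4) ≤ h * (k / 2 + 9 / 4) :=
    mul_le_mul_of_nonneg_right hs1 (by linarith)
  have h3 : -h ≤ h * (k ^ 2 / 2 - 5 / 4 * k + 1 / 4) - s * (k / 2 + 9 / 4) := by
    have : 0 ≤ h * (k ^ 2 / 2 - 5 / 4 * k + 1 / 4 - (k / 2 + 9 / 4) + 1) := by
      apply mul_nonneg hh.le; nlinarith
    linarith
  have h4 : h * s * (-h) ≤ h * s * (h * (k ^ 2 / 2 - 5 / 4 * k + 1 / 4) - s * (k / 2 + 9 / 4)) :=
    mul_le_mul_of_nonneg_left h3 (by positivity)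
  have h5 : h ^ 3 * 1 ≤ h ^ 3 * (k / 4) := by
    apply mul_le_mul_of_nonneg_left _ (by positivity); linarith
  have h6 : h ^ 2 * s ≤ h ^ 2 * h := mul_le_mul_of_nonneg_left hs1 (sq_nonneg h)
  nlinarith

lemma need_two {h s F R : ℝ} (hh : 0 < h) (hs0 : 0 ≤ s) (hs1 : 3 * s ≤ h)
    (hfou : ((3 * 2 + 1) * h) * (F + 3 * ((2 * 2 + 1) * h - s) ^ 2) ≤
      4 * ((2 * 2 + 1) * h - s) ^ 3 +
      4 * R * (((3 * 2 + 1) * h) * ((2 * 2 + 1) * h - s) - ((2 * 2 + 1) * h - s) ^ 2))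
    (hF : (h - s) * (h - 5 * s) < F) :
    h * (2 / 2 - 1 / 4) + 11 / 12 * s < R := by
  refine need (k := 2) (by norm_num) hh hs0 (by linarith) hfou hF ?_
  rw [← sub_nonneg]
  have e : (2:ℝ) ^ 3 * h ^ 3 + 3 * 2 ^ 2 * h ^ 2 * s - h * s ^ 2 + s ^ 3 -
      (h * (2 / 2 - 1 / 4) + 11 / 12 * s) * ((2 * h + s) * ((2 * 2 + 1) * h - s)) =
      h * (1 / 2 * h ^ 2 + 7 / 12 * (h * s) - 3 * s ^ 2) + 23 / 12 * s ^ 3 := by ring
  rw [e]
  have h1 : 0 ≤ s ^ 3 := pow_nonneg hs0 3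
  have h3 : 0 ≤ h * (1 / 2 * h ^ 2 + 7 / 12 * (h * s) - 3 * s ^ 2) := by
    apply mul_nonneg hh.le; nlinarith
  linarith

lemma need_k4 {h s F R : ℝ} (hh : 0 < h) (hs0 : 0 ≤ s) (hs1 : 3 * s ≤ h)
    (hfou : ((3 * 4 + 1) * h) * (F + 3 * ((2 * 4 + 1) * h - s) ^ 2) ≤
      4 * ((2 * 4 + 1) * h - s) ^ 3 +
      4 * R * (((3 * 4 + 1) * h) * ((2 * 4 + 1) * h - s) - ((2 * 4 + 1) * h - s) ^ 2))
    (hF : (h - s) * (h - 5 * s) < F) :
    h * (4 / 2 - 1 / 4) + 13 / 12 * s < R := by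
  refine need (k := 4) (by norm_num) hh hs0 (by linarith) hfou hF ?_
  rw [← sub_nonneg]
  have h1 : 0 ≤ s ^ 3 := pow_nonneg hs0 3
  have h2 : 0 ≤ h * s := by positivity
  have h3 : 0 ≤ h ^ 2 * s := by positivity
  have h4 : 0 ≤ h * s * (h - 3 * s) := mul_nonneg h2 (by linarith)
  have h5 : 0 ≤ h ^ 2 * (h - 3 * s) := mul_nonneg (sq_nonneg h) (by linarith)
  nlinarith

/-- lower bound of `cos (π / 6 - z)` -/
lemma cos_sixth {z : ℝ} (h0 : 0 ≤ z) (h1 : z ≤ 1) :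
    √3 / 2 + z / 2 - √3 / 4 * z ^ 2 - z ^ 3 / 12 - z ^ 5 / 200 ≤ Real.cos (Real.pi / 6 - z) := by
  rw [Real.cos_sub, Real.cos_pi_div_six, Real.sin_pi_div_six]
  have h2 := Real.one_sub_sq_div_two_le_cos (x := z)
  have h3 := sin_ge_q h0 h1
  have h4 : (0:ℝ) ≤ √3 / 2 := by positivity
  have h5 := mul_le_mul_of_nonneg_left h2 h4
  linarith

lemma sqrt3_b : (1.732 : ℝ) ≤ √3 ∧ √3 ≤ 1.7321 := by
  constructor
  · apply Real.le_sqrt_of_sq_le; norm_num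
  · rw [Real.sqrt_le_left (by norm_num)]; norm_num

/-- the product `(sin y / y) cos (π / 6 - y / 6)` -/
lemma prod_low {y : ℝ} (h0 : 0 < y) (h1 : y ≤ 0.1654) :
    y * (√3 / 2 + y / 12 - 0.1593 * y ^ 2) ≤
      Real.sin y * Real.cos (Real.pi / 6 - y / 6) := by
  have hc := cos_sixth (z := y / 6) (by linarith) (by linarith)
  have hs := sin_ge_q h0.le (by linarith : y ≤ 1)
  obtain ⟨t0, t1⟩ := sqrt3_b
  have hy2 : 0 ≤ y ^ 2 := sq_nonneg y
  have hy3 : y ^ 3 ≤ 0.1654 * y ^ 2 := by nlinarith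
  have hy4 : y ^ 4 ≤ 0.0274 * y ^ 2 := by nlinarith
  have hy5 : y ^ 5 ≤ 0.0274 * y ^ 3 := by
    have : 0 ≤ y ^ 3 := by positivity
    nlinarith
  have hy30 : 0 ≤ y ^ 3 := by positivity
  have hq : √3 / 2 + y / 12 - 0.0122 * y ^ 2 ≤ Real.cos (Real.pi / 6 - y / 6) := by
    refine le_trans ?_ hc
    have e1 : √3 / 4 * (y / 6) ^ 2 = √3 * y ^ 2 / 144 := by ring
    have e2 : (y / 6) ^ 3 / 12 = y ^ 3 / 2592 := by ring
    have e3 : (y / 6) ^ 5 / 200 = y ^ 5 / 1555200 := by ring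
    rw [e1, e2, e3]
    have h4 : √3 * y ^ 2 ≤ 1.7321 * y ^ 2 := mul_le_mul_of_nonneg_right t1 hy2
    linarith
  have hsy : y * (1 - 0.16697 * y ^ 2) ≤ Real.sin y := by
    refine le_trans ?_ hs
    nlinarith
  have hq0 : 0 ≤ √3 / 2 + y / 12 - 0.0122 * y ^ 2 := by nlinarith
  have hmul := mul_le_mul hsy hq hq0 (Real.sin_nonneg_of_nonneg_of_le_pi h0.le
    (by linarith [Real.pi_gt_d4]))
  refine le_trans ?_ hmul
  have e : y * (1 - 0.16697 * y ^ 2) * (√3 / 2 + y / 12 - 0.0122 * y ^ 2) =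
    y * (√3 / 2 + y / 12 - 0.0122 * y ^ 2 - 0.16697 * y ^ 2 * (√3 / 2 + y / 12 - 0.0122 * y ^ 2)) :=
    by ring
  rw [e]
  apply mul_le_mul_of_nonneg_left _ h0.le
  have h5 : √3 / 2 + y / 12 - 0.0122 * y ^ 2 ≤ 0.8799 := by linarith
  have h6 := mul_le_mul_of_nonneg_left h5 (by positivity : 0 ≤ 0.16697 * y ^ 2)
  linarith

/-- the final inequality, order smaller than the exponent, `k ≥ 6` -/
lemma fin_A {y k h s r N : ℝ} (hy : y * (3 * k + 1) = Real.pi) (hk : 6 ≤ k) (hh : 0 < h)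
    (hs0 : 2 * h ≤ 7 * s) (hr : 21 * r ≤ h)
    (hup : 2 * Real.sin y * Real.cos (Real.pi / 6 - y / 6) * N ≤
      √3 / 2 * h + y * (h / 3 - s + 3 / 2 * r))
    (hN : h * (k / 2 - 1 / 4) + 41 / 36 * s < N) : False := by
  obtain ⟨t0, t1⟩ := sqrt3_b
  have p0 := Real.pi_gt_d4
  have p1 := Real.pi_lt_d4
  have hy0 : 0 < y := by
    by_contra hc
    push Not at hc
    have : y * (3 * k + 1) ≤ 0 := mul_nonpos_of_nonpos_of_nonneg hc (by linarith)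
    linarith
  have hy1 : y ≤ 0.1654 := by nlinarith
  have hP := prod_low hy0 hy1
  set P := Real.sin y * Real.cos (Real.pi / 6 - y / 6) with hPdef
  have hy2 : y ^ 2 ≤ 0.02736 := by nlinarith
  have hq0 : 0 < √3 / 2 + y / 12 - 0.1593 * y ^ 2 := by nlinarith
  have hP0 : 0 < P := lt_of_lt_of_le (mul_pos hy0 hq0) hP
  have h1 : 2 * P * (h * (k / 2 - 1 / 4) + 41 / 36 * s) < 2 * P * N :=
    mul_lt_mul_of_pos_left hN (by linarith)
  have e1 : 2 * P * N = 2 * Real.sin y * Real.cos (Real.pi / 6 - y / 6) * N := by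
    rw [hPdef]; ring
  rw [e1] at h1
  have hN0 : 0 ≤ h * (k / 2 - 1 / 4) + 41 / 36 * s := by
    have : 0 ≤ h * (k / 2 - 1 / 4) := mul_nonneg hh.le (by linarith)
    linarith
  have h2 : 2 * (y * (√3 / 2 + y / 12 - 0.1593 * y ^ 2)) * (h * (k / 2 - 1 / 4) + 41 / 36 * s) ≤
      2 * P * (h * (k / 2 - 1 / 4) + 41 / 36 * s) := by
    apply mul_le_mul_of_nonneg_right _ hN0
    linarith
  have e2 : 2 * (y * (√3 / 2 + y / 12 - 0.1593 * y ^ 2)) * (h * (k / 2 - 1 / 4) + 41 / 36 * s) =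
      (√3 / 2 + y / 12 - 0.1593 * y ^ 2) * (h * (Real.pi / 3 - 5 / 6 * y) + 41 / 18 * (y * s)) := by
    have : Real.pi / 3 - 5 / 6 * y = y * k - y / 2 := by linear_combination (-1 / 3) * hy
    rw [this]; ring
  rw [e2] at h2
  set q := √3 / 2 + y / 12 - 0.1593 * y ^ 2 with hq
  -- reduce to `s = 2 h / 7`
  have h3 : q * (h * (Real.pi / 3 - 5 / 6 * y) + 41 / 18 * (y * (2 / 7 * h))) + y * (s - 2 / 7 * h) ≤
      q * (h * (Real.pi / 3 - 5 / 6 * y) + 41 / 18 * (y * s)) + y * (s - 2 / 7 * h) := by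
    have : q * (41 / 18 * (y * (2 / 7 * h))) ≤ q * (41 / 18 * (y * s)) := by
      apply mul_le_mul_of_nonneg_left _ hq0.le
      have : y * (2 / 7 * h) ≤ y * s := mul_le_mul_of_nonneg_left (by linarith) hy0.le
      linarith
    linarith
  have h4 : y * (s - 2 / 7 * h) ≥ 0 := mul_nonneg hy0.le (by linarith)
  have h5 : y * r ≤ y * (h / 21) := mul_le_mul_of_nonneg_left (by linarith) hy0.le
  have h6 : q * (h * (Real.pi / 3 - 5 / 6 * y) + 41 / 18 * (y * (2 / 7 * h))) <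
      √3 / 2 * h + y * (5 / 42 * h) := by
    have e3 : y * (h / 3 - s + 3 / 2 * r) + y * (s - 2 / 7 * h) = y * (1 / 21 * h) + 3 / 2 * (y * r) := by
      ring
    have e4 : y * (5 / 42 * h) = y * (1 / 21 * h) + 3 / 2 * (y * (h / 21)) := by ring
    linarith
  have e5 : q * (h * (Real.pi / 3 - 5 / 6 * y) + 41 / 18 * (y * (2 / 7 * h))) =
      h * (q * (Real.pi / 3 - 23 / 126 * y)) := by ring
  rw [e5] at h6
  have h7 : q * (Real.pi / 3 - 23 / 126 * y) < √3 / 2 + 5 / 42 * y := by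
    by_contra hc
    push Not at hc
    have := mul_le_mul_of_nonneg_left hc hh.le
    linarith
  have h8 : q * (1.04716 - 23 / 126 * y) ≤ q * (Real.pi / 3 - 23 / 126 * y) := by
    apply mul_le_mul_of_nonneg_left _ hq0.le
    linarith
  have h9 : √3 / 2 + 5 / 42 * y ≤ q * (1.04716 - 23 / 126 * y) := by
    rw [hq, ← sub_nonneg]
    have e6 : (√3 / 2 + y / 12 - 0.1593 * y ^ 2) * (1.04716 - 23 / 126 * y) -
        (√3 / 2 + 5 / 42 * y) = √3 * (0.02358 - 23 / 252 * y) +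
        y * (1.04716 / 12 - 5 / 42) - y ^ 2 * (0.1593 * 1.04716 + 23 / 1512) +
        0.1593 * 23 / 126 * y ^ 3 := by ring
    rw [e6]
    have h10 : 0 ≤ y ^ 3 := by positivity
    have h11 : 1.732 * (0.02358 - 23 / 252 * y) ≤ √3 * (0.02358 - 23 / 252 * y) :=
      mul_le_mul_of_nonneg_right t0 (by linarith)
    nlinarith
  linarith

/-- the final inequality, order equal to the exponent, `k ≥ 30` -/
lemma fin_B {y k h s r N : ℝ} (hy : y * (3 * k + 1) = Real.pi) (hk : 30 ≤ k) (hh : 0 < h)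
    (hs0 : 0 ≤ s) (hr : r ≤ s)
    (hup : 2 * Real.sin y * Real.cos (Real.pi / 6 - y / 6) * N ≤
      √3 / 2 * h + y * (h / 3 - s + 3 / 2 * r))
    (hN : h * (k / 2 - 1 / 4) + 1 * s < N) : False := by
  obtain ⟨t0, t1⟩ := sqrt3_b
  have p0 := Real.pi_gt_d4
  have p1 := Real.pi_lt_d4
  have hy0 : 0 < y := by
    by_contra hc
    push Not at hc
    have : y * (3 * k + 1) ≤ 0 := mul_nonpos_of_nonpos_of_nonneg hc (by linarith)
    linarith
  have hy1 : y ≤ 0.03453 := by nlinarith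
  have hP := prod_low hy0 (by linarith)
  set P := Real.sin y * Real.cos (Real.pi / 6 - y / 6) with hPdef
  have hy2 : y ^ 2 ≤ 0.00120 := by nlinarith
  have hq0 : 0 < √3 / 2 + y / 12 - 0.1593 * y ^ 2 := by nlinarith
  have hP0 : 0 < P := lt_of_lt_of_le (mul_pos hy0 hq0) hP
  have h1 : 2 * P * (h * (k / 2 - 1 / 4) + 1 * s) < 2 * P * N :=
    mul_lt_mul_of_pos_left hN (by linarith)
  have e1 : 2 * P * N = 2 * Real.sin y * Real.cos (Real.pi / 6 - y / 6) * N := by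
    rw [hPdef]; ring
  rw [e1] at h1
  have hN0 : 0 ≤ h * (k / 2 - 1 / 4) + 1 * s := by
    have : 0 ≤ h * (k / 2 - 1 / 4) := mul_nonneg hh.le (by linarith)
    linarith
  have h2 : 2 * (y * (√3 / 2 + y / 12 - 0.1593 * y ^ 2)) * (h * (k / 2 - 1 / 4) + 1 * s) ≤
      2 * P * (h * (k / 2 - 1 / 4) + 1 * s) := by
    apply mul_le_mul_of_nonneg_right _ hN0
    linarith
  have e2 : 2 * (y * (√3 / 2 + y / 12 - 0.1593 * y ^ 2)) * (h * (k / 2 - 1 / 4) + 1 * s) =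
      (√3 / 2 + y / 12 - 0.1593 * y ^ 2) * (h * (Real.pi / 3 - 5 / 6 * y) + 2 * (y * s)) := by
    have : Real.pi / 3 - 5 / 6 * y = y * k - y / 2 := by linear_combination (-1 / 3) * hy
    rw [this]; ring
  rw [e2] at h2
  set q := √3 / 2 + y / 12 - 0.1593 * y ^ 2 with hq
  have hys : 0 ≤ y * s := mul_nonneg hy0.le hs0
  have hq1 : 1 / 4 ≤ q := by rw [hq]; linarith
  have h3 : 1 / 4 * (2 * (y * s)) ≤ q * (2 * (y * s)) :=
    mul_le_mul_of_nonneg_right hq1 (by linarith)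
  have h5 : y * r ≤ y * s := mul_le_mul_of_nonneg_left hr hy0.le
  have h6 : h * (q * (Real.pi / 3 - 5 / 6 * y)) < √3 / 2 * h + y * (h / 3) := by
    nlinarith
  have h7 : q * (Real.pi / 3 - 5 / 6 * y) < √3 / 2 + y / 3 := by
    by_contra hc
    push Not at hc
    have := mul_le_mul_of_nonneg_left hc hh.le
    linarith
  have h8 : q * (1.04716 - 5 / 6 * y) ≤ q * (Real.pi / 3 - 5 / 6 * y) := by
    apply mul_le_mul_of_nonneg_left _ hq0.le
    linarith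
  have h9 : √3 / 2 + y / 3 ≤ q * (1.04716 - 5 / 6 * y) := by
    rw [hq, ← sub_nonneg]
    have e6 : (√3 / 2 + y / 12 - 0.1593 * y ^ 2) * (1.04716 - 5 / 6 * y) -
        (√3 / 2 + y / 3) = 0.02358 * √3 - 5 / 12 * y * √3 +
        y * (1.04716 / 12 - 1 / 3) - y ^ 2 * (0.1593 * 1.04716 + 5 / 72) +
        0.1593 * 5 / 6 * y ^ 3 := by ring
    rw [e6]
    have h10 : 0 ≤ y ^ 3 := by positivity
    have h11 : y * √3 ≤ y * 1.7321 := mul_le_mul_of_nonneg_left t1 hy0.le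
    nlinarith
  linarith

/-- the final inequality with a lower bound `κ` of the cosine -/
lemma fin_C {y k h s r N κ c : ℝ} (hy : y * (3 * k + 1) = Real.pi) (hk : 4 ≤ k) (hh : 0 < h)
    (hs0 : 0 ≤ s) (hr0 : 0 ≤ N) (hκ0 : 0 < κ) (hκ : κ ≤ c)
    (hup : 2 * Real.sin y * c * N ≤ √3 / 2 * h + y * (h / 3 - s + 3 / 2 * r))
    (hN : h * (k / 2 - 1 / 4) + 1 * s < N)
    (hfin : √3 / 2 * h + y * (h / 3 - s + 3 / 2 * r) ≤
      (1 - y ^ 2 / 6 - y ^ 4 / 100) * κ * (h * (Real.pi / 3 - 5 / 6 * y) + 2 * (y * s))) : False := by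
  have p0 := Real.pi_gt_d4
  have p1 := Real.pi_lt_d4
  have hy0 : 0 < y := by
    by_contra hc
    push Not at hc
    have : y * (3 * k + 1) ≤ 0 := mul_nonpos_of_nonpos_of_nonneg hc (by linarith)
    linarith
  have hy1 : y ≤ 0.25 := by nlinarith
  have hs := sin_ge_q hy0.le (by linarith : y ≤ 1)
  have hy2 : y ^ 2 ≤ 0.0625 := by nlinarith
  have hy4 : y ^ 4 ≤ 0.0625 := by nlinarith [sq_nonneg y]
  have hpos : 0 < 1 - y ^ 2 / 6 - y ^ 4 / 100 := by linarith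
  have hsp : 0 < Real.sin y := by
    have : 0 < y * (1 - y ^ 2 / 6 - y ^ 4 / 100) := mul_pos hy0 hpos
    linarith
  have h1 : y * (1 - y ^ 2 / 6 - y ^ 4 / 100) * κ ≤ Real.sin y * c := by
    apply mul_le_mul _ hκ hκ0.le hsp.le
    linarith
  have hN0 : 0 ≤ h * (k / 2 - 1 / 4) + 1 * s := by
    have : 0 ≤ h * (k / 2 - 1 / 4) := mul_nonneg hh.le (by linarith)
    linarith
  have h2 : 0 < y * (1 - y ^ 2 / 6 - y ^ 4 / 100) * κ := mul_pos (mul_pos hy0 hpos) hκ0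
  have h3 : 2 * (y * (1 - y ^ 2 / 6 - y ^ 4 / 100) * κ) * (h * (k / 2 - 1 / 4) + 1 * s) <
      2 * (y * (1 - y ^ 2 / 6 - y ^ 4 / 100) * κ) * N :=
    mul_lt_mul_of_pos_left hN (by linarith)
  have h4 : 2 * (y * (1 - y ^ 2 / 6 - y ^ 4 / 100) * κ) * N ≤ 2 * (Real.sin y * c) * N := by
    apply mul_le_mul_of_nonneg_right _ hr0
    linarith
  have e2 : 2 * (y * (1 - y ^ 2 / 6 - y ^ 4 / 100) * κ) * (h * (k / 2 - 1 / 4) + 1 * s) =
      (1 - y ^ 2 / 6 - y ^ 4 / 100) * κ * (h * (Real.pi / 3 - 5 / 6 * y) + 2 * (y * s)) := by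
    have : Real.pi / 3 - 5 / 6 * y = y * k - y / 2 := by linear_combination (-1 / 3) * hy
    rw [this]; ring
  rw [e2] at h3
  have e3 : 2 * (Real.sin y * c) * N = 2 * Real.sin y * c * N := by ring
  rw [e3] at h4
  linarith

lemma cos7_low : (0.9005 : ℝ) ≤ Real.cos (Real.pi / 7) := by
  have hp := Real.pi_gt_d4
  have hp2 := Real.pi_lt_d4
  have e : Real.cos (Real.pi / 7) = 2 * Real.cos (Real.pi / 14) ^ 2 - 1 := by
    rw [← Real.cos_two_mul]; congr 1; ring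
  have h5 := Real.one_sub_sq_div_two_le_cos (x := Real.pi / 14)
  have h6 : (Real.pi / 14) ^ 2 ≤ (0.2244 : ℝ) ^ 2 :=
    pow_le_pow_left₀ (by linarith) (by linarith) 2
  have h7 : (0.97482 : ℝ) ≤ Real.cos (Real.pi / 14) := by norm_num at h6; linarith
  rw [e]
  nlinarith

lemma cos13_low : (0.9707 : ℝ) ≤ Real.cos (Real.pi / 13) := by
  have hp := Real.pi_gt_d4
  have hp2 := Real.pi_lt_d4
  have h5 := Real.one_sub_sq_div_two_le_cos (x := Real.pi / 13)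
  have h6 : (Real.pi / 13) ^ 2 ≤ (0.24167 : ℝ) ^ 2 :=
    pow_le_pow_left₀ (by linarith) (by linarith) 2
  norm_num at h6
  linarith

/-- order 49, levels at most 7 -/
lemma fin_49 {h s r N c : ℝ} (hh : 0 < h) (hs0 : 0 ≤ s) (hr : r ≤ s) (hN0 : 0 ≤ N)
    (hc : 0.9005 ≤ c)
    (hup : 2 * Real.sin (Real.pi / 49) * c * N ≤
      √3 / 2 * h + Real.pi / 49 * (h / 3 - s + 3 / 2 * r))
    (hN : h * (16 / 2 - 1 / 4) + 1 * s < N) : False := by
  obtain ⟨t0, t1⟩ := sqrt3_b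
  have p0 := Real.pi_gt_d4
  have p1 := Real.pi_lt_d4
  refine fin_C (y := Real.pi / 49) (k := 16) (κ := 0.9005) (by ring) (by norm_num) hh hs0 hN0
    (by norm_num) hc hup hN ?_
  set y := Real.pi / 49 with hy
  have hy0 : 0 < y := by positivity
  have hy1 : y ≤ 0.06413 := by rw [hy]; linarith
  have hy2 : y ^ 2 ≤ 0.00412 := by nlinarith
  have hy4 : y ^ 4 ≤ 0.0001 := by nlinarith [sq_nonneg y]
  have hys : 0 ≤ y * s := mul_nonneg hy0.le hs0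
  have h1 : y * r ≤ y * s := mul_le_mul_of_nonneg_left hr hy0.le
  have h2 : 0.9936 * h ≤ h * (Real.pi / 3 - 5 / 6 * y) := by
    have : 0 ≤ h * (Real.pi / 3 - 5 / 6 * y - 0.9936) := mul_nonneg hh.le (by linarith)
    linarith
  have h3 : 0.8998 ≤ (1 - y ^ 2 / 6 - y ^ 4 / 100) * 0.9005 := by nlinarith
  have h4 : 0.8998 * (0.9936 * h + 2 * (y * s)) ≤
      (1 - y ^ 2 / 6 - y ^ 4 / 100) * 0.9005 * (h * (Real.pi / 3 - 5 / 6 * y) + 2 * (y * s)) := by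
    apply mul_le_mul h3 (by linarith) (by positivity) (by linarith)
  refine le_trans ?_ h4
  have h5 : √3 * h ≤ 1.7321 * h := mul_le_mul_of_nonneg_right t1 hh.le
  have h6 : y * h ≤ 0.06413 * h := mul_le_mul_of_nonneg_right hy1 hh.le
  nlinarith

/-- order 13, levels at most 1 -/
lemma fin_13 {h s r N c : ℝ} (hh : 0 < h) (hs0 : 2 * h ≤ 7 * s) (hr : 21 * r ≤ h) (hN0 : 0 ≤ N)
    (hc : 0.9707 ≤ c)
    (hup : 2 * Real.sin (Real.pi / 13) * c * N ≤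
      √3 / 2 * h + Real.pi / 13 * (h / 3 - s + 3 / 2 * r))
    (hN : h * (4 / 2 - 1 / 4) + 1 * s < N) : False := by
  obtain ⟨t0, t1⟩ := sqrt3_b
  have p0 := Real.pi_gt_d4
  have p1 := Real.pi_lt_d4
  refine fin_C (y := Real.pi / 13) (k := 4) (κ := 0.9707) (by ring) (by norm_num) hh
    (by linarith) hN0 (by norm_num) hc hup hN ?_
  set y := Real.pi / 13 with hy
  have hy0 : 0 < y := by positivity
  have hy1 : y ≤ 0.24167 := by rw [hy]; linarith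
  have hy2 : y ^ 2 ≤ 0.0585 := by nlinarith
  have hy4 : y ^ 4 ≤ 0.0035 := by nlinarith [sq_nonneg y]
  have hys : 0 ≤ y * s := mul_nonneg hy0.le (by linarith)
  have h1 : y * r ≤ y * (h / 21) := mul_le_mul_of_nonneg_left (by linarith) hy0.le
  have h2 : 0.8457 * h ≤ h * (Real.pi / 3 - 5 / 6 * y) := by
    have : 0 ≤ h * (Real.pi / 3 - 5 / 6 * y - 0.8457) := mul_nonneg hh.le (by linarith)
    linarith
  have h3 : 0.96 ≤ (1 - y ^ 2 / 6 - y ^ 4 / 100) * 0.9707 := by nlinarith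
  have h4 : 0.96 * (0.8457 * h + 2 * (y * s)) ≤
      (1 - y ^ 2 / 6 - y ^ 4 / 100) * 0.9707 * (h * (Real.pi / 3 - 5 / 6 * y) + 2 * (y * s)) := by
    apply mul_le_mul h3 (by linarith) (by positivity) (by linarith)
  refine le_trans ?_ h4
  have h5 : √3 * h ≤ 1.7321 * h := mul_le_mul_of_nonneg_right t1 hh.le
  have h6 : y * h ≤ 0.24167 * h := mul_le_mul_of_nonneg_right hy1 hh.le
  have h7 : y * (2 * h) ≤ y * (7 * s) := mul_le_mul_of_nonneg_left hs0 hy0.le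
  nlinarith

/-- the kernel, `k ≥ 10` -/
lemma fin_D {y k h s r N : ℝ} (hy : y * (3 * k + 1) = Real.pi) (hk : 10 ≤ k) (hh : 0 < h)
    (hs0 : 0 ≤ s) (hr : r ≤ s) (hN0 : 0 ≤ N)
    (hup : 2 * Real.sin y * 1 * N ≤ √3 / 2 * h + y * (h / 3 - s + 3 / 2 * r))
    (hN : h * (k / 2 - 1 / 4) + 1 * s < N) : False := by
  obtain ⟨t0, t1⟩ := sqrt3_b
  have p0 := Real.pi_gt_d4
  have p1 := Real.pi_lt_d4
  refine fin_C hy (by linarith) hh hs0 hN0 (κ := 1) (by norm_num) le_rfl hup hN ?_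
  have hy0 : 0 < y := by
    by_contra hc
    push Not at hc
    have : y * (3 * k + 1) ≤ 0 := mul_nonpos_of_nonpos_of_nonneg hc (by linarith)
    linarith
  have hy1 : y ≤ 0.1014 := by nlinarith
  have hy2 : y ^ 2 ≤ 0.0103 := by nlinarith
  have hy4 : y ^ 4 ≤ 0.0003 := by nlinarith [sq_nonneg y]
  have hys : 0 ≤ y * s := mul_nonneg hy0.le hs0
  have h1 : y * r ≤ y * s := mul_le_mul_of_nonneg_left hr hy0.le
  have h2 : (1.0471 - 5 / 6 * y) * h ≤ h * (Real.pi / 3 - 5 / 6 * y) := by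
    have : 0 ≤ h * (Real.pi / 3 - 1.0471) := mul_nonneg hh.le (by linarith)
    linarith
  have h3 : 0.998 ≤ (1 - y ^ 2 / 6 - y ^ 4 / 100) * 1 := by linarith
  have h20 : 0 ≤ (1.0471 - 5 / 6 * y) * h := mul_nonneg (by linarith) hh.le
  have h4 : 0.998 * ((1.0471 - 5 / 6 * y) * h + 2 * (y * s)) ≤
      (1 - y ^ 2 / 6 - y ^ 4 / 100) * 1 * (h * (Real.pi / 3 - 5 / 6 * y) + 2 * (y * s)) := by
    apply mul_le_mul h3 (by linarith) (by positivity) (by linarith)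
  refine le_trans ?_ h4
  have h5 : √3 * h ≤ 1.7321 * h := mul_le_mul_of_nonneg_right t1 hh.le
  have h6 : y * h ≤ 0.1014 * h := mul_le_mul_of_nonneg_right hy1 hh.le
  nlinarith

end Pool.Agent.D1X
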