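import Mathlib
import Pool.Agent.Lib_helper22.SCHD.Core

/-!
# Tables of cosines (orders 7, 13, 49)
-/

set_option autoImplicit false

namespace Pool.Agent.D1X

lemma ncA {θ u : ℝ} (h0 : 0 ≤ θ) (hu : θ ≤ u) : -Real.cos θ ≤ -1 + u ^ 2 / 2 := by
  have h := Real.one_sub_sq_div_two_le_cos (x := θ)
  have h2 : θ ^ 2 ≤ u ^ 2 := pow_le_pow_left₀ h0 hu 2
  linarith

lemma ncB {θ w w0 w1 : ℝ} (e : θ = Real.pi / 2 - w) (h0 : 0 ≤ w0) (h1 : w0 ≤ w) (h2 : w ≤ w1)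
    (h3 : w1 ≤ 1) : -Real.cos θ ≤ -w0 + w1 ^ 3 / 6 + w1 ^ 5 / 100 := by
  have hw : 0 ≤ w := h0.trans h1
  rw [e, Real.cos_pi_div_two_sub]
  have h := sin_ge_q hw (h2.trans h3)
  have h4 : w ^ 3 ≤ w1 ^ 3 := pow_le_pow_left₀ hw h2 3
  have h5 : w ^ 5 ≤ w1 ^ 5 := pow_le_pow_left₀ hw h2 5
  linarith

lemma ncC {θ w w0 w1 : ℝ} (e : θ = w + Real.pi / 2) (h0 : 0 ≤ w0) (h1 : w0 ≤ w) (h2 : w ≤ w1)
    (h3 : w1 ≤ 1) : -Real.cos θ ≤ w1 - w0 ^ 3 / 6 + w1 ^ 5 / 100 := by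
  have hw : 0 ≤ w := h0.trans h1
  rw [e, Real.cos_add_pi_div_two]
  have h := sin_le_q hw (h2.trans h3)
  have h4 : w0 ^ 3 ≤ w ^ 3 := pow_le_pow_left₀ h0 h1 3
  have h5 : w ^ 5 ≤ w1 ^ 5 := pow_le_pow_left₀ hw h2 5
  linarith

lemma ncD {θ w w0 w1 : ℝ} (e : θ = Real.pi - w) (h0 : 0 ≤ w0) (h1 : w0 ≤ w) (h2 : w ≤ w1)
    (h3 : w1 ≤ 1) : -Real.cos θ ≤ 1 - w0 ^ 2 / 2 + w1 ^ 4 * (5 / 96) := by
  have hw : 0 ≤ w := h0.trans h1
  rw [e, Real.cos_pi_sub, neg_neg]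
  have h := cos_le_q hw (h2.trans h3)
  have h4 : w0 ^ 2 ≤ w ^ 2 := pow_le_pow_left₀ h0 h1 2
  have h5 : w ^ 4 ≤ w1 ^ 4 := pow_le_pow_left₀ hw h2 4
  linarith

lemma t7_0 : -Real.cos (2 * Real.pi * (0 : ℕ) / (7 : ℕ)) * 10000 ≤ ((-9999 : ℤ) : ℝ) := by
  norm_num

lemma t7_1 : -Real.cos (2 * Real.pi * (1 : ℕ) / (7 : ℕ)) * 10000 ≤ ((-6208 : ℤ) : ℝ) := by
  have hp := Real.pi_gt_d4
  have hp2 := Real.pi_lt_d4
  have h := ncB (θ := 2 * Real.pi * (1 : ℕ) / (7 : ℕ)) (w := Real.pi * (3 / 14)) (w0 := 0.673178) (w1 := 0.673200)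
    (by push_cast; ring) (by norm_num) (by linarith) (by linarith) (by norm_num)
  norm_num at h ⊢
  linarith

lemma t7_2 : -Real.cos (2 * Real.pi * (2 : ℕ) / (7 : ℕ)) * 10000 ≤ ((2227 : ℤ) : ℝ) := by
  have hp := Real.pi_gt_d4
  have hp2 := Real.pi_lt_d4
  have h := ncC (θ := 2 * Real.pi * (2 : ℕ) / (7 : ℕ)) (w := Real.pi * (1 / 14)) (w0 := 0.224392) (w1 := 0.224400)
    (by push_cast; ring) (by norm_num) (by linarith) (by linarith) (by norm_num)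
  norm_num at h ⊢
  linarith

lemma t7_3 : -Real.cos (2 * Real.pi * (3 : ℕ) / (7 : ℕ)) * 10000 ≤ ((9016 : ℤ) : ℝ) := by
  have hp := Real.pi_gt_d4
  have hp2 := Real.pi_lt_d4
  have h := ncD (θ := 2 * Real.pi * (3 : ℕ) / (7 : ℕ)) (w := Real.pi * (1 / 7)) (w0 := 0.448785) (w1 := 0.448800)
    (by push_cast; ring) (by norm_num) (by linarith) (by linarith) (by norm_num)
  norm_num at h ⊢
  linarith

/-- upper bounds of `- 10000 cos (2 π t / 7)` -/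
def TT7 : ℕ → ℤ := fun t => ([-9999, -6208, 2227, 9016] : List ℤ).getD t 0

lemma hTT7 : ∀ t : ℕ, 2 * t ≤ 7 → -Real.cos (2 * Real.pi * t / (7 : ℕ)) * 10000 ≤ (TT7 t : ℝ) := by
  intro t ht
  have ht2 : t ≤ 3 := by omega
  interval_cases t
  · exact t7_0
  · exact t7_1
  · exact t7_2
  · exact t7_3

lemma t13_0 : -Real.cos (2 * Real.pi * (0 : ℕ) / (13 : ℕ)) * 10000 ≤ ((-9999 : ℤ) : ℝ) := by
  norm_num

lemma t13_1 : -Real.cos (2 * Real.pi * (1 : ℕ) / (13 : ℕ)) * 10000 ≤ ((-8830 : ℤ) : ℝ) := by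
  have hp := Real.pi_gt_d4
  have hp2 := Real.pi_lt_d4
  have h := ncA (θ := 2 * Real.pi * (1 : ℕ) / (13 : ℕ)) (u := 0.483324) (by positivity) (by push_cast; linarith)
  norm_num at h ⊢
  linarith

lemma t13_2 : -Real.cos (2 * Real.pi * (2 : ℕ) / (13 : ℕ)) * 10000 ≤ ((-5664 : ℤ) : ℝ) := by
  have hp := Real.pi_gt_d4
  have hp2 := Real.pi_lt_d4
  have h := ncB (θ := 2 * Real.pi * (2 : ℕ) / (13 : ℕ)) (w := Real.pi * (5 / 26)) (w0 := 0.604134) (w1 := 0.604154)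
    (by push_cast; ring) (by norm_num) (by linarith) (by linarith) (by norm_num)
  norm_num at h ⊢
  linarith

lemma t13_3 : -Real.cos (2 * Real.pi * (3 : ℕ) / (13 : ℕ)) * 10000 ≤ ((-1204 : ℤ) : ℝ) := by
  have hp := Real.pi_gt_d4
  have hp2 := Real.pi_lt_d4
  have h := ncB (θ := 2 * Real.pi * (3 : ℕ) / (13 : ℕ)) (w := Real.pi * (1 / 26)) (w0 := 0.120826) (w1 := 0.120831)
    (by push_cast; ring) (by norm_num) (by linarith) (by linarith) (by norm_num)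
  norm_num at h ⊢
  linarith

lemma t13_4 : -Real.cos (2 * Real.pi * (4 : ℕ) / (13 : ℕ)) * 10000 ≤ ((3548 : ℤ) : ℝ) := by
  have hp := Real.pi_gt_d4
  have hp2 := Real.pi_lt_d4
  have h := ncC (θ := 2 * Real.pi * (4 : ℕ) / (13 : ℕ)) (w := Real.pi * (3 / 26)) (w0 := 0.362480) (w1 := 0.362493)
    (by push_cast; ring) (by norm_num) (by linarith) (by linarith) (by norm_num)
  norm_num at h ⊢
  linarith

lemma t13_5 : -Real.cos (2 * Real.pi * (5 : ℕ) / (13 : ℕ)) * 10000 ≤ ((7518 : ℤ) : ℝ) := by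
  have hp := Real.pi_gt_d4
  have hp2 := Real.pi_lt_d4
  have h := ncD (θ := 2 * Real.pi * (5 : ℕ) / (13 : ℕ)) (w := Real.pi * (3 / 13)) (w0 := 0.724961) (w1 := 0.724985)
    (by push_cast; ring) (by norm_num) (by linarith) (by linarith) (by norm_num)
  norm_num at h ⊢
  linarith

lemma t13_6 : -Real.cos (2 * Real.pi * (6 : ℕ) / (13 : ℕ)) * 10000 ≤ ((9711 : ℤ) : ℝ) := by
  have hp := Real.pi_gt_d4
  have hp2 := Real.pi_lt_d4
  have h := ncD (θ := 2 * Real.pi * (6 : ℕ) / (13 : ℕ)) (w := Real.pi * (1 / 13)) (w0 := 0.241653) (w1 := 0.241662)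
    (by push_cast; ring) (by norm_num) (by linarith) (by linarith) (by norm_num)
  norm_num at h ⊢
  linarith

/-- upper bounds of `- 10000 cos (2 π t / 13)` -/
def TT13 : ℕ → ℤ := fun t => ([-9999, -8830, -5664, -1204, 3548, 7518, 9711] : List ℤ).getD t 0

lemma hTT13 : ∀ t : ℕ, 2 * t ≤ 13 → -Real.cos (2 * Real.pi * t / (13 : ℕ)) * 10000 ≤ (TT13 t : ℝ) := by
  intro t ht
  have ht2 : t ≤ 6 := by omega
  interval_cases t
  · exact t13_0
  · exact t13_1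
  · exact t13_2
  · exact t13_3
  · exact t13_4
  · exact t13_5
  · exact t13_6

lemma t49_0 : -Real.cos (2 * Real.pi * (0 : ℕ) / (49 : ℕ)) * 10000 ≤ ((-9999 : ℤ) : ℝ) := by
  norm_num

lemma t49_1 : -Real.cos (2 * Real.pi * (1 : ℕ) / (49 : ℕ)) * 10000 ≤ ((-9916 : ℤ) : ℝ) := by
  have hp := Real.pi_gt_d4
  have hp2 := Real.pi_lt_d4
  have h := ncA (θ := 2 * Real.pi * (1 : ℕ) / (49 : ℕ)) (u := 0.128229) (by positivity) (by push_cast; linarith)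
  norm_num at h ⊢
  linarith

lemma t49_2 : -Real.cos (2 * Real.pi * (2 : ℕ) / (49 : ℕ)) * 10000 ≤ ((-9670 : ℤ) : ℝ) := by
  have hp := Real.pi_gt_d4
  have hp2 := Real.pi_lt_d4
  have h := ncA (θ := 2 * Real.pi * (2 : ℕ) / (49 : ℕ)) (u := 0.256458) (by positivity) (by push_cast; linarith)
  norm_num at h ⊢
  linarith

lemma t49_3 : -Real.cos (2 * Real.pi * (3 : ℕ) / (49 : ℕ)) * 10000 ≤ ((-9259 : ℤ) : ℝ) := by
  have hp := Real.pi_gt_d4
  have hp2 := Real.pi_lt_d4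
  have h := ncA (θ := 2 * Real.pi * (3 : ℕ) / (49 : ℕ)) (u := 0.384686) (by positivity) (by push_cast; linarith)
  norm_num at h ⊢
  linarith

lemma t49_4 : -Real.cos (2 * Real.pi * (4 : ℕ) / (49 : ℕ)) * 10000 ≤ ((-8683 : ℤ) : ℝ) := by
  have hp := Real.pi_gt_d4
  have hp2 := Real.pi_lt_d4
  have h := ncA (θ := 2 * Real.pi * (4 : ℕ) / (49 : ℕ)) (u := 0.512915) (by positivity) (by push_cast; linarith)
  norm_num at h ⊢
  linarith

lemma t49_5 : -Real.cos (2 * Real.pi * (5 : ℕ) / (49 : ℕ)) * 10000 ≤ ((-7943 : ℤ) : ℝ) := by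
  have hp := Real.pi_gt_d4
  have hp2 := Real.pi_lt_d4
  have h := ncA (θ := 2 * Real.pi * (5 : ℕ) / (49 : ℕ)) (u := 0.641143) (by positivity) (by push_cast; linarith)
  norm_num at h ⊢
  linarith

lemma t49_6 : -Real.cos (2 * Real.pi * (6 : ℕ) / (49 : ℕ)) * 10000 ≤ ((-7039 : ℤ) : ℝ) := by
  have hp := Real.pi_gt_d4
  have hp2 := Real.pi_lt_d4
  have h := ncA (θ := 2 * Real.pi * (6 : ℕ) / (49 : ℕ)) (u := 0.769372) (by positivity) (by push_cast; linarith)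
  norm_num at h ⊢
  linarith

lemma t49_7 : -Real.cos (2 * Real.pi * (7 : ℕ) / (49 : ℕ)) * 10000 ≤ ((-6208 : ℤ) : ℝ) := by
  have hp := Real.pi_gt_d4
  have hp2 := Real.pi_lt_d4
  have h := ncB (θ := 2 * Real.pi * (7 : ℕ) / (49 : ℕ)) (w := Real.pi * (3 / 14)) (w0 := 0.673178) (w1 := 0.673200)
    (by push_cast; ring) (by norm_num) (by linarith) (by linarith) (by norm_num)
  norm_num at h ⊢
  linarith

lemma t49_8 : -Real.cos (2 * Real.pi * (8 : ℕ) / (49 : ℕ)) * 10000 ≤ ((-5173 : ℤ) : ℝ) := by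
  have hp := Real.pi_gt_d4
  have hp2 := Real.pi_lt_d4
  have h := ncB (θ := 2 * Real.pi * (8 : ℕ) / (49 : ℕ)) (w := Real.pi * (17 / 98)) (w0 := 0.544954) (w1 := 0.544972)
    (by push_cast; ring) (by norm_num) (by linarith) (by linarith) (by norm_num)
  norm_num at h ⊢
  linarith

lemma t49_9 : -Real.cos (2 * Real.pi * (9 : ℕ) / (49 : ℕ)) * 10000 ≤ ((-4044 : ℤ) : ℝ) := by
  have hp := Real.pi_gt_d4
  have hp2 := Real.pi_lt_d4
  have h := ncB (θ := 2 * Real.pi * (9 : ℕ) / (49 : ℕ)) (w := Real.pi * (13 / 98)) (w0 := 0.416729) (w1 := 0.416743)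
    (by push_cast; ring) (by norm_num) (by linarith) (by linarith) (by norm_num)
  norm_num at h ⊢
  linarith

lemma t49_10 : -Real.cos (2 * Real.pi * (10 : ℕ) / (49 : ℕ)) * 10000 ≤ ((-2843 : ℤ) : ℝ) := by
  have hp := Real.pi_gt_d4
  have hp2 := Real.pi_lt_d4
  have h := ncB (θ := 2 * Real.pi * (10 : ℕ) / (49 : ℕ)) (w := Real.pi * (9 / 98)) (w0 := 0.288505) (w1 := 0.288515)
    (by push_cast; ring) (by norm_num) (by linarith) (by linarith) (by norm_num)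
  norm_num at h ⊢
  linarith

lemma t49_11 : -Real.cos (2 * Real.pi * (11 : ℕ) / (49 : ℕ)) * 10000 ≤ ((-1594 : ℤ) : ℝ) := by
  have hp := Real.pi_gt_d4
  have hp2 := Real.pi_lt_d4
  have h := ncB (θ := 2 * Real.pi * (11 : ℕ) / (49 : ℕ)) (w := Real.pi * (5 / 98)) (w0 := 0.160280) (w1 := 0.160286)
    (by push_cast; ring) (by norm_num) (by linarith) (by linarith) (by norm_num)
  norm_num at h ⊢
  linarith

lemma t49_12 : -Real.cos (2 * Real.pi * (12 : ℕ) / (49 : ℕ)) * 10000 ≤ ((-319 : ℤ) : ℝ) := by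
  have hp := Real.pi_gt_d4
  have hp2 := Real.pi_lt_d4
  have h := ncB (θ := 2 * Real.pi * (12 : ℕ) / (49 : ℕ)) (w := Real.pi * (1 / 98)) (w0 := 0.032056) (w1 := 0.032058)
    (by push_cast; ring) (by norm_num) (by linarith) (by linarith) (by norm_num)
  norm_num at h ⊢
  linarith

lemma t49_13 : -Real.cos (2 * Real.pi * (13 : ℕ) / (49 : ℕ)) * 10000 ≤ ((962 : ℤ) : ℝ) := by
  have hp := Real.pi_gt_d4
  have hp2 := Real.pi_lt_d4
  have h := ncC (θ := 2 * Real.pi * (13 : ℕ) / (49 : ℕ)) (w := Real.pi * (3 / 98)) (w0 := 0.096168) (w1 := 0.096172)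
    (by push_cast; ring) (by norm_num) (by linarith) (by linarith) (by norm_num)
  norm_num at h ⊢
  linarith

lemma t49_14 : -Real.cos (2 * Real.pi * (14 : ℕ) / (49 : ℕ)) * 10000 ≤ ((2227 : ℤ) : ℝ) := by
  have hp := Real.pi_gt_d4
  have hp2 := Real.pi_lt_d4
  have h := ncC (θ := 2 * Real.pi * (14 : ℕ) / (49 : ℕ)) (w := Real.pi * (1 / 14)) (w0 := 0.224392) (w1 := 0.224400)
    (by push_cast; ring) (by norm_num) (by linarith) (by linarith) (by norm_num)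
  norm_num at h ⊢
  linarith

lemma t49_15 : -Real.cos (2 * Real.pi * (15 : ℕ) / (49 : ℕ)) * 10000 ≤ ((3455 : ℤ) : ℝ) := by
  have hp := Real.pi_gt_d4
  have hp2 := Real.pi_lt_d4
  have h := ncC (θ := 2 * Real.pi * (15 : ℕ) / (49 : ℕ)) (w := Real.pi * (11 / 98)) (w0 := 0.352617) (w1 := 0.352629)
    (by push_cast; ring) (by norm_num) (by linarith) (by linarith) (by norm_num)
  norm_num at h ⊢
  linarith

lemma t49_16 : -Real.cos (2 * Real.pi * (16 : ℕ) / (49 : ℕ)) * 10000 ≤ ((4627 : ℤ) : ℝ) := by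
  have hp := Real.pi_gt_d4
  have hp2 := Real.pi_lt_d4
  have h := ncC (θ := 2 * Real.pi * (16 : ℕ) / (49 : ℕ)) (w := Real.pi * (15 / 98)) (w0 := 0.480841) (w1 := 0.480858)
    (by push_cast; ring) (by norm_num) (by linarith) (by linarith) (by norm_num)
  norm_num at h ⊢
  linarith

lemma t49_17 : -Real.cos (2 * Real.pi * (17 : ℕ) / (49 : ℕ)) * 10000 ≤ ((5724 : ℤ) : ℝ) := by
  have hp := Real.pi_gt_d4
  have hp2 := Real.pi_lt_d4
  have h := ncC (θ := 2 * Real.pi * (17 : ℕ) / (49 : ℕ)) (w := Real.pi * (19 / 98)) (w0 := 0.609066) (w1 := 0.609086)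
    (by push_cast; ring) (by norm_num) (by linarith) (by linarith) (by norm_num)
  norm_num at h ⊢
  linarith

lemma t49_18 : -Real.cos (2 * Real.pi * (18 : ℕ) / (49 : ℕ)) * 10000 ≤ ((6728 : ℤ) : ℝ) := by
  have hp := Real.pi_gt_d4
  have hp2 := Real.pi_lt_d4
  have h := ncC (θ := 2 * Real.pi * (18 : ℕ) / (49 : ℕ)) (w := Real.pi * (23 / 98)) (w0 := 0.737290) (w1 := 0.737315)
    (by push_cast; ring) (by norm_num) (by linarith) (by linarith) (by norm_num)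
  norm_num at h ⊢
  linarith

lemma t49_19 : -Real.cos (2 * Real.pi * (19 : ℕ) / (49 : ℕ)) * 10000 ≤ ((7644 : ℤ) : ℝ) := by
  have hp := Real.pi_gt_d4
  have hp2 := Real.pi_lt_d4
  have h := ncD (θ := 2 * Real.pi * (19 : ℕ) / (49 : ℕ)) (w := Real.pi * (11 / 49)) (w0 := 0.705234) (w1 := 0.705258)
    (by push_cast; ring) (by norm_num) (by linarith) (by linarith) (by norm_num)
  norm_num at h ⊢
  linarith

lemma t49_20 : -Real.cos (2 * Real.pi * (20 : ℕ) / (49 : ℕ)) * 10000 ≤ ((8395 : ℤ) : ℝ) := by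
  have hp := Real.pi_gt_d4
  have hp2 := Real.pi_lt_d4
  have h := ncD (θ := 2 * Real.pi * (20 : ℕ) / (49 : ℕ)) (w := Real.pi * (9 / 49)) (w0 := 0.577010) (w1 := 0.577029)
    (by push_cast; ring) (by norm_num) (by linarith) (by linarith) (by norm_num)
  norm_num at h ⊢
  linarith

lemma t49_21 : -Real.cos (2 * Real.pi * (21 : ℕ) / (49 : ℕ)) * 10000 ≤ ((9016 : ℤ) : ℝ) := by
  have hp := Real.pi_gt_d4
  have hp2 := Real.pi_lt_d4
  have h := ncD (θ := 2 * Real.pi * (21 : ℕ) / (49 : ℕ)) (w := Real.pi * (1 / 7)) (w0 := 0.448785) (w1 := 0.448800)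
    (by push_cast; ring) (by norm_num) (by linarith) (by linarith) (by norm_num)
  norm_num at h ⊢
  linarith

lemma t49_22 : -Real.cos (2 * Real.pi * (22 : ℕ) / (49 : ℕ)) * 10000 ≤ ((9493 : ℤ) : ℝ) := by
  have hp := Real.pi_gt_d4
  have hp2 := Real.pi_lt_d4
  have h := ncD (θ := 2 * Real.pi * (22 : ℕ) / (49 : ℕ)) (w := Real.pi * (5 / 49)) (w0 := 0.320561) (w1 := 0.320572)
    (by push_cast; ring) (by norm_num) (by linarith) (by linarith) (by norm_num)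
  norm_num at h ⊢
  linarith

lemma t49_23 : -Real.cos (2 * Real.pi * (23 : ℕ) / (49 : ℕ)) * 10000 ≤ ((9817 : ℤ) : ℝ) := by
  have hp := Real.pi_gt_d4
  have hp2 := Real.pi_lt_d4
  have h := ncD (θ := 2 * Real.pi * (23 : ℕ) / (49 : ℕ)) (w := Real.pi * (3 / 49)) (w0 := 0.192336) (w1 := 0.192343)
    (by push_cast; ring) (by norm_num) (by linarith) (by linarith) (by norm_num)
  norm_num at h ⊢
  linarith

lemma t49_24 : -Real.cos (2 * Real.pi * (24 : ℕ) / (49 : ℕ)) * 10000 ≤ ((9981 : ℤ) : ℝ) := by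
  have hp := Real.pi_gt_d4
  have hp2 := Real.pi_lt_d4
  have h := ncD (θ := 2 * Real.pi * (24 : ℕ) / (49 : ℕ)) (w := Real.pi * (1 / 49)) (w0 := 0.064112) (w1 := 0.064115)
    (by push_cast; ring) (by norm_num) (by linarith) (by linarith) (by norm_num)
  norm_num at h ⊢
  linarith

/-- upper bounds of `- 10000 cos (2 π t / 49)` -/
def TT49 : ℕ → ℤ := fun t => ([-9999, -9916, -9670, -9259, -8683, -7943, -7039, -6208, -5173, -4044, -2843, -1594, -319, 962, 2227, 3455, 4627, 5724, 6728, 7644, 8395, 9016, 9493, 9817, 9981] : List ℤ).getD t 0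

lemma hTT49 : ∀ t : ℕ, 2 * t ≤ 49 → -Real.cos (2 * Real.pi * t / (49 : ℕ)) * 10000 ≤ (TT49 t : ℝ) := by
  intro t ht
  have ht2 : t ≤ 24 := by omega
  interval_cases t
  · exact t49_0
  · exact t49_1
  · exact t49_2
  · exact t49_3
  · exact t49_4
  · exact t49_5
  · exact t49_6
  · exact t49_7
  · exact t49_8
  · exact t49_9
  · exact t49_10
  · exact t49_11
  · exact t49_12
  · exact t49_13
  · exact t49_14
  · exact t49_15
  · exact t49_16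
  · exact t49_17
  · exact t49_18
  · exact t49_19
  · exact t49_20
  · exact t49_21
  · exact t49_22
  · exact t49_23
  · exact t49_24

/-- weights -/
def L70 : ZMod 7 → ℤ := fun j => ([0, 0, 4218, 7612, 7612, 4218, 0] : List ℤ).getD j.val 0

lemma L70_ok : (∀ j, 0 ≤ L70 j ∧ L70 j ≤ 7612) ∧ ∑ j, L70 j = 23660 ∧
    ∀ j : ZMod 7, TT7 j.valMinAbs.natAbs ≤ -6208 + (L70 j + L70 (j - 0)) + (0 + 0) := by
  decide +kernel

/-- weights -/
def L71 : ZMod 7 → ℤ := fun j => ([0, 0, 8435, 6789, 8435, 0, 0] : List ℤ).getD j.val 0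

lemma L71_ok : (∀ j, 0 ≤ L71 j ∧ L71 j ≤ 8435) ∧ ∑ j, L71 j = 23659 ∧
    ∀ j : ZMod 7, TT7 j.valMinAbs.natAbs ≤ -6208 + (L71 j + L71 (j - 1)) + (0 + 0) := by
  decide +kernel

/-- weights -/
def L132 : ZMod 13 → ℤ := fun j => ([0, 0, 2559, 7019, 9212, 8722, 8722, 9212, 7019, 2559, 0, 0, 0] : List ℤ).getD j.val 0

lemma L132_ok : (∀ j, 0 ≤ L132 j ∧ L132 j ≤ 9212) ∧ ∑ j, L132 j = 55024 ∧
    ∀ j : ZMod 13, TT13 j.valMinAbs.natAbs ≤ -8223 + (L132 j + L132 (j - 2)) + (0 + 0) := by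
  decide +kernel

/-- weights -/
def L498 : ZMod 49 → ℤ := fun j => ([0, 0, 0, 0, 0, 0, 0, 0, 0, 1129, 2330, 3579, 4854, 6135, 7400, 8628, 0, 9768, 9571, 9238, 8714, 8054, 7266, 6362, 15154, 5386, 5419, 5428, 5475, 5514, 5551, 5539, 0, 0, 3209, 1972, 660, 0, 0, 0, 1129, 0, 0, 0, 0, 0, 0, 0, 0] : List ℤ).getD j.val 0

lemma L498_ok : (∀ j, 0 ≤ L498 j ∧ L498 j ≤ 15154) ∧ ∑ j, L498 j = 153464 ∧
    ∀ j : ZMod 49, j = 16 ∨ j = 33 ∨ TT49 j.valMinAbs.natAbs ≤ -5173 + (L498 j + L498 (j - 8)) + (0 + 0) := by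
  decide +kernel

/-- weights -/
def LA : ZMod 49 → ℤ := fun j => ([0, 0, 0, 0, 0, 0, 0, 0, 0, 1136, 2339, 3588, 4863, 5818, 6437, 7034, 7602, 7562, 7965, 8238, 8375, 8375, 8238, 7965, 7562, 7602, 7034, 6437, 5818, 4863, 3588, 2339, 1136, 0, 0, 0, 0, 0, 0, 0, 0, 0, 0, 0, 0, 0, 0, 0, 0] : List ℤ).getD j.val 0

/-- weights -/
def LB : ZMod 49 → ℤ := fun j => ([0, 0, 0, 0, 0, 0, 0, 0, 0, 0, 0, 0, 0, 326, 973, 1603, 2208, 2208, 1603, 973, 326, 0, 0, 0, 0, 0, 0, 0, 0, 0, 0, 0, 0, 0, 0, 0, 0, 0, 0, 0, 0, 0, 0, 0, 0, 0, 0, 0, 0] : List ℤ).getD j.val 0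

lemma LAB_ok : (∀ j, 0 ≤ LA j ∧ LA j ≤ 8375) ∧ (∀ j, 0 ≤ LB j ∧ LB j ≤ 2208) ∧
    ∑ j, LA j + ∑ j, LB j = 152134 ∧ ∀ j : ZMod 49, TT49 j.valMinAbs.natAbs ≤ -5155 +
      (LA j + LA (j - 8)) + (LB j + LB (j - 16)) := by
  decide +kernel

end Pool.Agent.D1X
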