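import Mathlib
import Pool.Agent.Lib_helper22.SCHD.T3Lp
import Pool.Agent.Lib_helper22.SCHD.T3Tab
import Pool.Agent.Lib_helper22.SCHD.T3Re

/-!
# The levels `|i| ≤ k / 2` are inside `B` (order `3 k + 1`, above `2/3`)
-/

set_option autoImplicit false
set_option linter.unusedSectionVars false

namespace Pool.Agent.D1X

open Finset Pool.Agent.GL Pool.Agent.Lib_helper42.RS Pool.Agent.Lib_helper13.PL Pool.Agent.SCH

universe u

section
variable {G : Type u} [AddCommGroup G] [Fintype G] [DecidableEq G]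

/-- the data -/
structure HD (B : Finset G) {m : ℕ} (χ : AddChar G ℂ) (φ : G →+ ZMod m) (k s : ℕ) : Prop where
  hm : m = 3 * k + 1
  hk : 1 ≤ k
  std : Std χ φ
  surj : Function.Surjective φ
  hb : B.card + s = (2 * k + 1) * Nat.card φ.ker
  fou : (Fintype.card G : ℝ) * (((GL.FF B : ℤ) : ℝ) + 3 * (B.card : ℝ) ^ 2) ≤
    4 * (B.card : ℝ) ^ 3 +
      4 * (hat B χ).re * ((Fintype.card G : ℝ) * B.card - (B.card : ℝ) ^ 2)
  big : ((Nat.card φ.ker : ℤ) - s) * ((Nat.card φ.ker : ℤ) - 5 * s) < GL.FF B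

variable {B : Finset G} {m : ℕ} {χ : AddChar G ℂ} {φ : G →+ ZMod m} {k s : ℕ}

lemma HD.hpos (_ : HD B χ φ k s) : (0 : ℝ) < (Nat.card φ.ker : ℝ) := by
  exact_mod_cast Nat.card_pos

lemma HD.kpos (d : HD B χ φ k s) : (1 : ℝ) ≤ k := by exact_mod_cast d.hk

lemma HD.bR (d : HD B χ φ k s) : (B.card : ℝ) = (2 * k + 1) * Nat.card φ.ker - s := by
  have : (B.card : ℝ) + s = (2 * k + 1) * Nat.card φ.ker := by exact_mod_cast d.hb
  linarith

lemma HD.fou' (d : HD B χ φ k s) :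
    ((3 * (k:ℝ) + 1) * Nat.card φ.ker) * (((GL.FF B : ℤ) : ℝ) +
      3 * ((2 * k + 1) * Nat.card φ.ker - s) ^ 2) ≤
      4 * ((2 * k + 1) * Nat.card φ.ker - s) ^ 3 +
      4 * (hat B χ).re * (((3 * k + 1) * Nat.card φ.ker) * ((2 * k + 1) * Nat.card φ.ker - s) -
        ((2 * k + 1) * Nat.card φ.ker - s) ^ 2) := by
  have : NeZero m := ⟨by have := d.hm; omega⟩
  have hn := card_ker_mul φ d.surj
  have hmR : (m : ℝ) = 3 * k + 1 := by exact_mod_cast d.hm
  have hnR : (Fintype.card G : ℝ) = (3 * k + 1) * Nat.card φ.ker := by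
    rw [← hmR]; exact_mod_cast hn
  have h := d.fou
  rw [hnR, d.bR] at h
  exact h

lemma HD.big' (d : HD B χ φ k s) :
    ((Nat.card φ.ker : ℝ) - s) * ((Nat.card φ.ker : ℝ) - 5 * s) < ((GL.FF B : ℤ) : ℝ) := by
  exact_mod_cast d.big

lemma HD.cA (d : HD B χ φ k s) : ((Bᶜ).card : ℤ) = k * Nat.card φ.ker + s := by
  have : NeZero m := ⟨by have := d.hm; omega⟩
  have hn := card_ker_mul φ d.surj
  have h1 : ((Bᶜ).card : ℤ) = Fintype.card G - B.card := card_compl_int B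
  have h2 : (B.card : ℤ) + s = (2 * k + 1) * Nat.card φ.ker := by exact_mod_cast d.hb
  have hmZ : (m : ℤ) = 3 * k + 1 := by exact_mod_cast d.hm
  have h3 : (Fintype.card G : ℤ) = (3 * k + 1) * Nat.card φ.ker := by
    rw [← hmZ]; exact_mod_cast hn
  rw [h1, h3]; linarith

lemma HD.yk (d : HD B χ φ k s) : Real.pi / m * (3 * k + 1) = Real.pi := by
  have hmR : (m : ℝ) = 3 * k + 1 := by rw [d.hm]; push_cast; ring
  have : (m:ℝ) ≠ 0 := by rw [hmR]; positivity
  rw [← hmR]; field_simp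

/-- the shift lemma, for `3 s ≤ h` -/
lemma HD.sh (d : HD B χ φ k s) (hs : 3 * s ≤ Nat.card φ.ker) (v : G) {r : ℝ}
    (hr : (rM B v : ℝ) ≤ r) :
    2 * Real.sin (Real.pi / m) * Real.cos (ang φ v) * ‖hat B χ‖ ≤
      √3 / 2 * Nat.card φ.ker + Real.pi / m * (Nat.card φ.ker / 3 - s + 3 / 2 * r) := by
  have hsR : 3 * (s:ℝ) ≤ Nat.card φ.ker := by exact_mod_cast hs
  refine shift3 d.hm d.hk d.surj d.std B v d.hb hr ?_ (by omega)
  have h1 : Real.pi / m * (2 * s - 2 / 3 * Nat.card φ.ker) ≤ 0 := by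
    apply mul_nonpos_of_nonneg_of_nonpos
    · positivity
    · linarith
  have := d.hpos
  linarith

lemma re_le_norm' : (hat B χ).re ≤ ‖hat B χ‖ := Complex.re_le_norm _

lemma HD.sin0 (d : HD B χ φ k s) : 0 < Real.sin (Real.pi / m) := by
  have hmR : (m : ℝ) = 3 * k + 1 := by rw [d.hm]; push_cast; ring
  have := d.kpos
  apply Real.sin_pos_of_pos_of_lt_pi
  · rw [hmR]; positivity
  · rw [div_lt_iff₀ (by rw [hmR]; positivity), hmR]
    nlinarith [Real.pi_pos]

/-- lower bound of the cosine of a small angle -/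
lemma cos_ang_ge {v : G} {a : ℝ} (ha : a ≤ Real.pi)
    (hv : Real.pi * ((φ v).valMinAbs.natAbs : ℝ) / m ≤ a) :
    Real.cos a ≤ Real.cos (ang φ v) := by
  have e : Real.cos (ang φ v) = Real.cos (Real.pi * ((φ v).valMinAbs.natAbs : ℝ) / m) := by
    rw [← Real.cos_abs (ang φ v)]
    congr 1
    unfold ang
    rw [abs_div, abs_mul, abs_of_pos Real.pi_pos, Nat.abs_cast, Nat.cast_natAbs]
    push_cast
    rfl
  rw [e]
  exact Real.cos_le_cos_of_nonneg_of_le_pi (by positivity) ha hv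

lemma HD.ang_sixth (d : HD B χ φ k s) {v : G} (hv : 2 * (φ v).valMinAbs.natAbs ≤ k) :
    Real.cos (Real.pi / 6 - Real.pi / m / 6) ≤ Real.cos (ang φ v) := by
  have hmR : (m : ℝ) = 3 * k + 1 := by rw [d.hm]; push_cast; ring
  have hk := d.kpos
  have hm0 : (0:ℝ) < m := by rw [hmR]; positivity
  have hv2 : 2 * ((φ v).valMinAbs.natAbs : ℝ) ≤ k := by exact_mod_cast hv
  have hp := Real.pi_pos
  apply cos_ang_ge
  · have : 0 ≤ Real.pi / m / 6 := by positivity
    linarith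
  · rw [div_le_iff₀ hm0]
    have e : (Real.pi / 6 - Real.pi / m / 6) * m = Real.pi * (m - 1) / 6 := by
      field_simp
    rw [e, hmR]
    nlinarith

lemma HD.up_sixth (d : HD B χ φ k s) (hs : 3 * s ≤ Nat.card φ.ker) {v : G}
    (hv : 2 * (φ v).valMinAbs.natAbs ≤ k) {r : ℝ} (hr : (rM B v : ℝ) ≤ r) :
    2 * Real.sin (Real.pi / m) * Real.cos (Real.pi / 6 - Real.pi / m / 6) * ‖hat B χ‖ ≤
      √3 / 2 * Nat.card φ.ker + Real.pi / m * (Nat.card φ.ker / 3 - s + 3 / 2 * r) := by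
  refine le_trans ?_ (d.sh hs v hr)
  apply mul_le_mul_of_nonneg_right _ (norm_nonneg _)
  exact mul_le_mul_of_nonneg_left (d.ang_sixth hv) (by have := d.sin0; positivity)

/-- order smaller than the exponent, `k ≥ 6` -/
lemma HD.hole_A (d : HD B χ φ k s) (hk : 6 ≤ k) (hs : 3 * s ≤ Nat.card φ.ker)
    (hs2 : 2 * Nat.card φ.ker ≤ 7 * s) {v : G} (hv : 2 * (φ v).valMinAbs.natAbs ≤ k)
    (hr : 21 * rM B v ≤ Nat.card φ.ker) : False := by
  have h1 := need_six (k := k) (by exact_mod_cast hk) d.hpos (by positivity)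
    (by exact_mod_cast hs) d.fou' d.big'
  have h2 := d.up_sixth hs hv le_rfl
  exact fin_A d.yk (by exact_mod_cast hk) d.hpos (by exact_mod_cast hs2) (by exact_mod_cast hr) h2
    (lt_of_lt_of_le h1 re_le_norm')

/-- order equal to the exponent, `k ≥ 30` -/
lemma HD.hole_B (d : HD B χ φ k s) (hk : 30 ≤ k) (hs : 3 * s ≤ Nat.card φ.ker)
    {v : G} (hv : 2 * (φ v).valMinAbs.natAbs ≤ k) (hr : rM B v ≤ s) : False := by
  have h1 := need_four (k := k) (by exact_mod_cast (by omega : 4 ≤ k)) d.hpos (by positivity)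
    (by exact_mod_cast (by omega : s ≤ Nat.card φ.ker)) d.fou' d.big'
  have h2 := d.up_sixth hs hv le_rfl
  exact fin_B d.yk (by exact_mod_cast hk) d.hpos (by positivity) (by exact_mod_cast hr) h2
    (lt_of_lt_of_le h1 re_le_norm')

/-- the kernel, `k ≥ 10` -/
lemma HD.hole_D (d : HD B χ φ k s) (hk : 10 ≤ k) (hs : s ≤ Nat.card φ.ker)
    {v : G} (hv : φ v = 0) (hr : rM B v ≤ s) : False := by
  have hkR : (10:ℝ) ≤ k := by exact_mod_cast hk
  have hsR : (s:ℝ) ≤ Nat.card φ.ker := by exact_mod_cast hs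
  have h1 := need_four (k := k) (by exact_mod_cast (by omega : 4 ≤ k)) d.hpos (by positivity)
    hsR d.fou' d.big'
  have hy := d.yk
  have hp1 := Real.pi_lt_d4
  have hh := d.hpos
  have hy1 : Real.pi / m ≤ 0.1014 := by
    have : 0 ≤ Real.pi / m := by positivity
    nlinarith
  have h2 := shift3 d.hm d.hk d.surj d.std B v d.hb (r := rM B v) le_rfl (by
    have h3 : Real.pi / m * (2 * s - 2 / 3 * Nat.card φ.ker) ≤
        Real.pi / m * (4 / 3 * Nat.card φ.ker) := by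
      apply mul_le_mul_of_nonneg_left _ (by positivity)
      linarith
    have h4 : Real.pi / m * (4 / 3 * Nat.card φ.ker) ≤ 0.1014 * (4 / 3 * Nat.card φ.ker) :=
      mul_le_mul_of_nonneg_right hy1 (by positivity)
    linarith) hs
  have e : Real.cos (ang φ v) = 1 := by
    unfold ang
    rw [hv]
    simp
  rw [e] at h2
  exact fin_D d.yk hkR d.hpos (by positivity) (by exact_mod_cast hr) (norm_nonneg _) h2
    (lt_of_lt_of_le h1 re_le_norm')

end

section
variable {G : Type u} [AddCommGroup G] [Fintype G] [DecidableEq G] {B : Finset G}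

lemma lev_pos {m : ℕ} [NeZero m] {φ : G →+ ZMod m} {v : G} {p : ℕ}
    (hp : (φ v).valMinAbs.natAbs = p) :
    ∃ v' : G, φ v' = (p : ZMod m) ∧ rM B v' = rM B v := by
  have h1 := ZMod.coe_valMinAbs (φ v)
  rcases Int.natAbs_eq (φ v).valMinAbs with h2 | h2
  · refine ⟨v, ?_, rfl⟩
    rw [← h1, h2, hp]; simp
  · refine ⟨-v, ?_, rM_neg B v⟩
    rw [map_neg, ← h1, h2, hp]; simp

/-- order 13, levels 0 and 1 -/
lemma HD.hole_13 {χ : AddChar G ℂ} {φ : G →+ ZMod 13} {s : ℕ} (d : HD B χ φ 4 s)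
    (hs : 3 * s ≤ Nat.card φ.ker)
    (hs2 : 2 * Nat.card φ.ker ≤ 7 * s) {v : G} (hv : (φ v).valMinAbs.natAbs ≤ 1)
    (hr : 21 * rM B v ≤ Nat.card φ.ker) : False := by
  have h1 := need_four (k := 4) (h := Nat.card φ.ker) (s := s) le_rfl d.hpos (by positivity)
    (by exact_mod_cast (by omega : s ≤ Nat.card φ.ker)) d.fou' d.big'
  have h2 := d.sh hs v le_rfl
  have hc : Real.cos (Real.pi / 13) ≤ Real.cos (ang φ v) := by
    have hv2 : ((φ v).valMinAbs.natAbs : ℝ) ≤ 1 := by exact_mod_cast hv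
    apply cos_ang_ge
    · linarith [Real.pi_pos]
    · push_cast
      apply div_le_div_of_nonneg_right _ (by norm_num)
      nlinarith [Real.pi_pos]
  push_cast at h2
  exact fin_13 d.hpos (by exact_mod_cast hs2) (by exact_mod_cast hr) (norm_nonneg _)
    (cos13_low.trans hc) h2 (lt_of_lt_of_le h1 re_le_norm')

/-- order 49, levels up to 7 -/
lemma HD.hole_49 {χ : AddChar G ℂ} {φ : G →+ ZMod 49} {s : ℕ} (d : HD B χ φ 16 s)
    (hs : 3 * s ≤ Nat.card φ.ker) {v : G} (hv : (φ v).valMinAbs.natAbs ≤ 7)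
    (hr : rM B v ≤ s) : False := by
  have h1 := need_four (k := 16) (h := Nat.card φ.ker) (s := s) (by norm_num) d.hpos
    (by positivity) (by exact_mod_cast (by omega : s ≤ Nat.card φ.ker)) d.fou' d.big'
  have h2 := d.sh hs v le_rfl
  have hc : Real.cos (Real.pi / 7) ≤ Real.cos (ang φ v) := by
    have hv2 : ((φ v).valMinAbs.natAbs : ℝ) ≤ 7 := by exact_mod_cast hv
    apply cos_ang_ge
    · linarith [Real.pi_pos]
    · push_cast
      rw [div_le_iff₀ (by norm_num)]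
      nlinarith [Real.pi_pos]
  push_cast at h2
  exact fin_49 d.hpos (by positivity) (by exact_mod_cast hr) (norm_nonneg _)
    (cos7_low.trans hc) h2 (lt_of_lt_of_le h1 re_le_norm')

/-- order 13, level 2 -/
lemma HD.hole_13' {χ : AddChar G ℂ} {φ : G →+ ZMod 13} {s : ℕ} (d : HD B χ φ 4 s)
    (hs : 3 * s ≤ Nat.card φ.ker)
    (hs2 : 2 * Nat.card φ.ker ≤ 7 * s) {v : G} (hv : (φ v).valMinAbs.natAbs = 2)
    (hr : 21 * rM B v ≤ Nat.card φ.ker) : False := by
  have h1 := need_k4 (h := Nat.card φ.ker) (s := s) d.hpos (by positivity)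
    (by exact_mod_cast hs) d.fou' d.big'
  obtain ⟨v', hv1, hv2⟩ := lev_pos (B := B) hv
  have h2 := lp_main (m := 13) (by norm_num) d.std d.surj B TT13 hTT13 L132 (fun _ => 0) 2 2
    (τ := -8223) (L := 9212) (L' := 0) (fun j => (L132_ok.1 j).1) (fun _ => le_rfl)
    (fun j => (L132_ok.1 j).2) (fun _ => le_rfl) (fun j => Or.inr (L132_ok.2.2 j)) hv1 hv1
  rw [L132_ok.2.1, d.cA, hv2] at h2
  push_cast at h2
  rw [Finset.sum_const_zero] at h2
  have hsR : 3 * (s:ℝ) ≤ Nat.card φ.ker := by exact_mod_cast hs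
  have hs2R : 2 * (Nat.card φ.ker : ℝ) ≤ 7 * s := by exact_mod_cast hs2
  have hrR : 21 * (rM B v : ℝ) ≤ Nat.card φ.ker := by exact_mod_cast hr
  have := d.hpos
  linarith

/-- order 7, level 0 -/
lemma HD.hole_70 {χ : AddChar G ℂ} {φ : G →+ ZMod 7} {s : ℕ} (d : HD B χ φ 2 s)
    (hs : 3 * s ≤ Nat.card φ.ker)
    (hs2 : 2 * Nat.card φ.ker ≤ 7 * s) {v : G} (hv : (φ v).valMinAbs.natAbs = 0)
    (hr : 21 * rM B v ≤ Nat.card φ.ker) : False := by
  have h1 := need_two (h := Nat.card φ.ker) (s := s) d.hpos (by positivity)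
    (by exact_mod_cast hs) d.fou' d.big'
  obtain ⟨v', hv1, hv2⟩ := lev_pos (B := B) hv
  have h2 := lp_main (m := 7) (by norm_num) d.std d.surj B TT7 hTT7 L70 (fun _ => 0) 0 0
    (τ := -6208) (L := 7612) (L' := 0) (fun j => (L70_ok.1 j).1) (fun _ => le_rfl)
    (fun j => (L70_ok.1 j).2) (fun _ => le_rfl) (fun j => Or.inr (L70_ok.2.2 j))
    (by simpa using hv1) (by simpa using hv1)
  rw [L70_ok.2.1, d.cA, hv2] at h2
  push_cast at h2
  rw [Finset.sum_const_zero] at h2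
  have hsR : 3 * (s:ℝ) ≤ Nat.card φ.ker := by exact_mod_cast hs
  have hs2R : 2 * (Nat.card φ.ker : ℝ) ≤ 7 * s := by exact_mod_cast hs2
  have hrR : 21 * (rM B v : ℝ) ≤ Nat.card φ.ker := by exact_mod_cast hr
  have := d.hpos
  linarith

/-- order 7, level 1 -/
lemma HD.hole_71 {χ : AddChar G ℂ} {φ : G →+ ZMod 7} {s : ℕ} (d : HD B χ φ 2 s)
    (hs : 3 * s ≤ Nat.card φ.ker)
    (hs2 : 2 * Nat.card φ.ker ≤ 7 * s) {v : G} (hv : (φ v).valMinAbs.natAbs = 1)
    (hr : 21 * rM B v ≤ Nat.card φ.ker) : False := by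
  have h1 := need_two (h := Nat.card φ.ker) (s := s) d.hpos (by positivity)
    (by exact_mod_cast hs) d.fou' d.big'
  obtain ⟨v', hv1, hv2⟩ := lev_pos (B := B) hv
  have h2 := lp_main (m := 7) (by norm_num) d.std d.surj B TT7 hTT7 L71 (fun _ => 0) 1 1
    (τ := -6208) (L := 8435) (L' := 0) (fun j => (L71_ok.1 j).1) (fun _ => le_rfl)
    (fun j => (L71_ok.1 j).2) (fun _ => le_rfl) (fun j => Or.inr (L71_ok.2.2 j))
    (by simpa using hv1) (by simpa using hv1)
  rw [L71_ok.2.1, d.cA, hv2] at h2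
  push_cast at h2
  rw [Finset.sum_const_zero] at h2
  have hsR : 3 * (s:ℝ) ≤ Nat.card φ.ker := by exact_mod_cast hs
  have hs2R : 2 * (Nat.card φ.ker : ℝ) ≤ 7 * s := by exact_mod_cast hs2
  have hrR : 21 * (rM B v : ℝ) ≤ Nat.card φ.ker := by exact_mod_cast hr
  have := d.hpos
  linarith

/-- order 49, level 8 -/
lemma HD.hole_49' {χ : AddChar G ℂ} {φ : G →+ ZMod 49} {s : ℕ} (d : HD B χ φ 16 s)
    (hs : 3 * s ≤ Nat.card φ.ker) (hr : ∀ v, v ∉ B → rM B v ≤ s) {v : G} (hvB : v ∉ B)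
    (hv : (φ v).valMinAbs.natAbs = 8) : False := by
  have h1 := need_four (k := 16) (h := Nat.card φ.ker) (s := s) (by norm_num) d.hpos
    (by positivity) (by exact_mod_cast (by omega : s ≤ Nat.card φ.ker)) d.fou' d.big'
  obtain ⟨v', hv1, hv2⟩ := lev_pos (B := B) hv
  have hsR : 3 * (s:ℝ) ≤ Nat.card φ.ker := by exact_mod_cast hs
  have hs0 : (0:ℝ) ≤ s := by positivity
  have hrv : (rM B v : ℝ) ≤ s := by exact_mod_cast hr v hvB
  have hpos := d.hpos
  by_cases hw : ∃ w, w ∉ B ∧ (φ w).valMinAbs.natAbs = 16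
  · obtain ⟨w, hwB, hw⟩ := hw
    obtain ⟨w', hw1, hw2⟩ := lev_pos (B := B) hw
    have hrw : (rM B w : ℝ) ≤ s := by exact_mod_cast hr w hwB
    have h2 := lp_main (m := 49) (by norm_num) d.std d.surj B TT49 hTT49 LA LB 8 16
      (τ := -5155) (L := 8375) (L' := 2208) (fun j => (LAB_ok.1 j).1) (fun j => (LAB_ok.2.1 j).1)
      (fun j => (LAB_ok.1 j).2) (fun j => (LAB_ok.2.1 j).2)
      (fun j => Or.inr (LAB_ok.2.2.2 j)) (by simpa using hv1) (by simpa using hw1)
    rw [LAB_ok.2.2.1, d.cA, hv2, hw2] at h2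
    push_cast at h2
    linarith
  · push Not at hw
    have h3 : ∀ j : ZMod 49, j.valMinAbs.natAbs = 16 → lv φ Bᶜ j = 0 := by
      intro j hj
      unfold lv
      rw [Finset.card_eq_zero, Finset.filter_eq_empty_iff]
      intro x hx hxj
      apply hw x (Finset.mem_compl.mp hx)
      rw [hxj]; exact hj
    have h16 : (16 : ZMod 49).valMinAbs.natAbs = 16 := by decide +kernel
    have h33 : (33 : ZMod 49).valMinAbs.natAbs = 16 := by decide +kernel
    have h2 := lp_main (m := 49) (by norm_num) d.std d.surj B TT49 hTT49 L498 (fun _ => 0) 8 8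
      (τ := -5173) (L := 15154) (L' := 0) (fun j => (L498_ok.1 j).1) (fun _ => le_rfl)
      (fun j => (L498_ok.1 j).2) (fun _ => le_rfl)
      (fun j => by
        rcases L498_ok.2.2 j with h | h | h
        · left; rw [h]; exact h3 _ h16
        · left; rw [h]; exact h3 _ h33
        · right; exact h) (by simpa using hv1) (by simpa using hv1)
    rw [L498_ok.2.1, d.cA, hv2] at h2
    push_cast at h2
    rw [Finset.sum_const_zero] at h2
    linarith

end

end Pool.Agent.D1X
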