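import Mathlib
import Pool.Agent.Lib_helper22.SCHD.T3Hole

/-!
# No counterexample above `2/3` (odd order)
-/

set_option autoImplicit false
set_option linter.unusedSectionVars false

namespace Pool.Agent.D1X

open Finset Pool.Agent.GL Pool.Agent.Lib_helper42.RS Pool.Agent.Lib_helper13.PL Pool.Agent.SCH SCH4

universe u

section
variable {G : Type u} [AddCommGroup G] [Fintype G] [DecidableEq G]

/-- `k ≥ 10`: the kernel -/
lemma finK_big {e k : ℕ} (he : e = 3 * k + 1) (hk : 10 ≤ k) : FinK G e k := by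
  intro χ φ h1 h2 B v h3 s h4 h5 h6 h7 h8
  have d : HD B χ φ k s := ⟨he, by omega, h1, h2, h4, h7, h8⟩
  refine d.hole_D hk h5 h3 ?_
  have : (0:ℤ) ≤ ((Bᶜ.filter (fun x => v - x ∈ Bᶜ)).card : ℤ) := by positivity
  have h9 : (rM B v : ℤ) ≤ s := by unfold rM; linarith
  exact_mod_cast h9

/-- levels up to `k / 2`, order smaller than the exponent -/
theorem hole_lt {B : Finset G} {m : ℕ} {χ : AddChar G ℂ} {φ : G →+ ZMod m} {k s : ℕ}
    (d : HD B χ φ k s) (hk2 : 2 ≤ k) (hev : k % 2 = 0) (hs : 3 * s ≤ Nat.card φ.ker)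
    (hs2 : 2 * Nat.card φ.ker ≤ 7 * s) (hr : ∀ v, v ∉ B → 21 * rM B v ≤ Nat.card φ.ker) :
    ∀ x, |(φ x).valMinAbs| ≤ ((k / 2 : ℕ) : ℤ) → x ∈ B := by
  intro v hv
  by_contra hvB
  have hr1 := hr v hvB
  have hv1 : (φ v).valMinAbs.natAbs ≤ k / 2 := by
    have : (((φ v).valMinAbs.natAbs : ℕ) : ℤ) ≤ ((k / 2 : ℕ) : ℤ) := by
      rw [Int.natCast_natAbs]; exact hv
    exact_mod_cast this
  rcases Nat.lt_or_ge k 6 with h6 | h6
  · have h24 : k = 2 ∨ k = 4 := by omega
    rcases h24 with rfl | rfl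
    · obtain rfl : m = 7 := d.hm
      rcases Nat.lt_or_ge (φ v).valMinAbs.natAbs 1 with h0 | h0
      · exact d.hole_70 hs hs2 (by omega) hr1
      · exact d.hole_71 hs hs2 (by omega) hr1
    · obtain rfl : m = 13 := d.hm
      rcases Nat.lt_or_ge (φ v).valMinAbs.natAbs 2 with h0 | h0
      · exact d.hole_13 hs hs2 (by omega) hr1
      · exact d.hole_13' hs hs2 (by omega) hr1
  · exact d.hole_A h6 hs hs2 (by omega) hr1

/-- levels up to `k / 2`, order equal to the exponent -/
theorem hole_eq {B : Finset G} {m : ℕ} {χ : AddChar G ℂ} {φ : G →+ ZMod m} {k s : ℕ}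
    (d : HD B χ φ k s) (hk : k = 16 ∨ 30 ≤ k) (hs : 3 * s ≤ Nat.card φ.ker)
    (hr : ∀ v, v ∉ B → rM B v ≤ s) :
    ∀ x, |(φ x).valMinAbs| ≤ ((k / 2 : ℕ) : ℤ) → x ∈ B := by
  intro v hv
  by_contra hvB
  have hv1 : (φ v).valMinAbs.natAbs ≤ k / 2 := by
    have : (((φ v).valMinAbs.natAbs : ℕ) : ℤ) ≤ ((k / 2 : ℕ) : ℤ) := by
      rw [Int.natCast_natAbs]; exact hv
    exact_mod_cast this
  rcases hk with rfl | h30
  · obtain rfl : m = 49 := d.hm
    rcases Nat.lt_or_ge (φ v).valMinAbs.natAbs 8 with h0 | h0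
    · exact d.hole_49 hs (by omega) (hr v hvB)
    · exact d.hole_49' hs hr hvB (by omega)
  · exact d.hole_B h30 hs (by omega) (hr v hvB)

/-! ### orders -/

lemma dvd_of_surj {e m : ℕ} (hG : ∀ g : G, e • g = 0) (φ : G →+ ZMod m)
    (hφ : Function.Surjective φ) : m ∣ e := by
  obtain ⟨g, hg⟩ := hφ 1
  have h1 : (e : ZMod m) = 0 := by
    have : φ (e • g) = 0 := by rw [hG, map_zero]
    rw [map_nsmul, hg, nsmul_one] at this
    exact this
  rwa [ZMod.natCast_eq_zero_iff] at h1

lemma mod6_of_dvd (h3 : TIII G) (hodd : Odd (Fintype.card G)) {e : ℕ} (ψ : G →+ ZMod e)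
    (hψ : Function.Surjective ψ) {d : ℕ} (hd : d ∣ e) : d % 6 = 1 := by
  obtain ⟨x, hx⟩ := hψ 1
  have h1 : e ∣ addOrderOf x := by
    have : ψ (addOrderOf x • x) = 0 := by rw [addOrderOf_nsmul_eq_zero, map_zero]
    rw [map_nsmul, hx, nsmul_one] at this
    rwa [ZMod.natCast_eq_zero_iff] at this
  have hdq : d ∣ addOrderOf x := hd.trans h1
  obtain ⟨c, hc⟩ := hdq
  have hpos := addOrderOf_pos x
  have hc0 : c ≠ 0 := by rintro rfl; omega
  have h2 : addOrderOf (c • x) = d := by
    rw [addOrderOf_nsmul_of_dvd hc0 ⟨d, by rw [hc]; ring⟩, hc]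
    exact Nat.mul_div_cancel _ (Nat.pos_of_ne_zero hc0)
  have h4 := h3 (c • x)
  rw [h2] at h4
  have h5 : d ∣ Fintype.card G := by
    rw [← h2, ← Nat.card_eq_fintype_card]; exact addOrderOf_dvd_natCard _
  have h6 : d % 2 = 1 := by
    obtain ⟨t, ht⟩ := h5
    rcases Nat.even_or_odd d with he | ho
    · exfalso
      rw [ht] at hodd
      exact (Nat.not_even_iff_odd.mpr hodd) (he.mul_right t)
    · exact Nat.odd_iff.mp ho
  omega

lemma exists_exp : ∃ e : ℕ, 0 < e ∧ (∀ g : G, e • g = 0) ∧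
    ∃ ψ : G →+ ZMod e, Function.Surjective ψ := by
  obtain ⟨g, hg⟩ := AddMonoid.exists_addOrderOf_eq_exponent (G := G)
    (AddMonoid.ExponentExists.of_finite)
  obtain ⟨ψ, hψ⟩ := exists_surj_of_order g
  refine ⟨addOrderOf g, addOrderOf_pos g, fun x => ?_, ψ, hψ⟩
  rw [hg]
  exact AddMonoid.exponent_nsmul_eq_zero x

/-- composite numbers all of whose divisors are `1` modulo `6` -/
lemma comp_big {e K : ℕ} (he : e = 3 * K + 1) (h1 : 1 < e) (hp : ¬ e.Prime)
    (h6 : ∀ d, d ∣ e → d % 6 = 1) : K = 16 ∨ 30 ≤ K := by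
  obtain ⟨a, b, ha, hb, hab⟩ := (Nat.not_prime_iff_exists_mul_eq h1).mp hp
  have ha6 := h6 a ⟨b, hab.symm⟩
  have hb6 := h6 b ⟨a, by rw [mul_comm]; exact hab.symm⟩
  have ha1 : a ≠ 1 := by
    rintro rfl; omega
  have hb1 : b ≠ 1 := by
    rintro rfl; omega
  have ha7 : 7 ≤ a := by omega
  have hb7 : 7 ≤ b := by omega
  by_cases h49 : a = 7 ∧ b = 7
  · obtain ⟨rfl, rfl⟩ := h49
    left; omega
  · right
    have : 91 ≤ a * b := by
      rcases Nat.lt_or_ge a 13 with h | h
      · have : a = 7 := by omega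
        subst this
        have : 13 ≤ b := by omega
        omega
      · calc 91 = 13 * 7 := by norm_num
          _ ≤ a * b := Nat.mul_le_mul h hb7
    omega

lemma hd_cond {m k : ℕ} (hm : m = 3 * k + 1) (h6 : ∀ d, d ∣ m → d % 6 = 1) :
    ∀ d, d ∣ m → 3 ≤ d → d < m → m / d ≤ (d + 1) * ((2 * (k / 2) + 1) / d) + 1 := by
  intro d hd h3 hdm
  obtain ⟨c, hc⟩ := hd
  have hd6 := h6 d ⟨c, hc⟩
  have hc6 := h6 c ⟨d, by rw [mul_comm]; exact hc⟩
  have hm6 := h6 m dvd_rfl
  have hdiv : m / d = c := by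
    rw [hc]; exact Nat.mul_div_cancel_left _ (by omega)
  rw [hdiv]
  obtain ⟨j, hj⟩ : ∃ j, c = 3 * j + 1 := ⟨c / 3, by omega⟩
  have hk : 2 * (k / 2) + 1 = k + 1 := by omega
  rw [hk]
  have h1 : j ≤ (k + 1) / d := by
    rw [Nat.le_div_iff_mul_le (by omega)]
    have : 3 * (j * d) + d = 3 * k + 1 := by
      rw [← hm, hc, hj]; ring
    omega
  calc c = 3 * j + 1 := hj
    _ ≤ (d + 1) * j + 1 := by
      have : 3 * j ≤ (d + 1) * j := Nat.mul_le_mul_right _ (by omega)
      omega
    _ ≤ (d + 1) * ((k + 1) / d) + 1 := by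
      have : (d + 1) * j ≤ (d + 1) * ((k + 1) / d) := Nat.mul_le_mul_left _ h1
      omega

/-- the number of Schur triples when the levels `|i| ≤ k / 2` are inside `B` -/
theorem schur_ge {m k s : ℕ} [NeZero m] (hm : m = 3 * k + 1) (hk2 : 2 ≤ k)
    (h6 : ∀ d, d ∣ m → d % 6 = 1) (φ : G →+ ZMod m) (hφ : Function.Surjective φ) {B : Finset G}
    (hB : ∀ x, |(φ x).valMinAbs| ≤ ((k / 2 : ℕ) : ℤ) → x ∈ B)
    (hks : Fintype.card G = B.card + k * Nat.card φ.ker + s) (hsh : s < Nat.card φ.ker) :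
    (s : ℤ) ^ 2 ≤ schur Bᶜ := by
  have hm6 := h6 m dvd_rfl
  have hJ : 2 * (k / 2) + 1 ≤ m := by omega
  have hA : ∀ x ∈ Bᶜ, ((k / 2 : ℕ) : ℤ) < |(φ x).valMinAbs| := by
    intro x hx
    by_contra hc
    exact (Finset.mem_compl.mp hx) (hB x (not_lt.mp hc))
  have hcomp : (((Bᶜ : Finset G)).card : ℤ) = Fintype.card G - B.card := card_compl_int B
  have hksz : (Fintype.card G : ℤ) = B.card + k * Nat.card φ.ker + s := by exact_mod_cast hks
  have h1 := lay (Nat.card φ.ker) m (m - (2 * ((k / 2 : ℕ) : ℤ) + 1)) k s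
    (fun v => ((LL φ Bᶜ v.val).card : ℤ)) (by omega) (by omega) (by omega) (by omega)
    (fun i => by positivity) (fun i => card_av hJ (av_LL hA _))
    (by rw [sum_card_LL φ hφ, hcomp]; linarith) (by positivity) (by exact_mod_cast hsh)
  have h2 := h1.trans (layer_w4 (by omega) hJ (hd_cond hm h6) φ hφ hA)
  unfold target at h2
  have e : 3 * (k:ℤ) - m = -1 := by rw [hm]; push_cast; ring
  rw [e, if_neg (by norm_num)] at h2
  linarith

/-- sum free sets in groups of type III of odd order, `n / e ≥ 4` -/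
theorem sfmax (h3 : TIII G) (hodd : Odd (Fintype.card G)) {e K : ℕ} (he : e = 3 * K + 1)
    (he1 : 1 < e) (hG : ∀ g : G, e • g = 0) (ψ : G →+ ZMod e) (hψ : Function.Surjective ψ)
    (hh4 : 4 ≤ Nat.card ψ.ker) (S : Finset G) (hS : SF S) : S.card ≤ K * Nat.card ψ.ker := by
  have hdiv : ∀ d, d ∣ e → d % 6 = 1 := fun d hd => mod6_of_dvd h3 hodd ψ hψ hd
  have he6 := hdiv e dvd_rfl
  by_cases hp : e.Prime
  · -- prime exponent
    have hfin : FinK G e K := by
      rcases Nat.lt_or_ge K 10 with h10 | h10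
      · have hK : K = 2 ∨ K = 4 ∨ K = 6 ∨ K = 8 := by omega
        rcases hK with rfl | rfl | rfl | rfl
        · subst he; exact finK7 hG
        · subst he; exact finK13 hG
        · subst he; exact finK19 hG
        · exfalso; subst he; revert hp; norm_num
      · exact finK_big he h10
    have h1 := sfK hp he (by omega) hG hfin ψ hψ S hS
    have e1 : e - 2 * K - 1 = K := by omega
    rwa [e1] at h1
  · have hK := comp_big he he1 hp hdiv
    by_contra hc
    push Not at hc
    have : NeZero e := ⟨by omega⟩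
    obtain ⟨S', hS', hcS⟩ := Finset.exists_subset_card_eq (s := S)
      (n := K * Nat.card ψ.ker + 1) (by omega)
    have hSF' : SF S' := fun x hx y hy hxy => hS x (hS' hx) y (hS' hy) (hS' hxy)
    have hn := card_ker_mul ψ hψ
    set h := Nat.card ψ.ker with hh
    set B := S'ᶜ with hB
    have hBc : Bᶜ = S' := by rw [hB, compl_compl]
    have hcomp : ((Bᶜ).card : ℤ) = Fintype.card G - B.card := card_compl_int B
    have hnz : ((Fintype.card G : ℕ) : ℤ) = e * h := by exact_mod_cast hn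
    have hez : (e:ℤ) = 3 * K + 1 := by exact_mod_cast he
    have hBz : (B.card : ℤ) = (2 * K + 1) * h - 1 := by
      rw [hBc, hcS, hnz, hez] at hcomp
      push_cast at hcomp
      linarith
    have hBn : B.card + 1 = (2 * K + 1) * h := by
      have : ((B.card + 1 : ℕ) : ℤ) = (((2 * K + 1) * h : ℕ) : ℤ) := by push_cast; linarith
      exact_mod_cast this
    have hFF : GL.FF B = ((h:ℤ) - 3) ^ 2 := by
      have h1 := four_schur_compl B
      rw [hBc, schur_SF hSF', hcS, hnz, hez] at h1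
      push_cast at h1
      nlinarith
    have hnt : Nontrivial G := by
      rw [← Fintype.one_lt_card_iff_nontrivial, hn]
      nlinarith
    obtain ⟨χ, m, φ, hm2, hsurj, hstd, -, hfou⟩ := fou_FF (G := G) B
    rw [Nat.card_eq_fintype_card] at hfou
    have hme : m ∣ e := dvd_of_surj hG φ hsurj
    have : NeZero m := ⟨by omega⟩
    obtain ⟨q, hq⟩ := hme
    have hm6 := hdiv m ⟨q, hq⟩
    have hq6 := hdiv q ⟨m, by rw [mul_comm]; exact hq⟩
    obtain ⟨j, hj⟩ : ∃ j, q = 6 * j + 1 := ⟨q / 6, by omega⟩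
    obtain ⟨k, hk⟩ : ∃ k, m = 3 * k + 1 := ⟨m / 3, by omega⟩
    have hKk : K = k * q + 2 * j := by
      have : 3 * K + 1 = 3 * (k * q + 2 * j) + 1 := by
        rw [← he, hq, hk, hj]; ring
      omega
    have hn' := card_ker_mul φ hsurj
    have hh' : Nat.card φ.ker = q * h := by
      have : m * Nat.card φ.ker = m * (q * h) := by rw [← hn', hn, hq]; ring
      exact Nat.eq_of_mul_eq_mul_left (by omega) this
    have hrz : ∀ v, v ∉ B → rM B v = 0 := by
      intro v hv
      have hvS : v ∈ S' := by rw [← hBc]; exact Finset.mem_compl.mpr hv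
      unfold rM
      rw [hBc, Finset.card_eq_zero, Finset.filter_eq_empty_iff]
      intro x hx
      exact hSF' x hx v hvS
    have hker : Nat.card φ.ker = 6 * (j * h) + h := by rw [hh', hj]; ring
    have hkz : ((Nat.card φ.ker : ℕ) : ℤ) = 6 * (j * h) + h := by exact_mod_cast hker
    have d : HD B χ φ k (2 * (j * h) + 1) := by
      refine ⟨hk, by omega, hstd, hsurj, ?_, hfou, ?_⟩
      · rw [hh']
        have e1 : (2 * k + 1) * (q * h) = (2 * K + 1) * h + 2 * (j * h) := by
          rw [hKk, hj]; ring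
        rw [e1, ← hBn]; ring
      · rw [hFF, hkz]
        push_cast
        nlinarith [mul_nonneg (by positivity : (0:ℤ) ≤ j) (by positivity : (0:ℤ) ≤ h)]
    have hhole : ∀ x, |(φ x).valMinAbs| ≤ ((k / 2 : ℕ) : ℤ) → x ∈ B := by
      rcases Nat.eq_zero_or_pos j with hj0 | hj0
      · have hq1 : q = 1 := by omega
        refine hole_eq d ?_ (by rw [hker, hj0]; omega) (fun v hv => by rw [hrz v hv]; omega)
        have : k = K := by rw [hKk, hq1, hj0]; ring
        rw [this]; exact hK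
      · have hjh : h ≤ j * h := Nat.le_mul_of_pos_left _ hj0
        refine hole_lt d (by omega) (by omega) (by rw [hker]; omega) (by rw [hker]; omega)
          (fun v hv => by rw [hrz v hv]; omega)
    have hks : Fintype.card G = B.card + k * Nat.card φ.ker + (2 * (j * h) + 1) := by
      have h1 := d.hb
      have h2 : Fintype.card G = (2 * k + 1) * Nat.card φ.ker + k * Nat.card φ.ker := by
        rw [hn', hh', hk]; ring
      rw [h2, ← h1]; ring
    have h6m : ∀ d, d ∣ m → d % 6 = 1 := fun d hd => hdiv d (hd.trans ⟨q, hq⟩)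
    have h7 := schur_ge hk (by omega) h6m φ hsurj hhole hks (by rw [hker]; omega)
    rw [hBc, schur_SF hSF'] at h7
    push_cast at h7
    nlinarith [mul_nonneg (by positivity : (0:ℤ) ≤ j) (by positivity : (0:ℤ) ≤ h)]

/-- **no counterexample above `2/3`** -/
theorem above_two_thirds {B : Finset G} {m : ℕ} {χ : AddChar G ℂ} {φ : G →+ ZMod m}
    (ctx : Ctx B χ φ) (hodd : Odd (Fintype.card G))
    (hb : 2 * Fintype.card G < 3 * B.card) : False := by
  have h3 := tiii_of_ctx ctx hb
  obtain ⟨e, he0, hG, ψ, hψ⟩ := exists_exp (G := G)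
  have hdiv : ∀ d, d ∣ e → d % 6 = 1 := fun d hd => mod6_of_dvd h3 hodd ψ hψ hd
  have he6 := hdiv e dvd_rfl
  obtain ⟨K, hK⟩ : ∃ K, e = 3 * K + 1 := ⟨e / 3, by omega⟩
  have : NeZero e := ⟨by omega⟩
  have hme : m ∣ e := dvd_of_surj hG φ ctx.surj
  have hm4 := ctx.hm
  have : NeZero m := ⟨by omega⟩
  have hm_le : m ≤ e := Nat.le_of_dvd he0 hme
  have hn := card_ker_mul ψ hψ
  have ht := ctx.triv e ψ hψ
  have e3 : (e + 1) / 3 = K := by omega
  rw [e3] at ht
  have hhpos : 0 < Nat.card ψ.ker := Nat.card_pos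
  obtain ⟨q, hq⟩ := hme
  have hm6 := hdiv m ⟨q, hq⟩
  have hq6 := hdiv q ⟨m, by rw [mul_comm]; exact hq⟩
  obtain ⟨j, hj⟩ : ∃ j, q = 6 * j + 1 := ⟨q / 6, by omega⟩
  obtain ⟨k, hk⟩ : ∃ k, m = 3 * k + 1 := ⟨m / 3, by omega⟩
  have hKk : K = k * q + 2 * j := by
    have : 3 * K + 1 = 3 * (k * q + 2 * j) + 1 := by
      rw [← hK, hq, hk, hj]; ring
    omega
  have hn' := card_ker_mul φ ctx.surj
  set h := Nat.card ψ.ker with hh
  have hh' : Nat.card φ.ker = q * h := by
    have : m * Nat.card φ.ker = m * (q * h) := by rw [← hn', hn, hq]; ring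
    exact Nat.eq_of_mul_eq_mul_left (by omega) this
  have hker : Nat.card φ.ker = 6 * (j * h) + h := by rw [hh', hj]; ring
  -- `b < (2 K + 1) h`
  have hb1 : B.card < (2 * K + 1) * h := by
    have h1 : e * (B.card + K * h) < e * (e * h) := by
      calc e * (B.card + K * h) = e * B.card + K * (e * h) := by ring
        _ < e * (e * h) := by rw [← hn]; exact ht
    have h2 := Nat.lt_of_mul_lt_mul_left h1
    have h4 : e * h = (2 * K + 1) * h + K * h := by rw [hK]; ring
    omega
  obtain ⟨s, hs⟩ : ∃ s, B.card + s = (2 * K + 1) * h := ⟨(2 * K + 1) * h - B.card, by omega⟩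
  have hs1 : 1 ≤ s := by omega
  have hs3 : 3 * s < h := by
    rw [hn, hK] at hb
    have e1 : 2 * ((3 * K + 1) * h) + h = 3 * ((2 * K + 1) * h) := by ring
    omega
  have hSF := sfmax h3 hodd hK (by omega) hG ψ hψ (by omega)
  have hK1 : 1 ≤ K := by omega
  have hbud := (budget3 h3 hK hK1 hG ψ hψ hSF ctx.maxi hs hs1 hb).2
  have hr : ∀ v, v ∉ B → rM B v ≤ s := by
    intro v hv
    have h1 := hbud v hv
    have : (0:ℤ) ≤ ((Bᶜ.filter (fun x => v - x ∈ Bᶜ)).card : ℤ) := by positivity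
    have h9 : (rM B v : ℤ) ≤ s := by unfold rM; linarith
    exact_mod_cast h9
  have hbm : B.card + (s + 2 * (j * h)) = (2 * k + 1) * Nat.card φ.ker := by
    rw [hh']
    have e1 : (2 * k + 1) * (q * h) = (2 * K + 1) * h + 2 * (j * h) := by
      rw [hKk, hj]; ring
    rw [e1, ← hs]; ring
  have hlo : ((Nat.card φ.ker : ℤ) - ((s + 2 * (j * h) : ℕ) : ℤ)) *
      ((Nat.card φ.ker : ℤ) - 5 * ((s + 2 * (j * h) : ℕ) : ℤ)) ≤ fG G B.card :=
    wit_below φ ctx.surj (b := B.card) (j := k) (s := s + 2 * (j * h)) hbm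
      (by rw [hker]; omega) (by omega)
  have d : HD B χ φ k (s + 2 * (j * h)) :=
    ⟨hk, by omega, ctx.std, ctx.surj, hbm, ctx.fou, lt_of_le_of_lt hlo ctx.big⟩
  have h6m : ∀ d, d ∣ m → d % 6 = 1 := fun d hd => hdiv d (hd.trans ⟨q, hq⟩)
  have hks : Fintype.card G = B.card + k * Nat.card φ.ker + (s + 2 * (j * h)) := by
    have h2 : Fintype.card G = (2 * k + 1) * Nat.card φ.ker + k * Nat.card φ.ker := by
      rw [hn', hh', hk]; ring
    rw [h2, ← hbm]; ring
  have hcontra : ¬ Bd G B.card (GL.FF B) := by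
    intro h
    rw [Bd_card_iff] at h
    have := ctx.big
    linarith
  have fin : (∀ x, |(φ x).valMinAbs| ≤ ((k / 2 : ℕ) : ℤ) → x ∈ B) → False := by
    intro hhole
    exact hcontra (lay_Bd (J := k / 2) (by omega) (by omega) (hd_cond hk h6m) φ ctx.surj hhole hks
      (by rw [hker]; omega) (by omega) (by omega) (by omega))
  rcases Nat.eq_zero_or_pos j with hj0 | hj0
  · have hq1 : q = 1 := by omega
    have hkK : k = K := by rw [hKk, hq1, hj0]; ring
    have hmeq : m = e := by rw [hq, hq1, mul_one]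
    by_cases hp : e.Prime
    · -- prime exponent
      subst hmeq
      have hfin : FinK G m K := by
        rcases Nat.lt_or_ge K 10 with h10 | h10
        · have hK2 : K = 2 ∨ K = 4 ∨ K = 6 ∨ K = 8 := by omega
          rcases hK2 with rfl | rfl | rfl | rfl
          · obtain rfl : m = 7 := hK
            exact finK7 hG
          · obtain rfl : m = 13 := hK
            exact finK13 hG
          · obtain rfl : m = 19 := hK
            exact finK19 hG
          · exfalso; rw [hK] at hp; revert hp; norm_num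
        · exact finK_big hK h10
      have hd1 := d1_K hp hK (by omega) hG hfin ctx (by
        have e1 : m * B.card = 3 * B.card * K + B.card := by rw [hK]; ring
        have e2 : 2 * K * Fintype.card G ≤ 3 * B.card * K := by
          calc 2 * K * Fintype.card G = (2 * Fintype.card G) * K := by ring
            _ ≤ 3 * B.card * K := Nat.mul_le_mul_right _ hb.le
        have : 0 < B.card := by
          have : 0 < Fintype.card G := Fintype.card_pos
          omega
        omega)
      have : Fact m.Prime := ⟨hp⟩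
      let _ : Module (ZMod m) G := AddCommGroup.zmodModule hG
      exact hcontra (slice_Bd (p := m) φ.ker hn' (fun x hx => hd1 x ((AddMonoidHom.mem_ker).mp hx))
        hks (by rw [hker]; omega) (by omega))
    · have hK2 := comp_big hK (by omega) hp hdiv
      refine fin (hole_eq d (by rw [hkK]; exact hK2) (by rw [hker]; omega) (fun v hv => ?_))
      exact (hr v hv).trans (by omega)
  · have hjh : h ≤ j * h := Nat.le_mul_of_pos_left _ hj0
    refine fin (hole_lt d (by omega) (by omega) (by rw [hker]; omega) (by rw [hker]; omega)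
      (fun v hv => ?_))
    have := hr v hv
    rw [hker]
    omega

end

end Pool.Agent.D1X
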