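import Mathlib
import Pool.Agent.Lib_helper22.SCHD.T3Sh

/-!
# Prime exponent, `0.56 < b / n < 2 / 3`: the real inequality
-/

set_option autoImplicit false

namespace Pool.Agent.D1X

lemma pe_poly {x y : ℝ} (hy0 : 0 ≤ y) (hy1 : y ≤ 0.2857) (hx0 : y ≤ 9.425 * x)
    (hx1 : x ≤ 0.1067) :
    0 < 0.12074 + 2.97999 * x - 20.4204 * x ^ 2 - y * (1 / 3 + x) -
      y ^ 2 * (0.572 + 1.2281 * x) := by
  have hx00 : 0 ≤ x := by linarith
  have hxy : 0 ≤ x * y := mul_nonneg hx00 hy0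
  -- concave in `x`
  have h1 : 0 ≤ (9.425 * x - y) * (0.1067 - x) := by
    apply mul_nonneg
    · linarith
    · linarith
  have e1 : (9.425 * x - y) * (0.1067 - x) =
      1.0056475 * x - 9.425 * x ^ 2 - 0.1067 * y + x * y := by ring
  rw [e1] at h1
  -- a lower bound which is linear in `x`
  have h2 : 0.8011 * x + 0.2311 * y - 2.1667 * (x * y) ≤ 2.97999 * x - 20.4204 * x ^ 2 := by
    linarith
  -- linear in `x`: end points
  have hy2 : y ^ 2 ≤ 0.2857 * y := by nlinarith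
  have hy20 : 0 ≤ y ^ 2 := sq_nonneg y
  have key : 0 < 0.12074 + 0.2311 * y - y / 3 - 0.572 * y ^ 2 +
      (0.8011 - 3.1667 * y - 1.2281 * y ^ 2) * x := by
    by_cases hc : 0 ≤ 0.8011 - 3.1667 * y - 1.2281 * y ^ 2
    · have h3 : 0 ≤ (0.8011 - 3.1667 * y - 1.2281 * y ^ 2) * (9.425 * x - y) :=
        mul_nonneg hc (by linarith)
      have h5 : y ^ 3 ≤ 0.2857 * y ^ 2 := by nlinarith
      have e2 : (0.8011 - 3.1667 * y - 1.2281 * y ^ 2) * (9.425 * x - y) =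
        9.425 * ((0.8011 - 3.1667 * y - 1.2281 * y ^ 2) * x) - 0.8011 * y + 3.1667 * y ^ 2 +
          1.2281 * y ^ 3 := by ring
      rw [e2] at h3
      linarith
    · push Not at hc
      have h3 : 0 ≤ -(0.8011 - 3.1667 * y - 1.2281 * y ^ 2) * (0.1067 - x) :=
        mul_nonneg (by linarith) (by linarith)
      have e2 : -(0.8011 - 3.1667 * y - 1.2281 * y ^ 2) * (0.1067 - x) =
        (0.8011 - 3.1667 * y - 1.2281 * y ^ 2) * x -
          0.1067 * (0.8011 - 3.1667 * y - 1.2281 * y ^ 2) := by ring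
      rw [e2] at h3
      linarith
  have e3 : 0.12074 + 0.2311 * y - y / 3 - 0.572 * y ^ 2 +
      (0.8011 - 3.1667 * y - 1.2281 * y ^ 2) * x =
      0.12074 + (0.8011 * x + 0.2311 * y - 2.1667 * (x * y)) - y * (1 / 3 + x) -
      y ^ 2 * (0.572 + 1.2281 * x) := by ring
  rw [e3] at key
  linarith

/-- the contradiction -/
lemma pe_core {e h b R F : ℝ} (he : 11 ≤ e) (hh : 0 < h) (hb1 : 14 * (e * h) ≤ 25 * b)
    (hb2 : 3 * b + h ≤ 2 * (e * h))
    (hsh : Real.sin (Real.pi / e) * R ≤ h * (Real.sin (Real.pi * b / (e * h)) *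
      Real.cos (Real.pi * b / (2 * (e * h)) - Real.pi / e / 3)))
    (hfou : (e * h) * (F + 3 * b ^ 2) ≤ 4 * b ^ 3 + 4 * R * ((e * h) * b - b ^ 2))
    (hF : -(4 * h ^ 2) ≤ 5 * F) : False := by
  have p0 := Real.pi_gt_d4
  have p1 := Real.pi_lt_d4
  have he0 : 0 < e := by linarith
  have hn : 0 < e * h := by positivity
  set n := e * h with hndef
  set y := Real.pi / e with hy
  have hye : y * e = Real.pi := by rw [hy]; field_simp
  have hy0 : 0 < y := by positivity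
  have hy1 : y ≤ 0.2857 := by
    rw [hy, div_le_iff₀ he0]; linarith
  set x := 2 / 3 - b / n with hx
  have hbx : b = n * (2 / 3 - x) := by rw [hx]; field_simp; ring
  have hx1 : x ≤ 0.1067 := by
    rw [hx]
    have : 14 / 25 ≤ b / n := by rw [le_div_iff₀ hn]; linarith
    linarith
  have hx0 : 1 / (3 * e) ≤ x := by
    rw [hx]
    have : b / n ≤ (2 * n - h) / (3 * n) := by
      rw [div_le_div_iff₀ hn (by positivity)]
      have := mul_le_mul_of_nonneg_right hb2 hn.le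
      linarith
    have e1 : (2 * n - h) / (3 * n) = 2 / 3 - 1 / (3 * e) := by
      rw [hndef]; field_simp
    linarith
  have hxy : y ≤ 9.425 * x := by
    have : y = 3 * Real.pi * (1 / (3 * e)) := by rw [hy]; field_simp
    rw [this]
    have h1 : 3 * Real.pi * (1 / (3 * e)) ≤ 3 * Real.pi * x :=
      mul_le_mul_of_nonneg_left hx0 (by positivity)
    have hxp : 0 ≤ x := le_trans (by positivity) hx0
    have := mul_le_mul_of_nonneg_right p1.le hxp
    linarith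
  have hxp : 0 ≤ x := le_trans (by positivity) hx0
  -- the angles
  have e1 : Real.pi * b / n = 2 * Real.pi / 3 - Real.pi * x := by
    rw [hbx]; field_simp
  have e2 : Real.pi * b / (2 * n) - y / 3 = Real.pi / 3 - Real.pi * x / 2 - y / 3 := by
    rw [hbx]; field_simp
  rw [e1, e2] at hsh
  have hS : Real.sin (2 * Real.pi / 3 - Real.pi * x) *
      Real.cos (Real.pi / 3 - Real.pi * x / 2 - y / 3) ≤
      √3 / 4 + 5 * Real.pi / 8 * x + y / 4 := by
    have h1 : 2 * (Real.sin (2 * Real.pi / 3 - Real.pi * x) *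
      Real.cos (Real.pi / 3 - Real.pi * x / 2 - y / 3)) =
      Real.sin (3 * Real.pi * x / 2 + y / 3) + Real.sin (Real.pi / 3 + (y / 3 - Real.pi * x / 2)) := by
      have e3 : Real.sin (3 * Real.pi * x / 2 + y / 3) =
          Real.sin ((2 * Real.pi / 3 - Real.pi * x) + (Real.pi / 3 - Real.pi * x / 2 - y / 3)) := by
        rw [← Real.sin_pi_sub]; congr 1; ring
      have e4 : Real.sin (Real.pi / 3 + (y / 3 - Real.pi * x / 2)) =
          Real.sin ((2 * Real.pi / 3 - Real.pi * x) - (Real.pi / 3 - Real.pi * x / 2 - y / 3)) := by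
        congr 1; ring
      rw [e3, e4, Real.sin_add (2 * Real.pi / 3 - Real.pi * x),
        Real.sin_sub (2 * Real.pi / 3 - Real.pi * x) (Real.pi / 3 - Real.pi * x / 2 - y / 3)]
      ring
    have h2 : Real.sin (3 * Real.pi * x / 2 + y / 3) ≤ 3 * Real.pi * x / 2 + y / 3 :=
      Real.sin_le (by positivity)
    have h3 : Real.sin (Real.pi / 3 + (y / 3 - Real.pi * x / 2)) ≤
        √3 / 2 + (y / 3 - Real.pi * x / 2) / 2 := by
      apply sin_third_add
      have := mul_le_mul_of_nonneg_right p1.le hxp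
      linarith
    linarith
  have h3b : √3 ≤ 1.73206 := by
    rw [Real.sqrt_le_left (by norm_num)]; norm_num
  -- lower bound of `R`
  have ha : 0 < n - b := by linarith
  have hb0 : 0 < b := by linarith
  have hsy : y * (1 - 0.1675 * y ^ 2) ≤ Real.sin y := by
    have h1 := sin_ge_q hy0.le (by linarith : y ≤ 1)
    have h2 : y ^ 2 ≤ 0.2857 ^ 2 := pow_le_pow_left₀ hy0.le hy1 2
    have h30 : 0 < y ^ 3 := by positivity
    have h3 : y ^ 3 * y ^ 2 ≤ y ^ 3 * 0.2857 ^ 2 := mul_le_mul_of_nonneg_left h2 h30.le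
    have e3 : y ^ 5 = y ^ 3 * y ^ 2 := by ring
    have e4 : y * (1 - 0.1675 * y ^ 2) = y - 0.1675 * y ^ 3 := by ring
    rw [e4]
    rw [e3] at h1
    norm_num at h3 ⊢
    linarith
  have hy22 : y ^ 2 ≤ 0.0817 := by
    have h2 : y ^ 2 ≤ 0.2857 ^ 2 := pow_le_pow_left₀ hy0.le hy1 2
    norm_num at h2 ⊢
    linarith
  have hsy0 : 0 < 1 - 0.1675 * y ^ 2 := by linarith
  have hR1 : n * (3 * b ^ 2) - 4 * b ^ 3 - 4 / 5 * (n * h ^ 2) ≤ 4 * R * (b * (n - b)) := by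
    have h1 : n * (-(4 * h ^ 2)) ≤ n * (5 * F) := mul_le_mul_of_nonneg_left hF hn.le
    linarith
  have hR2 : (y * (1 - 0.1675 * y ^ 2)) * (n * (3 * b ^ 2) - 4 * b ^ 3 - 4 / 5 * (n * h ^ 2)) ≤
      4 * (b * (n - b)) * (h * (√3 / 4 + 5 * Real.pi / 8 * x + y / 4)) := by
    rcases le_or_gt (n * (3 * b ^ 2) - 4 * b ^ 3 - 4 / 5 * (n * h ^ 2)) 0 with h0 | h0
    · have h1 : (y * (1 - 0.1675 * y ^ 2)) *
          (n * (3 * b ^ 2) - 4 * b ^ 3 - 4 / 5 * (n * h ^ 2)) ≤ 0 :=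
        mul_nonpos_of_nonneg_of_nonpos (by positivity) h0
      refine h1.trans ?_
      positivity
    · have h1 : (y * (1 - 0.1675 * y ^ 2)) *
          (n * (3 * b ^ 2) - 4 * b ^ 3 - 4 / 5 * (n * h ^ 2)) ≤
          Real.sin y * (4 * R * (b * (n - b))) :=
        mul_le_mul hsy hR1 h0.le (le_trans (by positivity) hsy)
      have h2 : Real.sin y * (4 * R * (b * (n - b))) = 4 * (b * (n - b)) * (Real.sin y * R) := by
        ring
      rw [h2] at h1
      refine h1.trans ?_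
      apply mul_le_mul_of_nonneg_left _ (by positivity)
      refine hsh.trans ?_
      exact mul_le_mul_of_nonneg_left hS hh.le
  -- units
  have hh' : h = n * (y / Real.pi) := by
    rw [hndef, hy]; field_simp
  set β := 2 / 3 - x with hβ
  have hβ1 : 0.56 ≤ β := by
    have : 14 / 25 ≤ b / n := by rw [le_div_iff₀ hn]; linarith
    have : β = b / n := by rw [hβ, hx]; ring
    linarith
  rw [hbx] at hR2
  have e5 : (y * (1 - 0.1675 * y ^ 2)) * (n * (3 * (n * β) ^ 2) - 4 * (n * β) ^ 3 -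
      4 / 5 * (n * h ^ 2)) = n ^ 3 * (y / Real.pi) * ((1 - 0.1675 * y ^ 2) *
      (Real.pi * (3 * β ^ 2 - 4 * β ^ 3) - 4 / 5 * (y ^ 2 / Real.pi))) := by
    rw [hh']; field_simp
  have e6 : 4 * (n * β * (n - n * β)) * (h * (√3 / 4 + 5 * Real.pi / 8 * x + y / 4)) =
      n ^ 3 * (y / Real.pi) * (4 * (β * (1 - β)) * (√3 / 4 + 5 * Real.pi / 8 * x + y / 4)) := by
    rw [hh']; ring
  rw [e5, e6] at hR2
  have h7 := le_of_mul_le_mul_left hR2 (by positivity)
  -- divide by `β`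
  have h8 : (1 - 0.1675 * y ^ 2) * (Real.pi * (3 * β - 4 * β ^ 2) - 0.4548 * y ^ 2) ≤
      4 * (1 - β) * (√3 / 4 + 5 * Real.pi / 8 * x + y / 4) := by
    have h9 : β * ((1 - 0.1675 * y ^ 2) * (Real.pi * (3 * β - 4 * β ^ 2) - 0.4548 * y ^ 2)) ≤
        (1 - 0.1675 * y ^ 2) * (Real.pi * (3 * β ^ 2 - 4 * β ^ 3) - 4 / 5 * (y ^ 2 / Real.pi)) := by
      have h10 : 4 / 5 * (y ^ 2 / Real.pi) ≤ β * (0.4548 * y ^ 2) := by
        have h11 : y ^ 2 / Real.pi ≤ y ^ 2 / 3.1415 := by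
          apply div_le_div_of_nonneg_left (by positivity) (by norm_num) p0.le
        have h12 : 0.56 * (0.4548 * y ^ 2) ≤ β * (0.4548 * y ^ 2) :=
          mul_le_mul_of_nonneg_right hβ1 (by positivity)
        have h13 : 0 ≤ y ^ 2 := sq_nonneg y
        have h14 : y ^ 2 / 3.1415 ≤ 0.31832 * y ^ 2 := by
          rw [div_le_iff₀ (by norm_num)]; linarith
        calc 4 / 5 * (y ^ 2 / Real.pi) ≤ 4 / 5 * (0.31832 * y ^ 2) := by
              apply mul_le_mul_of_nonneg_left (h11.trans h14) (by norm_num)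
          _ ≤ 0.56 * (0.4548 * y ^ 2) := by linarith
          _ ≤ _ := h12
      have e7 : β * ((1 - 0.1675 * y ^ 2) * (Real.pi * (3 * β - 4 * β ^ 2) - 0.4548 * y ^ 2)) =
          (1 - 0.1675 * y ^ 2) * (Real.pi * (3 * β ^ 2 - 4 * β ^ 3) - β * (0.4548 * y ^ 2)) := by
        ring
      rw [e7]
      apply mul_le_mul_of_nonneg_left _ hsy0.le
      linarith
    have h14 := h9.trans h7
    have e8 : 4 * (β * (1 - β)) * (√3 / 4 + 5 * Real.pi / 8 * x + y / 4) =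
        β * (4 * (1 - β) * (√3 / 4 + 5 * Real.pi / 8 * x + y / 4)) := by ring
    rw [e8] at h14
    exact le_of_mul_le_mul_left h14 (by linarith)
  have hpoly := pe_poly hy0.le hy1 hxy hx1
  -- final comparison
  have hy2 : 0 ≤ y ^ 2 := sq_nonneg y
  have hx2 : x ^ 2 ≤ 0.1067 * x := by
    have := mul_le_mul_of_nonneg_right hx1 hxp
    linarith
  have hx20 : 0 ≤ x ^ 2 := sq_nonneg x
  have hw : 3 * β - 4 * β ^ 2 = 2 / 9 + 7 / 3 * x - 4 * x ^ 2 := by rw [hβ]; ring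
  have hw0 : 0 ≤ 2 / 9 + 7 / 3 * x - 4 * x ^ 2 := by linarith
  have h15 : 3.1415 * (2 / 9 + 7 / 3 * x - 4 * x ^ 2) ≤
      Real.pi * (2 / 9 + 7 / 3 * x - 4 * x ^ 2) := mul_le_mul_of_nonneg_right p0.le hw0
  have h16 : Real.pi * (2 / 9 + 7 / 3 * x - 4 * x ^ 2) ≤ 0.69815 + 7.3305 * x := by
    have := mul_le_mul_of_nonneg_right p1.le hw0
    linarith
  rw [hw] at h8
  have h17 : 3.1415 * (2 / 9 + 7 / 3 * x - 4 * x ^ 2) - 0.4548 * y ^ 2 -
      0.1675 * y ^ 2 * (0.69815 + 7.3305 * x) ≤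
      (1 - 0.1675 * y ^ 2) * (Real.pi * (2 / 9 + 7 / 3 * x - 4 * x ^ 2) - 0.4548 * y ^ 2) := by
    have h18 : y ^ 2 * (Real.pi * (2 / 9 + 7 / 3 * x - 4 * x ^ 2)) ≤
        y ^ 2 * (0.69815 + 7.3305 * x) := mul_le_mul_of_nonneg_left h16 hy2
    have h20 : 0 ≤ y ^ 2 * y ^ 2 := mul_nonneg hy2 hy2
    have e10 : (1 - 0.1675 * y ^ 2) * (Real.pi * (2 / 9 + 7 / 3 * x - 4 * x ^ 2) - 0.4548 * y ^ 2) =
      Real.pi * (2 / 9 + 7 / 3 * x - 4 * x ^ 2) - 0.4548 * y ^ 2 -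
      0.1675 * (y ^ 2 * (Real.pi * (2 / 9 + 7 / 3 * x - 4 * x ^ 2))) +
      0.1675 * 0.4548 * (y ^ 2 * y ^ 2) := by ring
    rw [e10]
    linarith
  have h19 : 4 * (1 - β) * (√3 / 4 + 5 * Real.pi / 8 * x + y / 4) ≤
      (4 / 3 + 4 * x) * (0.433015 + 1.9635 * x + y / 4) := by
    have e9 : 4 * (1 - β) = 4 / 3 + 4 * x := by rw [hβ]; ring
    rw [e9]
    apply mul_le_mul_of_nonneg_left _ (by positivity)
    have : Real.pi * x ≤ 3.1416 * x := mul_le_mul_of_nonneg_right p1.le hxp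
    linarith
  have hf := (h17.trans h8).trans h19
  have h21 : 0 ≤ x * y ^ 2 := mul_nonneg hxp hy2
  have e11 : (4 / 3 + 4 * x) * (0.433015 + 1.9635 * x + y / 4) =
    0.433015 * 4 / 3 + (0.433015 * 4 + 1.9635 * 4 / 3) * x + 1.9635 * 4 * x ^ 2 +
      y * (1 / 3 + x) := by ring
  rw [e11] at hf
  have e12 : 0.1675 * y ^ 2 * (0.69815 + 7.3305 * x) = 0.1675 * 0.69815 * y ^ 2 +
    0.1675 * 7.3305 * (x * y ^ 2) := by ring
  rw [e12] at hf
  have e13 : y ^ 2 * (0.572 + 1.2281 * x) = 0.572 * y ^ 2 + 1.2281 * (x * y ^ 2) := by ring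
  rw [e13] at hpoly
  linarith only [hf, hpoly, h21, hy2, hx20, hxp]

end Pool.Agent.D1X
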