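import Mathlib
import Pool.Agent.Lib_helper22.SCHD.PERe
import Pool.Agent.Lib_helper22.SCHD.T3

/-!
# Prime exponent at least 11, `0.56 < b / n < 2 / 3`
-/

set_option autoImplicit false
set_option linter.unusedSectionVars false

namespace Pool.Agent.D1X

open Finset Pool.Agent.GL Pool.Agent.Lib_helper42.RS Pool.Agent.Lib_helper13.PL Pool.Agent.SCH SCH4

universe u

section
variable {G : Type u} [AddCommGroup G] [Fintype G] [DecidableEq G]

/-- sum free sets, prime exponent `3 k + 2` -/
theorem sf2 {e k : ℕ} (hp : e.Prime) (he : e = 3 * k + 2) (hk : 2 ≤ k) (hG : ∀ g : G, e • g = 0)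
    (φ : G →+ ZMod e) (hφ : Function.Surjective φ)
    (S : Finset G) (hS : SF S) : S.card ≤ (k + 1) * Nat.card φ.ker := by
  by_contra hc
  push Not at hc
  have : Fact e.Prime := ⟨hp⟩
  have : NeZero e := ⟨hp.ne_zero⟩
  let _ : Module (ZMod e) G := AddCommGroup.zmodModule hG
  obtain ⟨S', hS', hcS⟩ := Finset.exists_subset_card_eq (s := S)
    (n := (k + 1) * Nat.card φ.ker + 1) (by omega)
  have hSF' : SF S' := fun x hx y hy hxy => hS x (hS' hx) y (hS' hy) (hS' hxy)
  have hn := card_ker_mul φ hφ
  set h := Nat.card φ.ker with hh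
  have hhpos : 0 < h := Nat.card_pos
  set B := S'ᶜ with hB
  have hBc : Bᶜ = S' := by rw [hB, compl_compl]
  have hcomp : ((Bᶜ).card : ℤ) = Fintype.card G - B.card := card_compl_int B
  have hnz : ((Fintype.card G : ℕ) : ℤ) = e * h := by exact_mod_cast hn
  have hez : (e:ℤ) = 3 * k + 2 := by exact_mod_cast he
  have hBz : (B.card : ℤ) = (2 * k + 1) * h - 1 := by
    rw [hBc, hcS, hnz, hez] at hcomp
    push_cast at hcomp
    linarith
  have hFF : GL.FF B = ((h:ℤ) + 3) ^ 2 := by
    have h1 := four_schur_compl B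
    rw [hBc, schur_SF hSF', hcS, hnz, hez] at h1
    push_cast at h1
    nlinarith
  have hnt : Nontrivial G := by
    rw [← Fintype.one_lt_card_iff_nontrivial, hn]
    have := hp.two_le
    nlinarith
  obtain ⟨χ, m, ψ, hm2, hsurj, hstd, -, hfou⟩ := fou_FF (G := G) B
  rw [Nat.card_eq_fintype_card] at hfou
  have hme : m = e := by
    rcases (Nat.dvd_prime hp).mp (dvd_of_surj hG ψ hsurj) with h2 | h2
    · omega
    · exact h2
  subst hme
  have hn' := card_ker_mul ψ hsurj
  have hh' : Nat.card ψ.ker = h := by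
    have : m * Nat.card ψ.ker = m * h := by rw [← hn', hn]
    exact Nat.eq_of_mul_eq_mul_left hp.pos this
  by_cases hv : ∃ v ∈ S', ψ v = 0
  · obtain ⟨v, hvS, hv0⟩ := hv
    have hr0 : (B.card : ℤ) + dlt B v = Fintype.card G := by
      have h1 := rm_eq B v
      rw [hBc] at h1
      have h2 : S'.filter (fun x => x + v ∈ S') = ∅ := by
        rw [Finset.filter_eq_empty_iff]
        intro x hx
        exact hSF' x hx v hvS
      rw [h2] at h1
      rw [hBc] at hcomp
      simp only [Finset.card_empty, Nat.cast_zero, zero_add] at h1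
      linarith
    have hsh := shift1 hm2 hsurj hstd B v
    have hang : ang ψ v = 0 := by unfold ang; rw [hv0]; simp
    rw [hang, Real.cos_zero, abs_one, one_mul, hh'] at hsh
    -- real numbers
    have hm0 : (0:ℝ) < m := by exact_mod_cast hp.pos
    have hhR : (1:ℝ) ≤ h := by exact_mod_cast hhpos
    have hkR : (2:ℝ) ≤ k := by exact_mod_cast hk
    have hmR : (m:ℝ) = 3 * k + 2 := by exact_mod_cast he
    have hnR : (Fintype.card G : ℝ) = m * h := by exact_mod_cast hn
    have hbR : (B.card : ℝ) = (2 * k + 1) * h - 1 := by exact_mod_cast hBz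
    have hFR : ((GL.FF B : ℤ) : ℝ) = (h + 3) ^ 2 := by exact_mod_cast hFF
    set a : ℝ := (k + 1) * h + 1 with ha
    have hdR : ((dlt B v : ℤ) : ℝ) = a := by
      have : (B.card : ℝ) + ((dlt B v : ℤ) : ℝ) = Fintype.card G := by exact_mod_cast hr0
      rw [hbR, hnR, hmR] at this
      rw [ha]; linarith
    set n : ℝ := (m:ℝ) * h with hn2
    have hn0 : 0 < n := by positivity
    have hbn : (B.card : ℝ) = n - a := by rw [hbR, hn2, hmR, ha]; ring
    have ha3 : n ≤ 3 * a := by rw [hn2, hmR, ha]; nlinarith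
    have ha2 : 2 * a ≤ n := by rw [hn2, hmR, ha]; nlinarith
    rw [hdR, hbn, hnR] at hsh
    have hp0 := Real.pi_gt_d4
    have hp1 := Real.pi_lt_d4
    have hsin2 : Real.sin (Real.pi * (n - a) / n) * Real.cos (Real.pi * a / n) ≤ √3 / 4 := by
      have e1 : Real.pi * (n - a) / n = Real.pi - Real.pi * a / n := by field_simp
      rw [e1, Real.sin_pi_sub]
      have e2 : Real.sin (Real.pi * a / n) * Real.cos (Real.pi * a / n) =
          Real.sin (Real.pi - 2 * (Real.pi * a / n)) / 2 := by
        rw [Real.sin_pi_sub, Real.sin_two_mul]; ring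
      have h1 : Real.pi / 3 ≤ Real.pi * a / n := by
        rw [div_le_div_iff₀ (by norm_num) hn0]
        nlinarith
      have h2 : Real.pi * a / n ≤ Real.pi / 2 := by
        rw [div_le_div_iff₀ hn0 (by norm_num)]
        nlinarith
      have h3 : Real.sin (Real.pi - 2 * (Real.pi * a / n)) ≤ Real.sin (Real.pi / 3) := by
        apply Real.sin_le_sin_of_le_of_le_pi_div_two
        · linarith
        · linarith
        · linarith
      rw [Real.sin_pi_div_three] at h3
      rw [e2]
      linarith
    set y := Real.pi / m with hy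
    have hm8 : (8:ℝ) ≤ m := by rw [hmR]; linarith
    have hy0 : 0 < y := by positivity
    have hy1 : y ≤ 0.4 := by rw [hy, div_le_iff₀ hm0]; linarith
    have hsy : 0.95 * y ≤ Real.sin y := by
      have h1 := sin_ge_q hy0.le (by linarith : y ≤ 1)
      have h2 : y ^ 2 ≤ 0.4 ^ 2 := pow_le_pow_left₀ hy0.le hy1 2
      have h3 : y ^ 4 ≤ 0.4 ^ 4 := pow_le_pow_left₀ hy0.le hy1 4
      have h4 := mul_le_mul_of_nonneg_left h2 hy0.le
      have h5 := mul_le_mul_of_nonneg_left h3 hy0.le
      have e3 : y ^ 3 = y * y ^ 2 := by ring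
      have e5 : y ^ 5 = y * y ^ 4 := by ring
      rw [e3, e5] at h1
      norm_num at h4 h5
      linarith
    have hsy0 : 0 < Real.sin y := by linarith
    have h6 : (hat B χ).re * Real.sin y ≤ h * (√3 / 4) := by
      have h7 := (Complex.re_le_norm (hat B χ)).trans hsh
      have h8 := mul_le_mul_of_nonneg_right h7 hsy0.le
      have e4 : (h:ℝ) / Real.sin y * Real.sin (Real.pi * (n - a) / n) *
          Real.cos (Real.pi * a / n) * Real.sin y =
          h * (Real.sin (Real.pi * (n - a) / n) * Real.cos (Real.pi * a / n)) := by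
        field_simp
      rw [e4] at h8
      exact h8.trans (mul_le_mul_of_nonneg_left hsin2 (by linarith))
    rw [hFR, hbn, hnR] at hfou
    have e6 : ((h:ℝ) + 3) ^ 2 = (2 * a - (n - a)) ^ 2 := by rw [hn2, hmR, ha]; ring
    rw [e6] at hfou
    have h9 : a * (4 * a ^ 2) ≤ a * (4 * ((hat B χ).re * (n - a))) := by
      have e7 : n * ((2 * a - (n - a)) ^ 2 + 3 * (n - a) ^ 2) - 4 * (n - a) ^ 3 =
        a * (4 * a ^ 2) := by ring
      have e8 : 4 * (hat B χ).re * (n * (n - a) - (n - a) ^ 2) =
        a * (4 * ((hat B χ).re * (n - a))) := by ring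
      linarith
    have ha0 : 0 < a := by linarith
    have h10 := le_of_mul_le_mul_left h9 ha0
    set R := (hat B χ).re with hR
    have hR0 : 0 < R := by
      by_contra hc2
      push Not at hc2
      have : R * (n - a) ≤ 0 := mul_nonpos_of_nonpos_of_nonneg hc2 (by linarith)
      have : 0 < a ^ 2 := by positivity
      linarith
    have h11 : n / 6 ≤ R := by
      have h12 : R * (n - a) ≤ R * (2 * n / 3) := mul_le_mul_of_nonneg_left (by linarith) hR0.le
      have h13 : (n / 3) ^ 2 ≤ a ^ 2 := pow_le_pow_left₀ (by linarith) (by linarith) 2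
      by_contra hc2
      push Not at hc2
      have : R * (2 * n / 3) < n / 6 * (2 * n / 3) := mul_lt_mul_of_pos_right hc2 (by linarith)
      linarith
    have h14 : n / 6 * (0.95 * y) ≤ R * Real.sin y := by
      apply mul_le_mul h11 hsy (by positivity) hR0.le
    have e9 : n * y = h * Real.pi := by rw [hn2, hy]; field_simp
    have h15 : √3 ≤ 1.7321 := sqrt3_b.2
    have h16 : (h:ℝ) * √3 ≤ h * 1.7321 := mul_le_mul_of_nonneg_left h15 (by linarith)
    have h17 : (h:ℝ) * 3.1415 ≤ h * Real.pi := mul_le_mul_of_nonneg_left hp0.le (by linarith)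
    have e10 : n / 6 * (0.95 * y) = 0.95 / 6 * (n * y) := by ring
    rw [e10, e9] at h14
    linarith
  · push Not at hv
    have h1 := slice_low (p := m) ψ.ker (A := S') (h := h) (k := k + 1) (s := 1) (T := 1)
      (fun x hx hxS => hv x hxS ((AddMonoidHom.mem_ker).mp hx)) (by rw [hh']) hnz
      (by rw [hcS]; push_cast; ring) (by norm_num) (by exact_mod_cast hhpos)
      (by rw [hez]; ring) (by norm_num) (by rw [hez]; have : (2:ℤ) ≤ k := by exact_mod_cast hk
                                            linarith)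
    have h2 := h1.2 ⟨0, by norm_num⟩
    rw [schur_SF hSF'] at h2
    have h3 : (0:ℤ) < h := by exact_mod_cast hhpos
    norm_num at h2
    linarith

/-- the slope of `f_G`, prime exponent -/
theorem slope_prime {e K : ℕ} (hp : e.Prime) (he : 11 ≤ e) (hK1 : e ≤ 3 * K + 1)
    (hK2 : 3 * K ≤ e + 1) (hG : ∀ g : G, e • g = 0) (φ : G →+ ZMod e)
    (hφ : Function.Surjective φ) (hSF : ∀ S : Finset G, SF S → S.card ≤ K * Nat.card φ.ker)
    {b : ℕ} (hb1 : 14 * Fintype.card G ≤ 25 * b) (hb2 : 3 * b + Nat.card φ.ker ≤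
      2 * Fintype.card G) (ht : b + K * Nat.card φ.ker < Fintype.card G) (hf : fG G b ≤ 0) :
    fG G (b + 1) ≤ fG G b + 4 * Nat.card φ.ker + 5 := by
  have : NeZero e := ⟨hp.ne_zero⟩
  have hn := card_ker_mul φ hφ
  have hge := fG_ge_q φ hφ (b := b) (by have : 0 < Nat.card φ.ker := Nat.card_pos
                                        omega)
  have hWb : b + 1 ≤ Fintype.card G := by omega
  have hv := W_fG (G := G) hWb
  set v := fG G (b + 1) with hvdef
  have wb : ∀ j s : ℕ, b + s = (2 * j + 1) * Nat.card φ.ker → s ≤ Nat.card φ.ker →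
      3 * j + 1 ≤ e → ((Nat.card φ.ker : ℤ) - s) * ((Nat.card φ.ker : ℤ) - 5 * s) ≤ fG G b :=
    fun j s h1 h2 h3 => wit_below φ hφ h1 h2 h3
  have wa : ∀ j s : ℕ, b = (2 * j + 1) * Nat.card φ.ker + s → s ≤ Nat.card φ.ker →
      3 * j + 2 ≤ e → ((Nat.card φ.ker : ℤ) - s) * ((Nat.card φ.ker : ℤ) - 5 * s) ≤ fG G b :=
    fun j s h1 h2 h3 => wit_above φ hφ h1 h2 h3
  have hhpos : 0 < Nat.card φ.ker := Nat.card_pos
  have hnz : ((Fintype.card G : ℕ) : ℤ) = e * Nat.card φ.ker := by exact_mod_cast hn
  have hez : (11:ℤ) ≤ e := by exact_mod_cast he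
  have hhz : (0:ℤ) < Nat.card φ.ker := by exact_mod_cast hhpos
  have hb1z : 14 * ((e:ℤ) * Nat.card φ.ker) ≤ 25 * b := by rw [← hnz]; exact_mod_cast hb1
  have hb2z : 3 * (b:ℤ) + Nat.card φ.ker ≤ 2 * (e * Nat.card φ.ker) := by
    rw [← hnz]; exact_mod_cast hb2
  have hnh : 11 * (Nat.card φ.ker : ℤ) ≤ e * Nat.card φ.ker :=
    mul_le_mul_of_nonneg_right hez hhz.le
  set h := Nat.card φ.ker with hh
  set f := fG G b with hfdef
  -- the case `b + 1` is an odd multiple of `h`
  have small : ∀ j : ℕ, b + 1 = (2 * j + 1) * h → 3 * j + 1 ≤ e → (h:ℤ) ^ 2 ≤ f + 4 * h + 5 := by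
    intro j h1 h2
    have h3 := wb j 1 h1 hhpos h2
    push_cast at h3
    have h4 : (h:ℤ) ≤ 5 := by nlinarith
    nlinarith
  rcases hv with ⟨M, S, hSK, hS, hc, hval⟩ | ⟨H, j, t, htH, hval, hcase⟩
  · by_cases hM : M = ⊤
    · subst hM
      rw [AddSubgroup.card_top, Nat.card_eq_fintype_card] at hc hval
      have h1 := hSF S hS
      have h2 : b + 1 = (e - K) * h := by
        have e1 : (e - K) * h + K * h = e * h := by
          rw [← Nat.add_mul, Nat.sub_add_cancel (by omega)]
        omega
      obtain ⟨k, hk⟩ : ∃ k, e - K = 2 * k + 1 := by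
        have hodd : e % 2 = 1 := by
          rcases hp.eq_two_or_odd with h3 | h3
          · omega
          · exact h3
        have h3e : e ≠ 3 * K := by
          intro h3
          have h4 : (3:ℕ) ∣ e := ⟨K, h3⟩
          rcases (Nat.dvd_prime hp).mp h4 with h5 | h5
          · omega
          · omega
        refine ⟨(e - K) / 2, ?_⟩
        rcases (show e = 3 * K + 1 ∨ e + 1 = 3 * K by omega) with h4 | h4
        · omega
        · omega
      rw [hk] at h2
      have h3 := small k h2 (by omega)
      have h4 : v = (h:ℤ) ^ 2 := by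
        have h5 : ((b + 1 : ℕ) : ℤ) = (2 * k + 1) * h := by exact_mod_cast h2
        have h6 : (e:ℤ) - K = 2 * k + 1 := by
          have : ((e - K : ℕ) : ℤ) = 2 * k + 1 := by exact_mod_cast hk
          rw [Nat.cast_sub (by omega)] at this
          exact this
        rw [hval, h5, hnz]
        have h7 : 3 * (((2:ℤ) * k + 1) * h) - 2 * (e * h) = (3 * (2 * k + 1) - 2 * e) * h := by ring
        rw [h7, mul_pow]
        have h8 : (3 * (2 * (k:ℤ) + 1) - 2 * e) ^ 2 = 1 := by
          have h9 : 3 * (2 * (k:ℤ) + 1) - 2 * e = 1 ∨ 3 * (2 * (k:ℤ) + 1) - 2 * e = -1 := by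
            omega
          rcases h9 with h9 | h9 <;> rw [h9] <;> norm_num
        rw [h8, one_mul]
      rw [h4]
      exact h3
    · exfalso
      have h1 : Nat.card M ≠ Fintype.card G := by
        intro h
        apply hM
        apply AddSubgroup.eq_top_of_card_eq
        rw [h, Nat.card_eq_fintype_card]
      have h2 : Nat.card M ∣ Fintype.card G := by
        rw [← Nat.card_eq_fintype_card]; exact AddSubgroup.card_addSubgroup_dvd_card M
      obtain ⟨c, hc2⟩ := h2
      have hn0 : 0 < Fintype.card G := Fintype.card_pos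
      have hc3 : 2 ≤ c := by
        rcases c with _ | _ | c
        · omega
        · exfalso; apply h1; omega
        · omega
      have h4 : Nat.card M * 2 ≤ Fintype.card G := by
        conv_rhs => rw [hc2]
        exact Nat.mul_le_mul_left _ hc3
      omega
  · by_cases hH : H = ⊤
    · subst hH
      rw [AddSubgroup.card_top, Nat.card_eq_fintype_card] at htH hcase hval
      rcases hcase with ⟨h1, h2⟩ | ⟨h1, h2⟩
      · have hj : j = 0 := by
          by_contra hj
          have : 3 * Fintype.card G ≤ (2 * j + 1) * Fintype.card G :=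
            Nat.mul_le_mul_right _ (by omega)
          omega
        subst hj
        have h3 : (b:ℤ) + 1 + t = Fintype.card G := by
          have : ((b + 1 + t : ℕ) : ℤ) = ((2 * 0 + 1) * Fintype.card G : ℕ) := by exact_mod_cast h1
          push_cast at this
          linarith
        have ht2 : (t:ℤ) = e * h - b - 1 := by rw [hnz] at h3; linarith
        rw [hval, hnz, ht2]
        have e1 : ((e:ℤ) * h - (e * h - b - 1)) * (e * h - 5 * (e * h - b - 1)) =
          (b + 1) * (5 * (b + 1) - 4 * (e * h)) := by ring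
        rw [e1]
        have h4 : 5 * ((b:ℤ) + 1) - 4 * (e * h) ≤ -(3 * h) := by linarith
        have h5 : 6 * (h:ℤ) ≤ b + 1 := by linarith
        nlinarith
      · exfalso
        have : Fintype.card G ≤ (2 * j + 1) * Fintype.card G := Nat.le_mul_of_pos_left _ (by omega)
        have h12 : 11 * h ≤ Fintype.card G := by rw [hn]; exact Nat.mul_le_mul_right _ he
        omega
    · by_cases hne : Nat.card H = Nat.card φ.ker
      · rw [hne, ← hh] at htH hcase hval
        rcases hcase with ⟨h1, h2⟩ | ⟨h1, h2⟩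
        · have h3j := alive_le hp.pos hG h2
          rcases Nat.lt_or_ge t h with hth | hth
          · -- `s = t + 1`
            have h3 := wb j (t + 1) (by omega) (by omega) h3j
            rw [hval]
            have htz : (t:ℤ) < h := by exact_mod_cast hth
            push_cast at h3
            rcases eq_or_lt_of_le (show (t:ℤ) + 1 ≤ h by linarith) with h4 | h4
            · nlinarith
            · have h5 : (h:ℤ) - 5 * (t + 1) ≤ 0 := by
                by_contra h6
                push Not at h6
                have : 0 < ((h:ℤ) - (t + 1)) * (h - 5 * (t + 1)) :=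
                  mul_pos (by linarith) h6
                linarith
              nlinarith
          · have hte : t = h := le_antisymm htH hth
            have hj : 1 ≤ j := by
              rcases Nat.eq_zero_or_pos j with h0 | h0
              · exfalso; rw [h0, hte] at h1; omega
              · exact h0
            obtain ⟨i, rfl⟩ : ∃ i, j = i + 1 := ⟨j - 1, by omega⟩
            have h3 := wa i (h - 1) (by
              rw [hte] at h1
              have e1 : (2 * (i + 1) + 1) * h = (2 * i + 1) * h + h + h := by ring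
              omega) (by omega) (by omega)
            rw [Nat.cast_sub hhpos] at h3
            rw [hval, hte]
            push_cast at h3
            nlinarith
        · have h3j := alive_le hp.pos hG h2
          rcases Nat.eq_zero_or_pos t with ht0 | ht0
          · have h3 := small j (by omega) (by omega)
            rw [hval, ht0]
            push_cast
            nlinarith
          · have h3 := wa j (t - 1) (by omega) (by omega) h3j
            rw [Nat.cast_sub ht0] at h3
            rw [hval]
            have htz : (t:ℤ) ≤ h := by exact_mod_cast htH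
            push_cast at h3
            nlinarith
      · exfalso
        have hsmall := sub_card hp hG φ hφ H hH hne
        rw [← hh] at hsmall
        have hsz2 : 2 * (Nat.card H : ℤ) ≤ h := by exact_mod_cast hsmall
        have hH0 : (0:ℤ) ≤ Nat.card H := by positivity
        have htz : (t:ℤ) ≤ Nat.card H := by exact_mod_cast htH
        rcases hcase with ⟨h1, h2⟩ | ⟨h1, h2⟩
        · have h3 := alive_le hp.pos hG h2
          have h3z : 3 * (j:ℤ) + 1 ≤ e := by exact_mod_cast h3
          have h1z : (b:ℤ) + 1 + t = (2 * j + 1) * Nat.card H := by exact_mod_cast h1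
          have h4 : (2 * (j:ℤ) + 1) * (2 * Nat.card H) ≤ (2 * j + 1) * h :=
            mul_le_mul_of_nonneg_left hsz2 (by positivity)
          have h5 : 3 * ((2 * (j:ℤ) + 1) * h) ≤ (2 * e + 1) * h := by
            have : 3 * ((2 * (j:ℤ) + 1) * h) = (6 * j + 3) * h := by ring
            rw [this]
            exact mul_le_mul_of_nonneg_right (by linarith) hhz.le
          nlinarith
        · have h3 := alive_le hp.pos hG h2
          have h3z : 3 * (j:ℤ) + 2 ≤ e := by exact_mod_cast h3
          have h1z : (b:ℤ) + 1 = (2 * j + 1) * Nat.card H + t := by exact_mod_cast h1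
          have h4 : (2 * (j:ℤ) + 2) * (2 * Nat.card H) ≤ (2 * j + 2) * h :=
            mul_le_mul_of_nonneg_left hsz2 (by positivity)
          have h5 : 3 * ((2 * (j:ℤ) + 2) * h) ≤ (2 * e + 2) * h := by
            have : 3 * ((2 * (j:ℤ) + 2) * h) = (6 * j + 6) * h := by ring
            rw [this]
            exact mul_le_mul_of_nonneg_right (by linarith) hhz.le
          nlinarith

/-- the kernel is inside `B` -/
theorem pe_d1 {B : Finset G} {m K : ℕ} {χ : AddChar G ℂ} {φ : G →+ ZMod m} (ctx : Ctx B χ φ)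
    (hp : m.Prime) (hm : 11 ≤ m) (hK1 : m ≤ 3 * K + 1) (hK2 : 3 * K ≤ m + 1)
    (hG : ∀ g : G, m • g = 0)
    (hSF : ∀ S : Finset G, SF S → S.card ≤ K * Nat.card φ.ker)
    (hb1 : 14 * Fintype.card G ≤ 25 * B.card) (hb2 : 3 * B.card + Nat.card φ.ker ≤
      2 * Fintype.card G) (ht : B.card + K * Nat.card φ.ker < Fintype.card G)
    (hf : fG G B.card ≤ 0) : ∀ x, φ x = 0 → x ∈ B := by
  have : NeZero m := ⟨hp.ne_zero⟩
  have hn := card_ker_mul φ ctx.surj
  have hslope := slope_prime hp hm hK1 hK2 hG φ ctx.surj hSF hb1 hb2 ht hf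
  have hge := fG_ge_q φ ctx.surj (b := B.card) (by have : 0 < Nat.card φ.ker := Nat.card_pos
                                                   omega)
  have hhpos : 0 < Nat.card φ.ker := Nat.card_pos
  have hbh : 6 * Nat.card φ.ker ≤ B.card := by
    have : 11 * Nat.card φ.ker ≤ Fintype.card G := by rw [hn]; exact Nat.mul_le_mul_right _ hm
    omega
  have h0 : (0 : G) ∈ B := by
    by_contra h0
    have h1 := kkt_zero (fG G) B ctx.maxi h0
    rw [DB_eq] at h1
    have e1 : dlt B 0 = 0 := by
      unfold dlt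
      rw [Finset.filter_false_of_mem]
      · simp
      · intro z hz; simp [hz]
    have e2 : dlt' B 0 ≤ B.card := by
      unfold dlt'
      exact_mod_cast Finset.card_filter_le _ _
    rw [e1] at h1
    have h2 : (6:ℤ) * Nat.card φ.ker ≤ B.card := by exact_mod_cast hbh
    have h3 : (0:ℤ) < Nat.card φ.ker := by exact_mod_cast hhpos
    linarith
  intro v hv
  by_contra hvB
  have hv0 : v ≠ 0 := fun h => hvB (h ▸ h0)
  have h1 := kkt_notMem (fG G) B ctx.maxi v hvB hv0
  rw [DB_eq] at h1
  have e1 : iv B 0 = 1 := by unfold iv; rw [if_pos h0]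
  have e2 := iv_nonneg B (v + v)
  rw [e1] at h1
  have hT : 3 * (B.card : ℤ) - 2 * Nat.card φ.ker ≤ 2 * (2 * dlt B v + dlt' B v) := by linarith
  -- real numbers
  have hm0 : (0:ℝ) < m := by exact_mod_cast hp.pos
  have hnR : (Fintype.card G : ℝ) = m * Nat.card φ.ker := by exact_mod_cast hn
  have hhR : (0:ℝ) < Nat.card φ.ker := by exact_mod_cast hhpos
  have hmR : (11:ℝ) ≤ m := by exact_mod_cast hm
  have hbR1 : 14 * (m * (Nat.card φ.ker : ℝ)) ≤ 25 * B.card := by rw [← hnR]; exact_mod_cast hb1
  have hbR2 : 3 * (B.card : ℝ) + Nat.card φ.ker ≤ 2 * (m * (Nat.card φ.ker : ℝ)) := by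
    rw [← hnR]; exact_mod_cast hb2
  have hFR : -(4 * (Nat.card φ.ker : ℝ) ^ 2) ≤ 5 * ((GL.FF B : ℤ) : ℝ) := by
    have h2 := ctx.big
    have h3 : -(4 * (Nat.card φ.ker : ℤ) ^ 2) ≤ 5 * GL.FF B := by linarith
    exact_mod_cast h3
  have hTR : 3 * (B.card : ℝ) - 2 * Nat.card φ.ker ≤
      2 * (2 * ((dlt B v : ℤ) : ℝ) + ((dlt' B v : ℤ) : ℝ)) := by exact_mod_cast hT
  have hfou := ctx.fou
  have hp0 := Real.pi_gt_d4
  have hp1 := Real.pi_lt_d4
  have hang : ang φ v = 0 := by unfold ang; rw [hv]; simp
  rw [hnR] at hfou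
  set h : ℝ := (Nat.card φ.ker : ℝ) with hh
  set b : ℝ := (B.card : ℝ) with hb
  set R := (hat B χ).re with hR
  set F : ℝ := ((GL.FF B : ℤ) : ℝ) with hF
  have hmh : 11 * h ≤ m * h := mul_le_mul_of_nonneg_right hmR hhR.le
  have hb0 : 0 < b := by linarith
  have ha0 : 0 < m * h - b := by linarith
  have hR0 : 0 ≤ R := by
    by_contra hc
    push Not at hc
    have h4 : 4 * R * (m * h * b - b ^ 2) ≤ 0 := by
      have : 0 < m * h * b - b ^ 2 := by
        have : 0 < b * (m * h - b) := mul_pos hb0 ha0
        linarith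
      nlinarith
    have h5 : (m * h) * (-(4 * h ^ 2)) ≤ (m * h) * (5 * F) :=
      mul_le_mul_of_nonneg_left hFR (by positivity)
    -- `3 n b² - 4 b³ - 4/5 n h² > 0`
    have h6 : 0 ≤ b ^ 2 * (2 * (m * h) - 3 * b - h) :=
      mul_nonneg (sq_nonneg b) (by linarith)
    have h7 : (6 * h) ^ 2 ≤ b ^ 2 := pow_le_pow_left₀ (by linarith) (by linarith) 2
    have h8 : (m * h) * (36 * h ^ 2) ≤ (m * h) * b ^ 2 := by
      apply mul_le_mul_of_nonneg_left _ (by positivity)
      linarith
    have h9 : 0 < (m * h) * h ^ 2 := by positivity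
    have h10 : 0 ≤ b ^ 2 * h := by positivity
    nlinarith
  have hsh := shift (by omega) ctx.surj ctx.std B v hR0 (by rw [hang]; simp)
  rw [hang, Real.cos_zero, Real.sin_zero] at hsh
  have e4 : (4 : ℝ) * 1 ^ 2 - 0 ^ 2 = 2 ^ 2 := by norm_num
  rw [e4, Real.sqrt_sq (by norm_num), hnR, ← hh, ← hb, ← hR] at hsh
  set T : ℝ := 2 * ((dlt B v : ℤ) : ℝ) + ((dlt' B v : ℤ) : ℝ) with hTdef
  have g1 := dlt_le_half B v
  have g2 := dlt'_le_half B v
  rw [hnR] at g1 g2
  have hn0 : 0 < m * h := by positivity
  have hcos : Real.cos (Real.pi * T / (3 * (m * h))) ≤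
      Real.cos (Real.pi * b / (2 * (m * h)) - Real.pi / m / 3) := by
    apply Real.cos_le_cos_of_nonneg_of_le_pi
    · have e5 : Real.pi * b / (2 * (m * h)) - Real.pi / m / 3 =
          Real.pi * (3 * b - 2 * h) / (6 * (m * h)) := by
        field_simp; ring
      rw [e5]
      apply div_nonneg _ (by positivity)
      apply mul_nonneg Real.pi_pos.le
      linarith
    · rw [div_le_iff₀ (by positivity)]
      nlinarith
    · have e5 : Real.pi * b / (2 * (m * h)) - Real.pi / m / 3 =
          Real.pi * (3 * b - 2 * h) / (6 * (m * h)) := by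
        field_simp; ring
      rw [e5, div_le_div_iff₀ (by positivity) (by positivity)]
      have : Real.pi * (3 * b - 2 * h) * (3 * (m * h)) ≤ Real.pi * (2 * T) * (3 * (m * h)) := by
        apply mul_le_mul_of_nonneg_right _ (by positivity)
        exact mul_le_mul_of_nonneg_left hTR Real.pi_pos.le
      linarith
  have hsy : 0 < Real.sin (Real.pi / m) := by
    apply Real.sin_pos_of_pos_of_lt_pi (by positivity)
    rw [div_lt_iff₀ hm0]
    nlinarith
  have hsb : 0 ≤ Real.sin (Real.pi * b / (m * h)) := by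
    apply Real.sin_nonneg_of_nonneg_of_le_pi (by positivity)
    rw [div_le_iff₀ hn0]
    nlinarith
  have h12 : Real.sin (Real.pi / m) * R ≤ h * (Real.sin (Real.pi * b / (m * h)) *
      Real.cos (Real.pi * b / (2 * (m * h)) - Real.pi / m / 3)) := by
    have h13 : R ≤ h / Real.sin (Real.pi / m) * Real.sin (Real.pi * b / (m * h)) *
        Real.cos (Real.pi * T / (3 * (m * h))) := by linarith
    have h14 := mul_le_mul_of_nonneg_left h13 hsy.le
    have e6 : Real.sin (Real.pi / m) * (h / Real.sin (Real.pi / m) *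
        Real.sin (Real.pi * b / (m * h)) * Real.cos (Real.pi * T / (3 * (m * h)))) =
        h * (Real.sin (Real.pi * b / (m * h)) * Real.cos (Real.pi * T / (3 * (m * h)))) := by
      field_simp
    rw [e6] at h14
    refine h14.trans ?_
    apply mul_le_mul_of_nonneg_left _ hhR.le
    exact mul_le_mul_of_nonneg_left hcos hsb
  exact pe_core hmR hhR hbR1 hbR2 h12 hfou hFR

/-- **prime exponent at least 11**, `14 n ≤ 25 b`, `3 b ≤ 2 n` -/
theorem prime_56 {B : Finset G} {m : ℕ} {χ : AddChar G ℂ} {φ : G →+ ZMod m} (ctx : Ctx B χ φ)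
    (hp : m.Prime) (hm : 11 ≤ m) (hG : ∀ g : G, m • g = 0)
    (hb1 : 14 * Fintype.card G ≤ 25 * B.card) (hb2 : 3 * B.card ≤ 2 * Fintype.card G)
    (hf : fG G B.card ≤ 0) : False := by
  have : NeZero m := ⟨hp.ne_zero⟩
  have : Fact m.Prime := ⟨hp⟩
  let _ : Module (ZMod m) G := AddCommGroup.zmodModule hG
  have hn := card_ker_mul φ ctx.surj
  have ht := ctx.triv m φ ctx.surj
  have hhpos : 0 < Nat.card φ.ker := Nat.card_pos
  have h3e : m % 3 ≠ 0 := by
    intro h3
    rcases (Nat.dvd_prime hp).mp (Nat.dvd_of_mod_eq_zero h3) with h5 | h5 <;> omega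
  have hodd : m % 2 = 1 := by
    rcases hp.eq_two_or_odd with h3 | h3
    · omega
    · exact h3
  have htK : B.card + ((m + 1) / 3) * Nat.card φ.ker < Fintype.card G := by
    rw [hn] at ht ⊢
    have : m * (B.card + ((m + 1) / 3) * Nat.card φ.ker) < m * (m * Nat.card φ.ker) := by
      calc m * (B.card + ((m + 1) / 3) * Nat.card φ.ker) =
          m * B.card + ((m + 1) / 3) * (m * Nat.card φ.ker) := by ring
        _ < _ := ht
    exact Nat.lt_of_mul_lt_mul_left this
  have hcontra : ¬ Bd G B.card (GL.FF B) := by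
    intro h
    rw [Bd_card_iff] at h
    have := ctx.big
    linarith
  have hd1 : ∀ x, φ x = 0 → x ∈ B := by
    rcases (show m % 3 = 1 ∨ m % 3 = 2 by omega) with h1 | h2
    · obtain ⟨k, hk⟩ : ∃ k, m = 3 * k + 1 := ⟨m / 3, by omega⟩
      have hfin : FinK G m k := by
        rcases Nat.lt_or_ge k 10 with h10 | h10
        · have hK2 : k = 4 ∨ k = 6 ∨ k = 8 := by omega
          rcases hK2 with rfl | rfl | rfl
          · obtain rfl : m = 13 := hk
            exact finK13 hG
          · obtain rfl : m = 19 := hk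
            exact finK19 hG
          · exfalso; rw [hk] at hp; revert hp; norm_num
        · exact finK_big hk h10
      rcases Nat.lt_or_ge (2 * k * Fintype.card G) (m * B.card) with h4 | h4
      · exact d1_K hp hk (by omega) hG hfin ctx h4
      · have h5 : B.card ≤ 2 * k * Nat.card φ.ker := by
          rw [hn] at h4
          have : m * B.card ≤ m * (2 * k * Nat.card φ.ker) := by
            calc m * B.card ≤ 2 * k * (m * Nat.card φ.ker) := h4
              _ = m * (2 * k * Nat.card φ.ker) := by ring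
          exact Nat.le_of_mul_le_mul_left this hp.pos
        have hKk : (m + 1) / 3 = k := by omega
        rw [hKk] at htK
        refine pe_d1 (K := k) ctx hp hm (by omega) (by omega) hG ?_ hb1 ?_ htK hf
        · intro S hS
          have h6 := sfK hp hk (by omega) hG hfin φ ctx.surj S hS
          have e1 : m - 2 * k - 1 = k := by omega
          rwa [e1] at h6
        · rw [hn]
          have e2 : 2 * (m * Nat.card φ.ker) = 3 * (2 * k * Nat.card φ.ker) +
              2 * Nat.card φ.ker := by
            have : m * Nat.card φ.ker = (3 * k + 1) * Nat.card φ.ker := by rw [← hk]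
            rw [this]; ring
          omega
    · obtain ⟨k, hk⟩ : ∃ k, m = 3 * k + 2 := ⟨m / 3, by omega⟩
      have hKk : (m + 1) / 3 = k + 1 := by omega
      rw [hKk] at htK
      refine pe_d1 (K := k + 1) ctx hp hm (by omega) (by omega) hG
        (sf2 hp hk (by omega) hG φ ctx.surj) hb1 ?_ htK hf
      have e2 : Fintype.card G = (3 * k + 2) * Nat.card φ.ker := by rw [← hk]; exact hn
      rw [e2] at htK ⊢
      have e3 : (3 * k + 2) * Nat.card φ.ker = (2 * k + 1) * Nat.card φ.ker +
        (k + 1) * Nat.card φ.ker := by ring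
      have e4 : 2 * ((3 * k + 2) * Nat.card φ.ker) = 3 * ((2 * k + 1) * Nat.card φ.ker) +
        Nat.card φ.ker := by ring
      omega
  -- the position of `|A|`
  obtain ⟨k, s, hks, hsh⟩ : ∃ k s, Fintype.card G = B.card + k * Nat.card φ.ker + s ∧
      s < Nat.card φ.ker := by
    refine ⟨(Fintype.card G - B.card) / Nat.card φ.ker, (Fintype.card G - B.card) % Nat.card φ.ker,
      ?_, Nat.mod_lt _ hhpos⟩
    have h1 := Nat.div_add_mod (Fintype.card G - B.card) (Nat.card φ.ker)
    have h2 : B.card ≤ Fintype.card G := Finset.card_le_univ B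
    rw [mul_comm] at h1
    omega
  refine hcontra (slice_Bd (p := m) φ.ker hn (fun x hx => hd1 x ((AddMonoidHom.mem_ker).mp hx))
    hks hsh ?_)
  by_contra hc
  push Not at hc
  have h1 : (k + 1) * Nat.card φ.ker ≤ ((m + 1) / 3) * Nat.card φ.ker := by
    apply Nat.mul_le_mul_right
    omega
  have e1 : (k + 1) * Nat.card φ.ker = k * Nat.card φ.ker + Nat.card φ.ker := by ring
  omega

end

end Pool.Agent.D1X
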