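import Mathlib
import Pool.Agent.Lib_helper22.SCHD.PE
import Pool.Agent.Lib_helper26.SCH.DC

/-!
# The statement `Prime56`
-/

set_option autoImplicit false

namespace Pool.Agent.D1X

open Pool.Agent.SCH

universe u

/-- prime exponent at least 11 on `(.56, 2/3]` -/
theorem prime56 : Prime56.{u} := by
  intro G _ _ _ B m χ φ ctx _ hp hG hm h1 h2 h3
  exact prime_56 ctx hp hm hG h1.le h2 h3

end Pool.Agent.D1X
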